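import Pool.Agent.Lib.MP_2915c1_al.Gap

set_option autoImplicit false

/-!
Closedness of the uniform gap conditions, and the Baire argument.
-/

namespace Pool.Agent.MP_2915c1_al

open MeasureTheory Set Filter Matrix DomMulAct Topology

lemma continuous_dis (f : H) : Continuous (fun s : SO3 => dis s f) := by
  unfold dis tr
  have hfact : Fact ((2 : ENNReal) ≠ ⊤) := ⟨by norm_num⟩
  have hreg : haar.Regular := inferInstance
  have h1 : Continuous (fun s : SO3 => DomMulAct.mk s) := DomMulAct.continuous_mk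
  have h2 : Continuous (fun s : SO3 => DomMulAct.mk s • f) :=
    continuous_smul.comp (h1.prodMk continuous_const)
  exact (h2.sub continuous_const).norm

/-- The uniform gap condition for a family. -/
def unif {ι : Type} [Fintype ι] (n : ℕ) (y : ι → SO3) : Prop :=
  ∀ f : H, mean0 f → ‖f‖ ≤ ((n : ℝ) + 1) * ∑ i, dis (y i) f

/-- A family has a gap. -/
def gapF {ι : Type} [Fintype ι] (y : ι → SO3) : Prop := ∃ n : ℕ, unif n y

lemma isClosed_unif {ι X : Type} [Fintype ι] [TopologicalSpace X] (φ : X → ι → SO3)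
    (hφ : ∀ i, Continuous (fun x => φ x i)) (n : ℕ) : IsClosed {x | unif n (φ x)} := by
  have h : {x | unif n (φ x)} =
      ⋂ (f : H) (_ : mean0 f), {x | ‖f‖ ≤ ((n : ℝ) + 1) * ∑ i, dis (φ x i) f} := by
    ext x
    simp only [unif, Set.mem_ofPred_eq, Set.mem_iInter]
  rw [h]
  refine isClosed_iInter fun f => isClosed_iInter fun _ => ?_
  refine isClosed_le continuous_const ?_
  refine continuous_const.mul ?_
  exact continuous_finsetSum _ (fun i _ => (continuous_dis f).comp (hφ i))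

lemma gapF_iff_image {ι : Type} [Fintype ι] (y : ι → SO3) (T : Finset SO3)
    (hT1 : ∀ i, y i ∈ T) (hT2 : ∀ t ∈ T, ∃ i, y i = t) : HasSpectralGap T ↔ gapF y := by
  rw [hasSpectralGap_iff]
  have h1 : ∀ f : H, ∑ t ∈ T, dis t f ≤ (T.card : ℝ) * ∑ i, dis (y i) f := by
    intro f
    rw [← nsmul_eq_mul, ← Finset.sum_const]
    refine Finset.sum_le_sum fun t ht => ?_
    obtain ⟨i, rfl⟩ := hT2 t ht
    exact Finset.single_le_sum (f := fun i => dis (y i) f) (fun i _ => dis_nonneg _ f)
      (Finset.mem_univ i)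
  have h2 : ∀ f : H, ∑ i, dis (y i) f ≤ (Fintype.card ι : ℝ) * ∑ t ∈ T, dis t f := by
    intro f
    have : (Fintype.card ι : ℝ) * ∑ t ∈ T, dis t f = ∑ _i : ι, ∑ t ∈ T, dis t f := by
      rw [Finset.sum_const, nsmul_eq_mul, Finset.card_univ]
    rw [this]
    refine Finset.sum_le_sum fun i _ => ?_
    exact Finset.single_le_sum (f := fun t => dis t f) (fun t _ => dis_nonneg _ f) (hT1 i)
  have hnn : ∀ f : H, 0 ≤ ∑ i, dis (y i) f := fun f =>
    Finset.sum_nonneg (fun i _ => dis_nonneg _ f)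
  have hnn' : ∀ f : H, 0 ≤ ∑ t ∈ T, dis t f := fun f =>
    Finset.sum_nonneg (fun i _ => dis_nonneg _ f)
  constructor
  · rintro ⟨c, hc, h⟩
    obtain ⟨n, hn⟩ := exists_nat_ge ((T.card : ℝ) / c)
    refine ⟨n, fun f hf => ?_⟩
    have h3 := (h f hf).trans (h1 f)
    have h4 : ‖f‖ ≤ (T.card : ℝ) / c * ∑ i, dis (y i) f := by
      rw [div_mul_eq_mul_div, le_div_iff₀ hc, mul_comm _ c]
      exact h3
    refine h4.trans (mul_le_mul_of_nonneg_right ?_ (hnn f))
    linarith
  · rintro ⟨n, hn⟩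
    refine ⟨1 / (((n : ℝ) + 1) * (Fintype.card ι + 1)), by positivity, fun f hf => ?_⟩
    have h3 := hn f hf
    have h4 : ∑ i, dis (y i) f ≤ ((Fintype.card ι : ℝ) + 1) * ∑ t ∈ T, dis t f := by
      have := h2 f
      have := hnn' f
      linarith
    have hpos : (0 : ℝ) < ((n : ℝ) + 1) * (Fintype.card ι + 1) := by positivity
    rw [one_div, inv_mul_le_iff₀ hpos]
    calc ‖f‖ ≤ ((n : ℝ) + 1) * ∑ i, dis (y i) f := h3
      _ ≤ ((n : ℝ) + 1) * (((Fintype.card ι : ℝ) + 1) * ∑ t ∈ T, dis t f) :=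
        mul_le_mul_of_nonneg_left h4 (by positivity)
      _ = _ := by ring

open Classical in
lemma gapF_iff {ι : Type} [Fintype ι] (y : ι → SO3) (S : Finset SO3)
    (h1 : ∀ i, y i ∈ Subgroup.closure (S : Set SO3))
    (h2 : ∀ s ∈ S, s ∈ Subgroup.closure (Set.range y)) : HasSpectralGap S ↔ gapF y := by
  rw [← gapF_iff_image y (Finset.univ.image y) (fun i => Finset.mem_image_of_mem _ (Finset.mem_univ i))
    (fun t ht => by
      obtain ⟨i, _, hi⟩ := Finset.mem_image.mp ht
      exact ⟨i, hi⟩)]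
  have hr : ((Finset.univ.image y : Finset SO3) : Set SO3) = Set.range y := by
    ext t
    simp
  constructor
  · intro h
    refine gap_mono _ S ?_ h
    rw [hr]
    exact h2
  · intro h
    refine gap_mono S _ ?_ h
    intro t ht
    obtain ⟨i, _, hi⟩ := Finset.mem_image.mp ht
    rw [← hi]
    exact h1 i

open Classical in
/-- A pair inside a subgroup: if the family has a gap then so has the generating set. -/
lemma gap_of_gapF {ι : Type} [Fintype ι] (y : ι → SO3) (S : Finset SO3)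
    (h1 : ∀ i, y i ∈ Subgroup.closure (S : Set SO3)) (hy : gapF y) : HasSpectralGap S := by
  have hT : HasSpectralGap (Finset.univ.image y) :=
    (gapF_iff_image y (Finset.univ.image y)
      (fun i => Finset.mem_image_of_mem _ (Finset.mem_univ i))
      (fun t ht => by
        obtain ⟨i, _, hi⟩ := Finset.mem_image.mp ht
        exact ⟨i, hi⟩)).mpr hy
  refine gap_mono S _ ?_ hT
  intro t ht
  obtain ⟨i, _, hi⟩ := Finset.mem_image.mp ht
  rw [← hi]
  exact h1 i

/-- Baire argument. -/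
lemma gap_of_not_meagre {ι X : Type} [Fintype ι] [TopologicalSpace X] (φ : X → ι → SO3)
    (hφ : ∀ i, Continuous (fun x => φ x i)) (hn : ¬ IsMeagre {x | gapF (φ x)})
    (S : Finset SO3) (D : Set X) (hD : Dense D)
    (hDS : ∀ x ∈ D, ∀ i, φ x i ∈ Subgroup.closure (S : Set SO3)) : HasSpectralGap S := by
  have h1 : {x | gapF (φ x)} = ⋃ n : ℕ, {x | unif n (φ x)} := by
    ext x
    simp only [gapF, Set.mem_ofPred_eq, Set.mem_iUnion]
  have h2 : ∃ n : ℕ, ¬ IsNowhereDense {x | unif n (φ x)} := by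
    by_contra hcon
    push Not at hcon
    apply hn
    rw [h1]
    exact isMeagre_iUnion fun n => (hcon n).isMeagre
  obtain ⟨n, hn2⟩ := h2
  have hcl := isClosed_unif φ hφ n
  rw [hcl.isNowhereDense_iff] at hn2
  have hn3 := Set.nonempty_iff_ne_empty.mpr hn2
  obtain ⟨x, hx1, hx2⟩ := hD.inter_open_nonempty _ isOpen_interior hn3
  exact gap_of_gapF (φ x) S (hDS x hx2) ⟨n, interior_subset hx1⟩

end Pool.Agent.MP_2915c1_al
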