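import Pool.Agent.Lib.MP_2915c1_al.ConjMove

set_option autoImplicit false

/-!
The zero-one law on a pair of conjugacy classes of `SO(3)`.
-/

namespace Pool.Agent.MP_2915c1_al

open MeasureTheory Quaternion Set Filter Matrix

lemma ae_of_quat {P : SO3 → Prop} (hP : MeasurableSet {g | P g})
    (h : ∀ᵐ v : V, P (rq v)) : ∀ᵐ g ∂haar, P g := by
  rw [haar_eq, ae_map_iff measurable_rq.aemeasurable hP]
  exact rho_ac.ae_le h

lemma ae_of_slices {P : V → Prop} (hP : MeasurableSet {v : ℝ × (ℝ × ℝ × ℝ) | P v})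
    (h : ∀ᵐ w : ℝ × ℝ × ℝ, ∀ᵐ x : ℝ, P ((x, w) : V)) : ∀ᵐ v : V, P v := by
  have h2 := (Measure.ae_ae_comm (μ := (volume : Measure ℝ))
    (ν := (volume : Measure (ℝ × ℝ × ℝ))) (p := fun x w => P ((x, w) : V)) hP).mpr h
  have h3 := (Measure.ae_prod_iff_ae_ae (μ := (volume : Measure ℝ))
    (ν := (volume : Measure (ℝ × ℝ × ℝ))) hP).mpr h2
  rw [← Measure.volume_eq_prod] at h3
  exact h3

/-- The cosine of the angle between the first axis and its image. -/
noncomputable def cc (v : V) : ℝ :=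
  (v.1 ^ 2 + v.2.1 ^ 2 - v.2.2.1 ^ 2 - v.2.2.2 ^ 2) /
    (v.1 ^ 2 + v.2.1 ^ 2 + v.2.2.1 ^ 2 + v.2.2.2 ^ 2)

lemma measurable_cc : Measurable cc := by
  unfold cc
  fun_prop

lemma null_image {f : ℝ → ℝ} {s : Set ℝ} (hf : DifferentiableOn ℝ f s) (hs : volume s = 0) :
    volume (f '' s) = 0 :=
  addHaar_image_eq_zero_of_differentiableOn_of_addHaar_eq_zero volume hf hs

lemma cc_slice {S : Set ℝ} (hS : volume S = 0) (y z w : ℝ) (h : 0 < z ^ 2 + w ^ 2) :
    ∀ᵐ x : ℝ, cc (x, y, z, w) ∉ S := by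
  set U : Set ℝ := {s | s ≠ 1 ∧ 0 < 2 * (z ^ 2 + w ^ 2) / (1 - s) - (y ^ 2 + z ^ 2 + w ^ 2)}
    with hU
  have hd : DifferentiableOn ℝ
      (fun s => Real.sqrt (2 * (z ^ 2 + w ^ 2) / (1 - s) - (y ^ 2 + z ^ 2 + w ^ 2))) (S ∩ U) := by
    intro s hs
    have h1 : (1 : ℝ) - s ≠ 0 := sub_ne_zero.mpr (Ne.symm hs.2.1)
    refine DifferentiableAt.differentiableWithinAt ?_
    refine DifferentiableAt.sqrt ?_ hs.2.2.ne'
    fun_prop (disch := assumption)
  have hn : volume (S ∩ U) = 0 := measure_mono_null inter_subset_left hS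
  have n1 := null_image hd hn
  have n2 := null_image hd.neg hn
  have n3 : volume ({0} : Set ℝ) = 0 := by simp
  have hall := measure_union_null (measure_union_null n1 n2) n3
  rw [ae_iff]
  refine measure_mono_null ?_ hall
  intro x hx
  have hx' : cc (x, y, z, w) ∈ S := by simpa using hx
  by_cases hx0 : x = 0
  · exact Or.inr hx0
  left
  have hx2 : 0 < x ^ 2 := by positivity
  have hc : cc (x, y, z, w) = 1 - 2 * (z ^ 2 + w ^ 2) / (x ^ 2 + (y ^ 2 + z ^ 2 + w ^ 2)) := by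
    have : x ^ 2 + (y ^ 2 + z ^ 2 + w ^ 2) ≠ 0 := by positivity
    have h2 : x ^ 2 + y ^ 2 + z ^ 2 + w ^ 2 ≠ 0 := by positivity
    unfold cc
    simp only
    field_simp
    ring
  have hinv : 2 * (z ^ 2 + w ^ 2) / (1 - cc (x, y, z, w)) - (y ^ 2 + z ^ 2 + w ^ 2) = x ^ 2 := by
    have h1 : x ^ 2 + (y ^ 2 + z ^ 2 + w ^ 2) ≠ 0 := by positivity
    have h3 : z ^ 2 + w ^ 2 ≠ 0 := h.ne'
    rw [hc, sub_sub_cancel, div_div_eq_mul_div, mul_comm, mul_div_assoc, div_self (by positivity)]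
    ring
  have hmem : cc (x, y, z, w) ∈ S ∩ U := by
    refine ⟨hx', ?_, ?_⟩
    · rw [hc]
      have : 0 < 2 * (z ^ 2 + w ^ 2) / (x ^ 2 + (y ^ 2 + z ^ 2 + w ^ 2)) := by positivity
      linarith
    · rw [hinv]
      exact hx2
  rcases lt_or_gt_of_ne hx0 with h1 | h1
  · right
    refine ⟨_, hmem, ?_⟩
    simp only [Pi.neg_apply]
    rw [hinv, Real.sqrt_sq_eq_abs, abs_of_neg h1, neg_neg]
  · left
    refine ⟨_, hmem, ?_⟩
    simp only
    rw [hinv, Real.sqrt_sq_eq_abs, abs_of_pos h1]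

lemma ae_cc {S : Set ℝ} (hS : volume S = 0) : ∀ᵐ v : V, cc v ∉ S := by
  have hS' : volume (toMeasurable volume S) = 0 := by rw [measure_toMeasurable, hS]
  have hm : MeasurableSet {v : ℝ × (ℝ × ℝ × ℝ) | cc v ∉ toMeasurable volume S} :=
    (measurable_cc (measurableSet_toMeasurable volume S)).compl
  have h1 : ∀ᵐ w : ℝ × ℝ × ℝ, w.2.1 ≠ 0 := by
    have := (Measure.quasiMeasurePreserving_snd (μ := (volume : Measure ℝ))
      (ν := (volume : Measure (ℝ × ℝ)))).ae ae_fst_ne_zero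
    rw [← Measure.volume_eq_prod] at this
    exact this
  have h2 : ∀ᵐ v : V, cc v ∉ toMeasurable volume S := by
    refine ae_of_slices hm ?_
    filter_upwards [h1] with w hw
    have := cc_slice hS' w.1 w.2.1 w.2.2 (by positivity)
    exact this
  filter_upwards [h2] with v hv h3
  exact hv (subset_toMeasurable volume S h3)

lemma trace_nf (A B : ℝ) (h : ℍ[ℝ]) (hh : h ≠ 0) :
    (nfa A * (h * nfa B * h⁻¹)).re =
      A * B - Real.sqrt (1 - A ^ 2) * Real.sqrt (1 - B ^ 2) * cc (qi h) := by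
  have hn : normSq h ≠ 0 := normSq_ne_zero.mpr hh
  have e : nfa A * (h * nfa B * h⁻¹) = (normSq h)⁻¹ • (nfa A * (h * nfa B * star h)) := by
    rw [Quaternion.inv_def]
    simp only [mul_smul_comm]
  rw [e, Quaternion.re_smul, smul_eq_mul]
  rw [normSq_eq] at hn ⊢
  unfold nfa cc qi
  simp
  field_simp
  ring

/-- Two-sided multiplication by nonzero quaternions, in coordinates. -/
lemma qmp_two (r s : ℍ[ℝ]) (hr : r ≠ 0) (hs : s ≠ 0) :
    Measure.QuasiMeasurePreserving (fun v : V => qi (r * q v * s)) volume volume := by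
  have h1 := qmp_linearEquiv volume volume ((mulLe r hr).trans (mulRe s hs))
  exact h1

lemma trace_two (a b r s g : ℍ[ℝ]) (hr : r ≠ 0) (hs : s ≠ 0) (hg : g ≠ 0)
    (h1 : r * a = nfa a.re * r) (h2 : s * b = nfa b.re * s) :
    (a * (g * b * g⁻¹)).re = a.re * b.re - Real.sqrt (1 - a.re ^ 2) *
      Real.sqrt (1 - b.re ^ 2) * cc (qi (r * g * s⁻¹)) := by
  have hh : r * g * s⁻¹ ≠ 0 := mul_ne_zero (mul_ne_zero hr hg) (inv_ne_zero hs)
  rw [← trace_nf _ _ _ hh]
  refine re_conj hr ?_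
  have e1 : s⁻¹ * (nfa b.re * s) = b := by
    rw [← h2, ← mul_assoc, inv_mul_cancel₀ hs, one_mul]
  have e2 : (r * g * s⁻¹)⁻¹ = s * g⁻¹ * r⁻¹ := by
    rw [_root_.mul_inv_rev, _root_.mul_inv_rev, inv_inv, mul_assoc]
  calc r * (a * (g * b * g⁻¹)) = (r * a) * (g * b * g⁻¹) := (mul_assoc _ _ _).symm
    _ = nfa a.re * r * (g * (s⁻¹ * (nfa b.re * s)) * g⁻¹) := by rw [h1, e1]
    _ = nfa a.re * (r * g * s⁻¹ * nfa b.re * (s * g⁻¹ * r⁻¹)) * r := by
        have : ∀ x : ℍ[ℝ], x * r⁻¹ * r = x := fun x => by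
          rw [mul_assoc, inv_mul_cancel₀ hr, mul_one]
        calc _ = nfa a.re * (r * g * s⁻¹ * nfa b.re * (s * g⁻¹)) := by simp only [mul_assoc]
          _ = (nfa a.re * (r * g * s⁻¹ * nfa b.re * (s * g⁻¹))) * r⁻¹ * r := (this _).symm
          _ = _ := by simp only [mul_assoc]
    _ = _ := by rw [e2]

/-- The distribution of the half trace of the product is absolutely continuous, and it lies almost
surely in the open interval. -/
lemma ae_trace (a b : ℍ[ℝ]) (ha : normSq a = 1) (hb : normSq b = 1) (hA : a.re ^ 2 < 1)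
    (hB : b.re ^ 2 < 1) {S : Set ℝ} (hS : volume S = 0) :
    ∀ᵐ v : V, (a * (q v * b * (q v)⁻¹)).re ∉ S ∧
      0 < Dl a.re b.re ((a * (q v * b * (q v)⁻¹)).re) := by
  obtain ⟨r, hr, h1⟩ := nf_step1 a ha hA
  obtain ⟨s, hs, h2⟩ := nf_step1 b hb hB
  set p : ℝ := Real.sqrt (1 - a.re ^ 2) * Real.sqrt (1 - b.re ^ 2) with hp
  have hp1 : 0 < 1 - a.re ^ 2 := by linarith
  have hp2 : 0 < 1 - b.re ^ 2 := by linarith
  have hp0 : 0 < p := mul_pos (Real.sqrt_pos.mpr hp1) (Real.sqrt_pos.mpr hp2)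
  have hpp : p ^ 2 = (1 - a.re ^ 2) * (1 - b.re ^ 2) := by
    rw [hp, mul_pow, Real.sq_sqrt hp1.le, Real.sq_sqrt hp2.le]
  set T : Set ℝ := (fun c => a.re * b.re - p * c) ⁻¹' S ∪ {1, -1} with hT
  have hTn : volume T = 0 := by
    refine measure_union_null ?_ ?_
    · have : (fun c => a.re * b.re - p * c) ⁻¹' S ⊆ (fun x => (a.re * b.re - x) / p) '' S := by
        intro c hc
        refine ⟨_, hc, ?_⟩
        simp only
        field_simp
        ring
      refine measure_mono_null this (null_image ?_ hS)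
      fun_prop
    · exact (Set.toFinite _).measure_zero _
  have h3 := (qmp_two r s⁻¹ hr (inv_ne_zero hs)).ae (ae_cc hTn)
  filter_upwards [h3, ae_V_ne_zero] with v hv hv0
  have e := trace_two a b r s (q v) hr hs hv0 h1 h2
  rw [← hp] at e
  set c := cc (qi (r * q v * s⁻¹)) with hc
  have hcT : c ∉ T := hv
  have hc1 : c ≠ 1 := fun h => hcT (Or.inr (Or.inl h))
  have hc2 : c ≠ -1 := fun h => hcT (Or.inr (Or.inr h))
  have hc3 : c ^ 2 ≤ 1 := by
    have hn : 0 ≤ normSq (r * q v * s⁻¹) := normSq_nonneg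
    have hn0 : normSq (r * q v * s⁻¹) ≠ 0 := normSq_ne_zero.mpr
      (mul_ne_zero (mul_ne_zero hr hv0) (inv_ne_zero hs))
    rw [normSq_eq] at hn hn0
    rw [hc]
    unfold cc qi
    simp only
    rw [div_pow, div_le_one (by positivity)]
    apply sq_le_sq'
    · nlinarith [sq_nonneg (r * q v * s⁻¹).re, sq_nonneg (r * q v * s⁻¹).imI,
        sq_nonneg (r * q v * s⁻¹).imJ, sq_nonneg (r * q v * s⁻¹).imK]
    · nlinarith [sq_nonneg (r * q v * s⁻¹).re, sq_nonneg (r * q v * s⁻¹).imI,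
        sq_nonneg (r * q v * s⁻¹).imJ, sq_nonneg (r * q v * s⁻¹).imK]
  have hc4 : c ^ 2 < 1 := by
    rcases hc3.lt_or_eq with h | h
    · exact h
    · rcases sq_eq_sq_iff_eq_or_eq_neg.mp (h.trans (one_pow 2).symm) with h5 | h5
      · exact absurd h5 hc1
      · exact absurd h5 hc2
  refine ⟨fun h => hcT (Or.inl ?_), ?_⟩
  · rw [mem_preimage, ← e]
    exact h
  · rw [e]
    have : Dl a.re b.re (a.re * b.re - p * c) = p ^ 2 * (1 - c ^ 2) := by
      have h6 : (p * c) ^ 2 = (1 - a.re ^ 2) * (1 - b.re ^ 2) * c ^ 2 := by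
        rw [mul_pow, hpp]
      rw [hpp]
      unfold Dl
      linear_combination -h6
    rw [this]
    exact mul_pos (by positivity) (by linarith)

/-- The set of half traces of the product without gap. -/
def NX (A B : ℝ) : Set ℝ := {X | ¬ Pq (nfa A) (nfb A B X)}

lemma measurableSet_NX (A B : ℝ) : MeasurableSet (NX A B) := by
  have h1 : Measurable (fun X : ℝ => (rq (qi (nfa A)), rq (qi (nfb A B X)))) := by
    refine measurable_const.prodMk (measurable_rq.comp ?_)
    refine Continuous.measurable ?_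
    unfold qi nfb
    simp only [mkq_re, mkq_imI, mkq_imJ, mkq_imK]
    fun_prop
  have h2 := (h1 measurableSet_gapPairs).compl
  have e : NX A B = ((fun X : ℝ => (rq (qi (nfa A)), rq (qi (nfb A B X)))) ⁻¹'
      {p : SO3 × SO3 | HasSpectralGap (pairSet p.1 p.2)})ᶜ := by
    ext X
    simp only [NX, Pq, mem_ofPred_eq, mem_compl_iff, mem_preimage, rq, q_qi]
  rw [e]
  exact h2

lemma rot_pow {a : ℍ[ℝ]} (ha : a ≠ 0) (k : ℕ) : rot (a ^ k) = rot a ^ k := by
  induction k with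
  | zero => rw [pow_zero, pow_zero, rot_one]
  | succ k ih => rw [pow_succ, pow_succ, rot_mul (pow_ne_zero k ha) ha, ih]

lemma mv_NX {A B : ℝ} (hA : A ^ 2 < 1) : Mv A B (NX A B) := by
  intro t hD ht k
  have hl : 0 < Real.sqrt (1 - A ^ 2) := Real.sqrt_pos.mpr (by linarith)
  have hl2 : Real.sqrt (1 - A ^ 2) ^ 2 = 1 - A ^ 2 := Real.sq_sqrt (by linarith)
  have hnn : 0 ≤ 1 - B ^ 2 - ((A * B - Real.cos t) / Real.sqrt (1 - A ^ 2)) ^ 2 := by
    have : 1 - B ^ 2 - ((A * B - Real.cos t) / Real.sqrt (1 - A ^ 2)) ^ 2 =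
        Dl A B (Real.cos t) / (1 - A ^ 2) := by
      rw [div_pow, hl2]
      have : 1 - A ^ 2 ≠ 0 := by linarith
      unfold Dl
      field_simp
      ring
    rw [this]
    exact div_nonneg hD.le (by linarith)
  have ha : normSq (nfa A) = 1 := by
    rw [normSq_eq]
    simp only [nfa, mkq_re, mkq_imI, mkq_imJ, mkq_imK, hl2]
    ring
  have hb : normSq (nfb A B (Real.cos t)) = 1 := by
    rw [normSq_eq]
    simp only [nfb, mkq_re, mkq_imI, mkq_imJ, mkq_imK]
    rw [Real.sq_sqrt hnn]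
    ring
  have hre1 : (nfa A).re = A := rfl
  have hre2 : (nfb A B (Real.cos t)).re = B := rfl
  have hab : (nfa A * nfb A B (Real.cos t)).re = Real.cos t := by
    unfold nfa nfb
    simp
    field_simp
    ring
  set a := nfa A with hadef
  set b := nfb A B (Real.cos t) with hbdef
  have ha0 := ne_zero_of_unit ha
  have hb0 := ne_zero_of_unit hb
  have hw0 : (a * b) ^ (k + 1) ≠ 0 := pow_ne_zero _ (mul_ne_zero ha0 hb0)
  have hmove := move_trace a b ha hb (by rw [hre1]; exact hA) t hab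
    (by rw [hre1, hre2]; exact hD) k
  rw [hre1, hre2] at hmove
  set w := (a * b) ^ (k + 1) with hw
  have hcj : w * b = (w * b * w⁻¹) * w := by
    rw [mul_assoc, mul_assoc, inv_mul_cancel₀ hw0, mul_one]
  have hn := normSq_conj hw0 hcj
  have hr := re_conj hw0 hcj
  rw [hb] at hn
  have hno : ¬ Pq a (w * b * w⁻¹) := by
    intro h
    apply ht
    change Pq a b
    unfold Pq at h ⊢
    have hma : rot a ∈ Subgroup.closure {rot a, rot b} := Subgroup.subset_closure (by simp)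
    have hmb : rot b ∈ Subgroup.closure {rot a, rot b} := Subgroup.subset_closure (by simp)
    have hmw : rot w ∈ Subgroup.closure {rot a, rot b} := by
      rw [hw, rot_pow (mul_ne_zero ha0 hb0), rot_mul ha0 hb0]
      exact pow_mem (mul_mem hma hmb) _
    refine gap_pair_mono _ _ _ _ hma ?_ h
    rw [rot_conj hb0 hw0]
    exact mul_mem (mul_mem hmw hmb) (inv_mem hmw)
  rw [Pq_nf a (w * b * w⁻¹) ha hn.symm (by rw [hre1]; exact hA), ← hr, hre1, hre2, hmove] at hno
  exact hno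

/-- Almost sure transfer of the gap property along the half trace. -/
lemma gap_iff_NX (a b g : ℍ[ℝ]) (ha : normSq a = 1) (hb : normSq b = 1) (hA : a.re ^ 2 < 1)
    (hg : g ≠ 0) : HasSpectralGap (pairSet (rot a) (rot g * rot b * (rot g)⁻¹)) ↔
      (a * (g * b * g⁻¹)).re ∉ NX a.re b.re := by
  have hb0 := ne_zero_of_unit hb
  have hcj : g * b = (g * b * g⁻¹) * g := by
    rw [mul_assoc, mul_assoc, inv_mul_cancel₀ hg, mul_one]
  have hn := normSq_conj hg hcj
  have hr := re_conj hg hcj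
  rw [hb] at hn
  have h1 := Pq_nf a (g * b * g⁻¹) ha hn.symm hA
  unfold Pq at h1
  rw [rot_conj hb0 hg] at h1
  rw [h1, ← hr]
  simp only [NX, mem_ofPred_eq, not_not, Pq]

lemma continuous_conjmap (a b : SO3) : Continuous (fun g : SO3 => (a, g * b * g⁻¹)) := by
  fun_prop

lemma measurableSet_gapConj (a b : SO3) :
    MeasurableSet {g : SO3 | HasSpectralGap (pairSet a (g * b * g⁻¹))} :=
  (continuous_conjmap a b).measurable measurableSet_gapPairs

lemma rot_eq_one {a : ℍ[ℝ]} (ha : normSq a = 1) (h : ¬ a.re ^ 2 < 1) : rot a = 1 := by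
  rw [normSq_eq] at ha
  have h1 : a.imI = 0 := by nlinarith [sq_nonneg a.imI, sq_nonneg a.imJ, sq_nonneg a.imK]
  have h2 : a.imJ = 0 := by nlinarith [sq_nonneg a.imI, sq_nonneg a.imJ, sq_nonneg a.imK]
  have h3 : a.imK = 0 := by nlinarith [sq_nonneg a.imI, sq_nonneg a.imJ, sq_nonneg a.imK]
  have h4 : a.re ≠ 0 := by
    intro h0
    rw [h0] at h
    norm_num at h
  have e : a = a.re • (1 : ℍ[ℝ]) := by
    ext <;> simp [h1, h2, h3]
  rw [e, rot_smul _ h4, rot_one]

/-- Zero-one law on a pair of conjugacy classes. -/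
theorem law_one (a b : SO3) :
    (∀ᵐ g ∂haar, HasSpectralGap (pairSet a (g * b * g⁻¹))) ∨
    (∀ᵐ g ∂haar, ¬ HasSpectralGap (pairSet a (g * b * g⁻¹))) := by
  obtain ⟨a', ha, rfl⟩ := exists_unit a
  obtain ⟨b', hb, rfl⟩ := exists_unit b
  by_cases hA : a'.re ^ 2 < 1
  swap
  · rw [rot_eq_one ha hA]
    have h : ∀ g : SO3, HasSpectralGap (pairSet 1 (g * rot b' * g⁻¹)) ↔
        HasSpectralGap (pairSet 1 (rot b')) := by
      intro g
      have := gap_conj_iff 1 (rot b') g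
      rwa [mul_one, mul_inv_cancel] at this
    simp only [h]
    by_cases h0 : HasSpectralGap (pairSet 1 (rot b'))
    · exact Or.inl (Eventually.of_forall fun _ => h0)
    · exact Or.inr (Eventually.of_forall fun _ => h0)
  by_cases hB : b'.re ^ 2 < 1
  swap
  · rw [rot_eq_one hb hB]
    simp only [mul_one, mul_inv_cancel]
    by_cases h0 : HasSpectralGap (pairSet (rot a') 1)
    · exact Or.inl (Eventually.of_forall fun _ => h0)
    · exact Or.inr (Eventually.of_forall fun _ => h0)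
  rcases zero_one_interval hA (measurableSet_NX a'.re b'.re) (mv_NX hA) with h | h
  · left
    refine ae_of_quat (measurableSet_gapConj _ _) ?_
    filter_upwards [ae_trace a' b' ha hb hA hB h, ae_V_ne_zero] with v hv hv0
    rw [rq, gap_iff_NX a' b' (q v) ha hb hA hv0]
    exact fun h1 => hv.1 ⟨h1, hv.2⟩
  · right
    refine ae_of_quat (measurableSet_gapConj _ _).compl ?_
    filter_upwards [ae_trace a' b' ha hb hA hB h, ae_V_ne_zero] with v hv hv0
    rw [rq, gap_iff_NX a' b' (q v) ha hb hA hv0]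
    exact fun h1 => hv.1 ⟨h1, hv.2⟩

end Pool.Agent.MP_2915c1_al
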