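import Mathlib

set_option autoImplicit false

/-!
A zero-one law on an interval for sets that are closed under the maps
`cos t ↦ cos t - Q (cos t) * (cos t - cos ((2 k + 1) t))`.
-/

namespace Pool.Agent.MP_2915c1_al

open MeasureTheory Set Filter Topology Metric

/-- The discriminant of three half traces. -/
noncomputable def Dl (A B X : ℝ) : ℝ := 1 - A ^ 2 - B ^ 2 - X ^ 2 + 2 * A * B * X

/-- The mixing coefficient. -/
noncomputable def Qf (A B X : ℝ) : ℝ := Dl A B X / (1 - X ^ 2)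

/-- The move in the coordinate `t`. -/
noncomputable def Gm (A B m t : ℝ) : ℝ :=
  Real.cos t - Qf A B (Real.cos t) * (Real.cos t - Real.cos (m * t))

lemma Dl_eq (A B X : ℝ) : Dl A B X = (1 - A ^ 2) * (1 - X ^ 2) - (B - A * X) ^ 2 := by
  unfold Dl
  ring

lemma one_sub_sq_pos {A B X : ℝ} (hA : A ^ 2 < 1) (h : 0 < Dl A B X) : 0 < 1 - X ^ 2 := by
  rw [Dl_eq] at h
  by_contra h1
  have h2 : (1 - A ^ 2) * (1 - X ^ 2) ≤ 0 :=
    mul_nonpos_of_nonneg_of_nonpos (by linarith) (not_lt.mp h1)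
  nlinarith [sq_nonneg (B - A * X)]

lemma Qf_pos {A B X : ℝ} (hA : A ^ 2 < 1) (h : 0 < Dl A B X) : 0 < Qf A B X :=
  div_pos h (one_sub_sq_pos hA h)

lemma Qf_le_one {A B X : ℝ} (hA : A ^ 2 < 1) (h : 0 < Dl A B X) : Qf A B X ≤ 1 := by
  have h1 := one_sub_sq_pos hA h
  unfold Qf
  rw [div_le_one h1, Dl_eq]
  nlinarith [sq_nonneg (B - A * X), sq_nonneg A]

lemma continuous_Dl (A B : ℝ) : Continuous (Dl A B) := by
  unfold Dl
  fun_prop

lemma isOpen_Dl (A B : ℝ) : IsOpen {X | 0 < Dl A B X} :=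
  isOpen_lt continuous_const (continuous_Dl A B)

lemma convex_Dl (A B : ℝ) : Convex ℝ {X | 0 < Dl A B X} := by
  intro x hx y hy a b ha hb hab
  simp only [mem_ofPred_eq, smul_eq_mul] at hx hy ⊢
  have hb' : b = 1 - a := by linarith
  subst hb'
  have h : Dl A B (a * x + (1 - a) * y) = a * Dl A B x + (1 - a) * Dl A B y
      + a * (1 - a) * (x - y) ^ 2 := by
    unfold Dl
    ring
  rw [h]
  have h3 : 0 ≤ a * (1 - a) * (x - y) ^ 2 := mul_nonneg (mul_nonneg ha hb) (sq_nonneg _)
  rcases ha.eq_or_lt with h0 | h0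
  · rw [← h0]
    simp
    linarith
  · have := mul_pos h0 hx
    have := mul_nonneg hb hy.le
    linarith

lemma continuousAt_Qf {A B X : ℝ} (hA : A ^ 2 < 1) (h : 0 < Dl A B X) :
    ContinuousAt (Qf A B) X := by
  unfold Qf
  exact (continuous_Dl A B).continuousAt.div (by fun_prop) (one_sub_sq_pos hA h).ne'

/-- Uniform Lipschitz bound. -/
lemma lip_Gm {A B t₀ : ℝ} (hA : A ^ 2 < 1) (h : 0 < Dl A B (Real.cos t₀)) :
    ∃ δ > 0, ∃ C : NNReal, (∀ t ∈ closedBall t₀ δ, 0 < Dl A B (Real.cos t)) ∧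
      ∀ m : NNReal, 1 ≤ m → LipschitzOnWith (C * m) (Gm A B m) (closedBall t₀ δ) := by
  have hq : ContDiffAt ℝ 1 (fun t => Qf A B (Real.cos t)) t₀ := by
    unfold Qf Dl
    have := one_sub_sq_pos hA h
    refine ContDiffAt.div ?_ ?_ this.ne'
    · fun_prop
    · fun_prop
  obtain ⟨K, s, hs, hK⟩ := hq.exists_lipschitzOnWith
  have ho : {t : ℝ | 0 < Dl A B (Real.cos t)} ∈ 𝓝 t₀ :=
    ((isOpen_Dl A B).preimage Real.continuous_cos).mem_nhds h
  obtain ⟨δ, hδ, hsub⟩ := Metric.nhds_basis_closedBall.mem_iff.mp (inter_mem hs ho)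
  refine ⟨δ, hδ, 3 + 2 * K, fun t ht => (hsub ht).2, fun m hm => ?_⟩
  refine LipschitzOnWith.of_dist_le_mul ?_
  intro x hx y hy
  have hx' := hsub hx
  have hy' := hsub hy
  have h1 : |Real.cos x - Real.cos y| ≤ |x - y| := by
    have := Real.lipschitzWith_cos.dist_le_mul x y
    simpa [Real.dist_eq] using this
  have h2 : |Real.cos (m * x) - Real.cos (m * y)| ≤ m * |x - y| := by
    have := Real.lipschitzWith_cos.dist_le_mul (m * x) (m * y)
    simp only [NNReal.coe_one, one_mul, Real.dist_eq] at this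
    rw [← mul_sub, abs_mul, NNReal.abs_eq] at this
    exact this
  have h3 : |Qf A B (Real.cos x) - Qf A B (Real.cos y)| ≤ K * |x - y| := by
    have := hK.dist_le_mul x hx'.1 y hy'.1
    simpa [Real.dist_eq] using this
  have h4 : |Qf A B (Real.cos y)| ≤ 1 := by
    rw [abs_of_pos (Qf_pos hA hy'.2)]
    exact Qf_le_one hA hy'.2
  have h5 : |Real.cos x - Real.cos (m * x)| ≤ 2 := by
    rw [abs_le]
    constructor <;> linarith [Real.cos_le_one x, Real.neg_one_le_cos x,
      Real.cos_le_one (m * x), Real.neg_one_le_cos (m * x)]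
  have hm' : (1 : ℝ) ≤ m := by exact_mod_cast hm
  have hK0 : (0 : ℝ) ≤ K := K.2
  rw [Real.dist_eq, Real.dist_eq]
  have e : Gm A B m x - Gm A B m y = (Real.cos x - Real.cos y)
      - (Qf A B (Real.cos x) - Qf A B (Real.cos y)) * (Real.cos x - Real.cos (m * x))
      - Qf A B (Real.cos y) * ((Real.cos x - Real.cos y)
        - (Real.cos (m * x) - Real.cos (m * y))) := by
    unfold Gm
    ring
  have ha := abs_nonneg (x - y)
  have b1 : |(Qf A B (Real.cos x) - Qf A B (Real.cos y)) * (Real.cos x - Real.cos (m * x))|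
      ≤ K * |x - y| * 2 := by
    rw [abs_mul]
    exact mul_le_mul h3 h5 (abs_nonneg _) (by positivity)
  have b2 : |Qf A B (Real.cos y) * ((Real.cos x - Real.cos y)
        - (Real.cos (m * x) - Real.cos (m * y)))| ≤ 1 * (|x - y| + m * |x - y|) := by
    rw [abs_mul]
    refine mul_le_mul h4 ?_ (abs_nonneg _) (by norm_num)
    exact (abs_sub _ _).trans (add_le_add h1 h2)
  rw [e]
  calc _ ≤ |(Real.cos x - Real.cos y) - (Qf A B (Real.cos x) - Qf A B (Real.cos y))
        * (Real.cos x - Real.cos (m * x))| + _ := abs_sub _ _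
    _ ≤ (|Real.cos x - Real.cos y| + _) + _ := by gcongr; exact abs_sub _ _
    _ ≤ (|x - y| + K * |x - y| * 2) + 1 * (|x - y| + m * |x - y|) := by gcongr
    _ ≤ ((3 + 2 * K : NNReal) * m : NNReal) * |x - y| := by
        push_cast
        nlinarith [mul_nonneg (mul_nonneg hK0 ha) (sub_nonneg.mpr hm'),
          mul_nonneg ha (sub_nonneg.mpr hm')]

/-- Images of sets under Lipschitz maps of the line. -/
lemma vol_image {f : ℝ → ℝ} {K : NNReal} {s : Set ℝ} (h : LipschitzOnWith K f s) :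
    volume (f '' s) ≤ K * volume s := by
  have := h.hausdorffMeasure_image_le (d := 1) zero_le_one
  simpa [MeasureTheory.hausdorffMeasure_real] using this

/-- `t₀` is a point of density of the set of all `t` with `cos t ∈ N`. -/
def Dens (N : Set ℝ) (t₀ : ℝ) : Prop :=
  Tendsto (fun r => volume ((Real.cos ⁻¹' N)ᶜ ∩ closedBall t₀ r) / volume (closedBall t₀ r))
    (𝓝[>] 0) (𝓝 0)

lemma ae_dens {N : Set ℝ} (hN : MeasurableSet N) :
    ∀ᵐ t : ℝ, t ∈ Real.cos ⁻¹' N → Dens N t := by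
  have hm : MeasurableSet (Real.cos ⁻¹' N)ᶜ := (Real.measurable_cos hN).compl
  have := Besicovitch.ae_tendsto_measure_inter_div_of_measurableSet (volume : Measure ℝ) hm
  filter_upwards [this] with t ht h
  have h0 : (Real.cos ⁻¹' N)ᶜ.indicator (1 : ℝ → ENNReal) t = 0 := by
    rw [indicator_of_notMem]
    exact fun h1 => h1 h
  rw [h0] at ht
  exact ht

/-- The closure property. -/
def Mv (A B : ℝ) (N : Set ℝ) : Prop :=
  ∀ t : ℝ, 0 < Dl A B (Real.cos t) → Real.cos t ∈ N → ∀ k : ℕ,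
    Gm A B (2 * k + 1) t ∈ N

lemma null_Icc {A B t₀ u v : ℝ} {N : Set ℝ} (hA : A ^ 2 < 1) (h : 0 < Dl A B (Real.cos t₀))
    (hM : Mv A B N) (hd : Dens N t₀)
    (hu : (1 - Qf A B (Real.cos t₀)) * Real.cos t₀ - Qf A B (Real.cos t₀) < u)
    (hv : v < (1 - Qf A B (Real.cos t₀)) * Real.cos t₀ + Qf A B (Real.cos t₀)) :
    volume (Nᶜ ∩ Icc u v) = 0 := by
  obtain ⟨δ, hδ, C, hpos, hlip⟩ := lip_Gm hA h
  have hpi := Real.pi_pos
  -- the parameters
  let m : ℕ → ℝ := fun k => 2 * k + 1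
  have hm : ∀ k, 1 ≤ m k := fun k => by
    have : (0 : ℝ) ≤ k := Nat.cast_nonneg k
    simp only [m]
    linarith
  have hmt : Tendsto m atTop atTop :=
    tendsto_atTop_add_const_right _ _ (tendsto_natCast_atTop_atTop.const_mul_atTop two_pos)
  let r : ℕ → ℝ := fun k => 2 * Real.pi / m k
  have hr0 : ∀ k, 0 < r k := fun k => div_pos (by positivity) (by linarith [hm k])
  have hrt : Tendsto r atTop (𝓝 0) := hmt.const_div_atTop _
  have hrt' : Tendsto r atTop (𝓝[>] 0) :=
    tendsto_nhdsWithin_iff.mpr ⟨hrt, Eventually.of_forall hr0⟩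
  let j : ℕ → ℤ := fun k => ⌊m k * t₀ / (2 * Real.pi)⌋
  let a : ℕ → ℝ := fun k => 2 * Real.pi * j k / m k
  let b : ℕ → ℝ := fun k => (2 * Real.pi * j k + Real.pi) / m k
  have hj : ∀ k, m k * t₀ - 2 * Real.pi < 2 * Real.pi * j k ∧ 2 * Real.pi * j k ≤ m k * t₀ := by
    intro k
    have h1 := Int.floor_le (m k * t₀ / (2 * Real.pi))
    have h2 := Int.lt_floor_add_one (m k * t₀ / (2 * Real.pi))
    rw [div_lt_iff₀ (by positivity)] at h2
    rw [le_div_iff₀ (by positivity)] at h1
    constructor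
    · simp only [j]
      nlinarith
    · simp only [j]
      nlinarith
  have hab : ∀ k, a k ≤ b k := fun k => by
    simp only [a, b]
    have := hm k
    gcongr
    linarith
  have hsub : ∀ k, Icc (a k) (b k) ⊆ closedBall t₀ (r k) := by
    intro k x hx
    have h0 : 0 < m k := by linarith [hm k]
    rw [Real.closedBall_eq_Icc]
    have h1 := hj k
    constructor
    · refine le_trans ?_ hx.1
      simp only [a, r]
      rw [sub_le_iff_le_add, ← add_div, le_div_iff₀ h0]
      nlinarith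
    · refine hx.2.trans ?_
      simp only [b, r]
      rw [← sub_le_iff_le_add', sub_le_iff_le_add, div_le_iff₀ h0]
      have : (2 * Real.pi / m k + t₀) * m k = 2 * Real.pi + t₀ * m k := by
        field_simp
      rw [this]
      nlinarith
  have hat : Tendsto a atTop (𝓝 t₀) := by
    rw [tendsto_iff_dist_tendsto_zero]
    refine squeeze_zero (fun _ => dist_nonneg) (fun k => ?_) hrt
    exact hsub k (left_mem_Icc.mpr (hab k))
  have hbt : Tendsto b atTop (𝓝 t₀) := by
    rw [tendsto_iff_dist_tendsto_zero]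
    refine squeeze_zero (fun _ => dist_nonneg) (fun k => ?_) hrt
    exact hsub k (right_mem_Icc.mpr (hab k))
  have hQc : ContinuousAt (fun t => Qf A B (Real.cos t)) t₀ :=
    ContinuousAt.comp (f := Real.cos) (g := Qf A B) (continuousAt_Qf hA h)
      Real.continuous_cos.continuousAt
  have hGa : ∀ k, Gm A B (m k) (a k) = Real.cos (a k)
      - Qf A B (Real.cos (a k)) * (Real.cos (a k) - 1) := by
    intro k
    have h0 : m k ≠ 0 := by linarith [hm k]
    have : m k * a k = (j k : ℝ) * (2 * Real.pi) := by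
      simp only [a]
      field_simp
    unfold Gm
    rw [this, Real.cos_int_mul_two_pi]
  have hGb : ∀ k, Gm A B (m k) (b k) = Real.cos (b k)
      - Qf A B (Real.cos (b k)) * (Real.cos (b k) + 1) := by
    intro k
    have h0 : m k ≠ 0 := by linarith [hm k]
    have : m k * b k = (j k : ℝ) * (2 * Real.pi) + Real.pi := by
      simp only [b]
      field_simp
    unfold Gm
    rw [this, Real.cos_int_mul_two_pi_add_pi]
    ring
  have hca : Tendsto (fun k => Gm A B (m k) (a k)) atTop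
      (𝓝 ((1 - Qf A B (Real.cos t₀)) * Real.cos t₀ + Qf A B (Real.cos t₀))) := by
    have h1 : ContinuousAt (fun t => Real.cos t - Qf A B (Real.cos t) * (Real.cos t - 1)) t₀ :=
      Real.continuous_cos.continuousAt.sub
        (hQc.mul (Real.continuous_cos.continuousAt.sub continuousAt_const))
    have h2 := h1.tendsto.comp hat
    have e : (1 - Qf A B (Real.cos t₀)) * Real.cos t₀ + Qf A B (Real.cos t₀)
        = Real.cos t₀ - Qf A B (Real.cos t₀) * (Real.cos t₀ - 1) := by ring
    rw [e]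
    exact h2.congr fun k => (hGa k).symm
  have hcb : Tendsto (fun k => Gm A B (m k) (b k)) atTop
      (𝓝 ((1 - Qf A B (Real.cos t₀)) * Real.cos t₀ - Qf A B (Real.cos t₀))) := by
    have h1 : ContinuousAt (fun t => Real.cos t - Qf A B (Real.cos t) * (Real.cos t + 1)) t₀ :=
      Real.continuous_cos.continuousAt.sub
        (hQc.mul (Real.continuous_cos.continuousAt.add continuousAt_const))
    have h2 := h1.tendsto.comp hbt
    have e : (1 - Qf A B (Real.cos t₀)) * Real.cos t₀ - Qf A B (Real.cos t₀)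
        = Real.cos t₀ - Qf A B (Real.cos t₀) * (Real.cos t₀ + 1) := by ring
    rw [e]
    exact h2.congr fun k => (hGb k).symm
  have hev : ∀ᶠ k in atTop, volume (Nᶜ ∩ Icc u v) ≤ C * ENNReal.ofReal (4 * Real.pi) *
      (volume ((Real.cos ⁻¹' N)ᶜ ∩ closedBall t₀ (r k)) / volume (closedBall t₀ (r k))) := by
    filter_upwards [hca.eventually_const_lt hv, hcb.eventually_lt_const hu,
      hrt.eventually_lt_const hδ] with k h1 h2 h3
    have hbs : closedBall t₀ (r k) ⊆ closedBall t₀ δ := closedBall_subset_closedBall h3.le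
    have hMc : ((Real.toNNReal (m k) : NNReal) : ℝ) = m k :=
      Real.coe_toNNReal _ (by linarith [hm k])
    have hl' := hlip (Real.toNNReal (m k)) (by
      rw [← NNReal.coe_le_coe, hMc]
      exact hm k)
    rw [hMc] at hl'
    have hcont : ContinuousOn (Gm A B (m k)) (Icc (a k) (b k)) :=
      hl'.continuousOn.mono ((hsub k).trans hbs)
    have hsubset : Nᶜ ∩ Icc u v ⊆
        Gm A B (m k) '' ((Real.cos ⁻¹' N)ᶜ ∩ closedBall t₀ (r k)) := by
      intro y hy
      have hy' : y ∈ Icc (Gm A B (m k) (b k)) (Gm A B (m k) (a k)) :=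
        ⟨h2.le.trans hy.2.1, hy.2.2.trans h1.le⟩
      obtain ⟨x, hx, hxy⟩ := intermediate_value_Icc' (hab k) hcont hy'
      refine ⟨x, ⟨fun hxN => hy.1 ?_, hsub k hx⟩, hxy⟩
      rw [← hxy]
      exact hM x (hpos x (hbs (hsub k hx))) hxN k
    refine (measure_mono hsubset).trans
      ((vol_image (hl'.mono (inter_subset_right.trans hbs))).trans ?_)
    have hvb : volume (closedBall t₀ (r k)) = ENNReal.ofReal (2 * r k) := Real.volume_closedBall _ _
    have hne : ENNReal.ofReal (2 * r k) ≠ 0 := by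
      rw [Ne, ENNReal.ofReal_eq_zero, not_le]
      linarith [hr0 k]
    have hmr : ENNReal.ofReal (4 * Real.pi) = ENNReal.ofReal (m k) * ENNReal.ofReal (2 * r k) := by
      rw [← ENNReal.ofReal_mul (by linarith [hm k])]
      congr 1
      have h0 : m k ≠ 0 := by linarith [hm k]
      simp only [r]
      field_simp
      ring
    rw [hvb, hmr]
    have e1 : ((C * Real.toNNReal (m k) : NNReal) : ENNReal)
        = C * ENNReal.ofReal (m k) := by
      rw [ENNReal.coe_mul]
      rfl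
    rw [e1, mul_assoc, mul_assoc (C : ENNReal), mul_assoc (ENNReal.ofReal (m k)),
      ENNReal.mul_div_cancel hne ENNReal.ofReal_ne_top]
  have hlim : Tendsto (fun k => (C : ENNReal) * ENNReal.ofReal (4 * Real.pi) *
      (volume ((Real.cos ⁻¹' N)ᶜ ∩ closedBall t₀ (r k)) / volume (closedBall t₀ (r k))))
      atTop (𝓝 (C * ENNReal.ofReal (4 * Real.pi) * 0)) := by
    refine ENNReal.Tendsto.const_mul (hd.comp hrt') (Or.inr ?_)
    exact ENNReal.mul_ne_top ENNReal.coe_ne_top ENNReal.ofReal_ne_top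
  rw [mul_zero] at hlim
  exact nonpos_iff_eq_zero.mp (ge_of_tendsto hlim hev)

lemma local_zero_one {A B p : ℝ} {N : Set ℝ} (hA : A ^ 2 < 1) (hp : 0 < Dl A B p)
    (hN : MeasurableSet N) (hM : Mv A B N) :
    (∃ ε > 0, volume (N ∩ ball p ε) = 0) ∨ (∃ ε > 0, volume (Nᶜ ∩ ball p ε) = 0) := by
  by_cases h0 : ∃ ε > 0, volume (N ∩ ball p ε) = 0
  · exact Or.inl h0
  right
  push Not at h0
  have hp1 := one_sub_sq_pos hA hp
  have hQ := Qf_pos hA hp
  have hpl : -1 < p := by nlinarith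
  have hpr : p < 1 := by nlinarith
  have hlo : (1 - Qf A B p) * p - Qf A B p < p := by nlinarith
  have hhi : p < (1 - Qf A B p) * p + Qf A B p := by nlinarith
  obtain ⟨u, hu1, hu2⟩ := exists_between hlo
  obtain ⟨v, hv1, hv2⟩ := exists_between hhi
  have hQc := continuousAt_Qf hA hp
  have c1 : ContinuousAt (fun X => (1 - Qf A B X) * X - Qf A B X) p :=
    ((continuousAt_const.sub hQc).mul continuousAt_id).sub hQc
  have c2 : ContinuousAt (fun X => (1 - Qf A B X) * X + Qf A B X) p :=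
    ((continuousAt_const.sub hQc).mul continuousAt_id).add hQc
  have e1 := c1.eventually_lt_const hu1
  have e2 := c2.eventually_const_lt hv2
  have e3 : ∀ᶠ X in 𝓝 p, 0 < Dl A B X := (isOpen_Dl A B).mem_nhds hp
  obtain ⟨ε, hε, hb⟩ := Metric.eventually_nhds_iff_ball.mp (e1.and (e2.and e3))
  have hae := ae_dens hN
  have hex : ∃ t, Real.cos t ∈ N ∩ ball p ε ∧ Dens N t := by
    by_contra hne
    push Not at hne
    refine h0 ε hε ?_
    have hnull : volume (Real.cos ⁻¹' (N ∩ ball p ε)) = 0 := by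
      refine measure_mono_null ?_ hae
      intro t ht hd
      exact hne t ht (hd ht.1)
    have hsub : N ∩ ball p ε ⊆ Real.cos '' (Real.cos ⁻¹' (N ∩ ball p ε)) := by
      intro X hX
      have h1 := (hb X hX.2).2.2
      have h2 := one_sub_sq_pos hA h1
      have h3 : Real.cos (Real.arccos X) = X :=
        Real.cos_arccos (by nlinarith) (by nlinarith)
      refine ⟨Real.arccos X, ?_, h3⟩
      rw [mem_preimage, h3]
      exact hX
    refine measure_mono_null hsub ?_
    have h4 := vol_image (f := Real.cos) (K := 1) (s := Real.cos ⁻¹' (N ∩ ball p ε))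
      (Real.lipschitzWith_cos.lipschitzOnWith)
    rw [hnull, mul_zero] at h4
    exact nonpos_iff_eq_zero.mp h4
  obtain ⟨t, ht, hd⟩ := hex
  obtain ⟨g1, g2, g3⟩ := hb _ ht.2
  have hz := null_Icc hA g3 hM hd g1 g2
  refine ⟨min (p - u) (v - p), lt_min (by linarith) (by linarith), ?_⟩
  refine measure_mono_null ?_ hz
  rintro X ⟨hX1, hX2⟩
  rw [Real.ball_eq_Ioo] at hX2
  refine ⟨hX1, ?_, ?_⟩
  · have := min_le_left (p - u) (v - p)
    linarith [hX2.1]
  · have := min_le_right (p - u) (v - p)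
    linarith [hX2.2]

lemma isOpen_nullnear (N : Set ℝ) : IsOpen {p : ℝ | ∃ ε > 0, volume (N ∩ ball p ε) = 0} := by
  rw [Metric.isOpen_iff]
  rintro p ⟨ε, hε, h⟩
  refine ⟨ε, hε, fun p' hp' => ⟨ε - dist p' p, by simpa using hp', ?_⟩⟩
  refine measure_mono_null (inter_subset_inter_right _ ?_) h
  exact ball_subset (by simp)

lemma null_of_nullnear {N I : Set ℝ} (h : I ⊆ {p : ℝ | ∃ ε > 0, volume (N ∩ ball p ε) = 0}) :
    volume (N ∩ I) = 0 := by
  refine measure_null_of_locally_null _ ?_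
  intro x hx
  obtain ⟨ε, hε, h1⟩ := h hx.2
  refine ⟨N ∩ I ∩ ball x ε, inter_mem self_mem_nhdsWithin
    (mem_nhdsWithin_of_mem_nhds (ball_mem_nhds x hε)), ?_⟩
  refine measure_mono_null ?_ h1
  exact fun y hy => ⟨hy.1.1, hy.2⟩

/-- The zero-one law on the interval `0 < Dl A B X`. -/
theorem zero_one_interval {A B : ℝ} {N : Set ℝ} (hA : A ^ 2 < 1)
    (hN : MeasurableSet N) (hM : Mv A B N) :
    volume (N ∩ {X | 0 < Dl A B X}) = 0 ∨ volume (Nᶜ ∩ {X | 0 < Dl A B X}) = 0 := by
  have hdis : Disjoint {p : ℝ | ∃ ε > 0, volume (N ∩ ball p ε) = 0}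
      {p : ℝ | ∃ ε > 0, volume (Nᶜ ∩ ball p ε) = 0} := by
    rw [Set.disjoint_left]
    rintro p ⟨ε, hε, h1⟩ ⟨ε', hε', h2⟩
    have h3 : volume (ball p (min ε ε')) = 0 := by
      have : ball p (min ε ε') ⊆ (N ∩ ball p ε) ∪ (Nᶜ ∩ ball p ε') := by
        intro x hx
        by_cases hxN : x ∈ N
        · exact Or.inl ⟨hxN, ball_subset_ball (min_le_left _ _) hx⟩
        · exact Or.inr ⟨hxN, ball_subset_ball (min_le_right _ _) hx⟩
      exact measure_mono_null this (measure_union_null h1 h2)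
    exact (measure_ball_pos volume p (lt_min hε hε')).ne' h3
  have hcov : {X | 0 < Dl A B X} ⊆ {p : ℝ | ∃ ε > 0, volume (N ∩ ball p ε) = 0} ∪
      {p : ℝ | ∃ ε > 0, volume (Nᶜ ∩ ball p ε) = 0} :=
    fun p hp => local_zero_one hA hp hN hM
  rcases (convex_Dl A B).isPreconnected.subset_or_subset (isOpen_nullnear N)
    (isOpen_nullnear Nᶜ) hdis hcov with h | h
  · exact Or.inl (null_of_nullnear h)
  · exact Or.inr (null_of_nullnear h)

end Pool.Agent.MP_2915c1_al
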