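import Pool.Agent.Lib.MP_2915c1_al.Surj

set_option autoImplicit false

/-!
The Haar measure of `SO(3)` as the image of Lebesgue measure on the unit ball of quaternions.
-/

namespace Pool.Agent.MP_2915c1_al

open MeasureTheory Quaternion Set Filter Matrix

instance SO3.instSecondCountable : SecondCountableTopology SO3 := by
  have h1 : SecondCountableTopology (Matrix (Fin 3) (Fin 3) ℝ) :=
    inferInstanceAs (SecondCountableTopology (Fin 3 → Fin 3 → ℝ))
  exact TopologicalSpace.Subtype.secondCountableTopology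
    {A : Matrix (Fin 3) (Fin 3) ℝ | A ∈ Matrix.specialOrthogonalGroup (Fin 3) ℝ}

instance SO3.instT2 : T2Space SO3 := by
  have h1 : T2Space (Matrix (Fin 3) (Fin 3) ℝ) :=
    inferInstanceAs (T2Space (Fin 3 → Fin 3 → ℝ))
  exact inferInstanceAs (T2Space
    {A : Matrix (Fin 3) (Fin 3) ℝ // A ∈ Matrix.specialOrthogonalGroup (Fin 3) ℝ})

instance haar_isHaar : Measure.IsHaarMeasure haar := by
  unfold haar
  infer_instance

instance haar_prob : IsProbabilityMeasure haar := by
  refine ⟨?_⟩
  have := Measure.haarMeasure_self (K₀ := (⊤ : TopologicalSpace.PositiveCompacts SO3))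
  unfold haar
  simpa using this

/-- The rotation with given quaternion coordinates. -/
noncomputable def rq (v : V) : SO3 := rot (q v)

lemma continuous_rotM : Continuous (fun v : V => rotM (q v)) := by
  refine continuous_matrix ?_
  intro i j
  fin_cases i <;> fin_cases j <;> simp [rotM, q] <;> fun_prop

lemma continuous_normSq_q : Continuous (fun v : V => normSq (q v)) := by
  simp only [normSq_eq, q]
  fun_prop

lemma continuousOn_rq : ContinuousOn rq {v | v ≠ 0} := by
  rw [Topology.IsInducing.subtypeVal.continuousOn_iff]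
  have h : ContinuousOn (fun v : V => (normSq (q v))⁻¹ • rotM (q v)) {v | v ≠ 0} := by
    have h1 : ContinuousOn (fun v : V => (normSq (q v))⁻¹) {v | v ≠ 0} := by
      refine ContinuousOn.inv₀ continuous_normSq_q.continuousOn ?_
      intro v hv
      exact normSq_ne_zero.mpr (q_ne_zero hv)
    exact h1.smul continuous_rotM.continuousOn
  refine h.congr ?_
  intro v hv
  exact rot_val (q_ne_zero hv)

lemma measurable_rq : Measurable rq := by
  refine measurable_of_isOpen ?_
  intro U hU
  have h1 : IsOpen ({v : V | v ≠ 0} ∩ rq ⁻¹' U) :=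
    continuousOn_rq.isOpen_inter_preimage isOpen_ne hU
  have h2 : rq ⁻¹' U = ({v : V | v ≠ 0} ∩ rq ⁻¹' U) ∪ ({0} ∩ rq ⁻¹' U) := by
    ext v
    by_cases hv : v = 0
    · simp [hv]
    · simp [hv]
  rw [h2]
  refine h1.measurableSet.union ?_
  by_cases h0 : (0 : V) ∈ rq ⁻¹' U
  · rw [inter_eq_left.mpr (singleton_subset_iff.mpr h0)]
    exact measurableSet_singleton 0
  · rw [(singleton_inter_eq_empty).mpr h0]
    exact MeasurableSet.empty

/-- The unit ball. -/
def ball4 : Set V := {v | normSq (q v) ≤ 1}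

lemma measurableSet_ball4 : MeasurableSet ball4 :=
  (isClosed_le continuous_normSq_q continuous_const).measurableSet

lemma ball4_pos : 0 < volume ball4 := by
  have h1 : IsOpen {v : V | normSq (q v) < 1} := isOpen_lt continuous_normSq_q continuous_const
  have h2 : 0 < volume {v : V | normSq (q v) < 1} := by
    refine h1.measure_pos volume ⟨0, ?_⟩
    have : q 0 = 0 := qe.map_zero
    simp [this]
  refine h2.trans_le (measure_mono ?_)
  intro v hv
  have hv' : normSq (q v) < 1 := hv
  exact hv'.le

lemma ball4_lt_top : volume ball4 < ⊤ := by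
  have hK : IsCompact (Set.Icc (-1 : ℝ) 1 ×ˢ (Set.Icc (-1 : ℝ) 1 ×ˢ
      (Set.Icc (-1 : ℝ) 1 ×ˢ Set.Icc (-1 : ℝ) 1))) :=
    isCompact_Icc.prod (isCompact_Icc.prod (isCompact_Icc.prod isCompact_Icc))
  refine lt_of_le_of_lt (measure_mono ?_) hK.measure_lt_top
  rintro ⟨x, y, z, w⟩ h
  have h' : x ^ 2 + y ^ 2 + z ^ 2 + w ^ 2 ≤ 1 := by
    have := h
    simp only [ball4, Set.mem_ofPred_eq, normSq_eq, q] at this
    exact this
  have key : ∀ t : ℝ, t * t ≤ 1 → t ∈ Set.Icc (-1 : ℝ) 1 := fun t ht =>
    abs_le.mp (abs_le_one_iff_mul_self_le_one.mpr ht)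
  have hx := sq_nonneg x
  have hy := sq_nonneg y
  have hz := sq_nonneg z
  have hw := sq_nonneg w
  exact ⟨key x (by nlinarith), key y (by nlinarith), key z (by nlinarith), key w (by nlinarith)⟩

/-- Left multiplication by a nonzero quaternion, in coordinates. -/
noncomputable def mulLe (a : ℍ[ℝ]) (ha : a ≠ 0) : V ≃ₗ[ℝ] V where
  toFun v := qi (a * q v)
  invFun v := qi (a⁻¹ * q v)
  left_inv v := by
    simp [← mul_assoc, inv_mul_cancel₀ ha]
  right_inv v := by
    simp [← mul_assoc, mul_inv_cancel₀ ha]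
  map_add' v w := by
    have : ∀ x y : ℍ[ℝ], qi (x + y) = qi x + qi y := fun x y => by simp [qi]
    rw [q_add, mul_add, this]
  map_smul' r v := by
    have : ∀ x : ℍ[ℝ], qi (r • x) = r • qi x := fun x => by simp [qi]
    rw [q_smul, mul_smul_comm, this]
    rfl

lemma mp_mulL (a : ℍ[ℝ]) (ha : normSq a = 1) :
    MeasurePreserving (fun v : V => qi (a * q v)) (volume.restrict ball4)
      (volume.restrict ball4) := by
  have ha0 : a ≠ 0 := by
    intro h0
    rw [h0, map_zero] at ha
    exact zero_ne_one ha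
  have hpre : (fun v : V => qi (a * q v)) ⁻¹' ball4 = ball4 := by
    ext v
    simp [ball4, ha]
  have hmeas : Measurable (fun v : V => qi (a * q v)) :=
    (continuous_qi.comp (continuous_const.mul continuous_q)).measurable
  have hdet : LinearMap.det (mulLe a ha0 : V →ₗ[ℝ] V) ≠ 0 :=
    (LinearEquiv.isUnit_det' (mulLe a ha0)).ne_zero
  have h1 := Measure.map_linearMap_addHaar_eq_smul_addHaar (volume : Measure V) hdet
  have hcoe : ((mulLe a ha0 : V →ₗ[ℝ] V) : V → V) = (fun v : V => qi (a * q v)) := rfl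
  rw [hcoe] at h1
  have h2 : volume.map (fun v : V => qi (a * q v)) ball4 = volume ball4 := by
    rw [Measure.map_apply hmeas measurableSet_ball4, hpre]
  have h3 : ENNReal.ofReal |(LinearMap.det (mulLe a ha0 : V →ₗ[ℝ] V))⁻¹| = 1 := by
    rw [h1, Measure.smul_apply, smul_eq_mul] at h2
    exact (ENNReal.mul_eq_right ball4_pos.ne' ball4_lt_top.ne).mp h2
  rw [h3, one_smul] at h1
  have h4 : MeasurePreserving (fun v : V => qi (a * q v)) volume volume := ⟨hmeas, h1⟩
  have h5 := h4.restrict_preimage measurableSet_ball4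
  rwa [hpre] at h5

/-- Normalised Lebesgue measure on the unit ball. -/
noncomputable def rho : Measure V := (volume ball4)⁻¹ • volume.restrict ball4

instance rho_prob : IsProbabilityMeasure rho := by
  refine ⟨?_⟩
  simp only [rho, Measure.smul_apply, Measure.restrict_apply_univ, smul_eq_mul]
  exact ENNReal.inv_mul_cancel ball4_pos.ne' ball4_lt_top.ne

lemma rho_ac : rho ≪ volume :=
  (Measure.absolutelyContinuous_of_le Measure.restrict_le_self).smul_left _

lemma rq_mulL (a : ℍ[ℝ]) (ha : a ≠ 0) (v : V) (hv : q v ≠ 0) :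
    rq (qi (a * q v)) = rot a * rq v := by
  unfold rq
  rw [q_qi, rot_mul ha hv]

lemma exists_unit (g : SO3) : ∃ a : ℍ[ℝ], normSq a = 1 ∧ rot a = g := by
  obtain ⟨a, ha, h⟩ := rot_surj g
  have hn : 0 < normSq a := lt_of_le_of_ne normSq_nonneg (normSq_ne_zero.mpr ha).symm
  refine ⟨(Real.sqrt (normSq a))⁻¹ • a, ?_, ?_⟩
  · rw [Quaternion.normSq_smul, inv_pow, Real.sq_sqrt hn.le, inv_mul_cancel₀ hn.ne']
  · rw [rot_smul _ (inv_ne_zero (Real.sqrt_pos.mpr hn).ne'), h]

instance map_rho_inv : (rho.map rq).IsMulLeftInvariant := by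
  refine ⟨fun g => ?_⟩
  obtain ⟨a, ha, rfl⟩ := exists_unit g
  have ha0 : a ≠ 0 := by
    intro h0
    rw [h0, map_zero] at ha
    exact zero_ne_one ha
  have hmg : Measurable (fun x : SO3 => rot a * x) := (continuous_const_mul _).measurable
  have h1 := (mp_mulL a ha).map_eq
  have h2 : rho.map (fun v : V => qi (a * q v)) = rho := by
    unfold rho
    rw [Measure.map_smul, h1]
  have hmeas : Measurable (fun v : V => qi (a * q v)) :=
    (continuous_qi.comp (continuous_const.mul continuous_q)).measurable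
  rw [Measure.map_map hmg measurable_rq]
  conv_rhs => rw [← h2]
  rw [Measure.map_map measurable_rq hmeas]
  refine Measure.map_congr ?_
  have h0 : ∀ᵐ v : V ∂rho, q v ≠ 0 := rho_ac.ae_le ae_V_ne_zero
  filter_upwards [h0] with v hv
  exact (rq_mulL a ha0 v hv).symm

lemma haar_eq : haar = rho.map rq := by
  have : IsProbabilityMeasure (rho.map rq) :=
    Measure.isProbabilityMeasure_map measurable_rq.aemeasurable
  have h := Measure.haarMeasure_unique (rho.map rq) (⊤ : TopologicalSpace.PositiveCompacts SO3)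
  rw [h]
  unfold haar
  simp

/-- Transfer of almost sure properties from quaternions to rotations. -/
lemma ae_pair_of_quat {P : SO3 × SO3 → Prop} (hP : MeasurableSet {p | P p})
    (h : ∀ᵐ p : V × V, P (rq p.1, rq p.2)) : ∀ᵐ p ∂(haar.prod haar), P p := by
  rw [haar_eq, Measure.map_prod_map _ _ measurable_rq measurable_rq,
    ae_map_iff (measurable_rq.prodMap measurable_rq).aemeasurable hP]
  have hac : rho.prod rho ≪ (volume : Measure (V × V)) := by
    rw [Measure.volume_eq_prod]
    exact rho_ac.prod rho_ac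
  exact hac.ae_le h

end Pool.Agent.MP_2915c1_al
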