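import Pool.Agent.Lib.MP_2915c1_al.Pairs
import Pool.Agent.Lib.MP_2915c1_al.HaarQuat
import Pool.Agent.Lib.MP_2915c1_al.ConjOne

set_option autoImplicit false

/-!
Pairs of rotations up to simultaneous conjugation; conjugating the second rotation by a power of
the product.
-/

namespace Pool.Agent.MP_2915c1_al

open MeasureTheory Quaternion Set Filter Matrix

lemma dis_conj (h s : SO3) (f : H) : dis (h * s * h⁻¹) f = dis s (tr h f) := by
  unfold dis
  have e : tr s (tr h f) - tr h f = tr h (tr (h * s * h⁻¹) f - f) := by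
    rw [tr_sub, ← tr_mul, ← tr_mul]
    congr 2
    group
  rw [e, norm_tr]

lemma mean0_tr (h : SO3) (f : H) (hf : mean0 f) : mean0 (tr h f) := by
  have hm : MemLp (f : SO3 → ℂ) 2 haar := Lp.memLp f
  have h1 := tr_toLp_ae h (f : SO3 → ℂ) hm
  rw [Lp.toLp_coeFn] at h1
  unfold mean0 at hf ⊢
  rw [integral_congr_ae h1, integral_mul_left_eq_self (f : SO3 → ℂ) h, hf]

lemma gap_conj {a b : SO3} (h : SO3) (hg : HasSpectralGap (pairSet a b)) :
    HasSpectralGap (pairSet (h * a * h⁻¹) (h * b * h⁻¹)) := by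
  have h1 := (gap_pair_iff (a, b)).mp hg
  refine (gap_pair_iff (h * a * h⁻¹, h * b * h⁻¹)).mpr ?_
  obtain ⟨n, hn⟩ := h1
  refine ⟨n, fun f hf => ?_⟩
  have h2 := hn (tr h f) (mean0_tr h f hf)
  rw [norm_tr] at h2
  refine h2.trans (le_of_eq ?_)
  congr 1
  refine Finset.sum_congr rfl fun i _ => ?_
  cases i
  · exact (dis_conj h b f).symm
  · exact (dis_conj h a f).symm

lemma gap_conj_iff (a b h : SO3) : HasSpectralGap (pairSet (h * a * h⁻¹) (h * b * h⁻¹)) ↔
    HasSpectralGap (pairSet a b) := by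
  refine ⟨fun hg => ?_, gap_conj h⟩
  have := gap_conj h⁻¹ hg
  have e1 : h⁻¹ * (h * a * h⁻¹) * h⁻¹⁻¹ = a := by group
  have e2 : h⁻¹ * (h * b * h⁻¹) * h⁻¹⁻¹ = b := by group
  rwa [e1, e2] at this

/-- The gap property in terms of quaternions. -/
def Pq (a b : ℍ[ℝ]) : Prop := HasSpectralGap (pairSet (rot a) (rot b))

lemma rot_conj {a r : ℍ[ℝ]} (ha : a ≠ 0) (hr : r ≠ 0) :
    rot (r * a * r⁻¹) = rot r * rot a * (rot r)⁻¹ := by
  rw [rot_mul (mul_ne_zero hr ha) (inv_ne_zero hr), rot_mul hr ha, rot_inv hr]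

lemma Pq_conj {a b r a' b' : ℍ[ℝ]} (ha : a ≠ 0) (hb : b ≠ 0) (hr : r ≠ 0)
    (h1 : r * a = a' * r) (h2 : r * b = b' * r) : Pq a b ↔ Pq a' b' := by
  have e1 : a' = r * a * r⁻¹ := by
    rw [h1, mul_assoc, mul_inv_cancel₀ hr, mul_one]
  have e2 : b' = r * b * r⁻¹ := by
    rw [h2, mul_assoc, mul_inv_cancel₀ hr, mul_one]
  unfold Pq
  rw [e1, e2, rot_conj ha hr, rot_conj hb hr, gap_conj_iff]

lemma ne_zero_of_unit {a : ℍ[ℝ]} (ha : normSq a = 1) : a ≠ 0 := by
  intro h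
  rw [h, map_zero] at ha
  exact zero_ne_one ha

/-- The quaternion with given coordinates. -/
def mkq (w x y z : ℝ) : ℍ[ℝ] := ⟨w, x, y, z⟩

@[simp] lemma mkq_re (w x y z : ℝ) : (mkq w x y z).re = w := rfl
@[simp] lemma mkq_imI (w x y z : ℝ) : (mkq w x y z).imI = x := rfl
@[simp] lemma mkq_imJ (w x y z : ℝ) : (mkq w x y z).imJ = y := rfl
@[simp] lemma mkq_imK (w x y z : ℝ) : (mkq w x y z).imK = z := rfl

/-- The first normal form. -/
noncomputable def nfa (A : ℝ) : ℍ[ℝ] := mkq A (Real.sqrt (1 - A ^ 2)) 0 0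

/-- The second normal form. -/
noncomputable def nfb (A B X : ℝ) : ℍ[ℝ] :=
  mkq B ((A * B - X) / Real.sqrt (1 - A ^ 2))
    (Real.sqrt (1 - B ^ 2 - ((A * B - X) / Real.sqrt (1 - A ^ 2)) ^ 2)) 0

lemma nf_step1 (a : ℍ[ℝ]) (ha : normSq a = 1) (hA : a.re ^ 2 < 1) :
    ∃ r : ℍ[ℝ], r ≠ 0 ∧ r * a = nfa a.re * r := by
  rw [normSq_eq] at ha
  have hl : 0 < Real.sqrt (1 - a.re ^ 2) := Real.sqrt_pos.mpr (by linarith)
  have hl2 : Real.sqrt (1 - a.re ^ 2) ^ 2 = 1 - a.re ^ 2 := Real.sq_sqrt (by linarith)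
  unfold nfa
  set l := Real.sqrt (1 - a.re ^ 2) with hldef
  by_cases h : mkq 0 (l + a.imI) a.imJ a.imK = 0
  · refine ⟨mkq 0 0 1 0, ?_, ?_⟩
    · intro h0
      have := congrArg QuaternionAlgebra.imJ h0
      simp at this
    · have h1 := congrArg QuaternionAlgebra.imI h
      have h2 := congrArg QuaternionAlgebra.imJ h
      have h3 := congrArg QuaternionAlgebra.imK h
      simp at h1 h2 h3
      ext <;> simp [h2, h3]
      linarith
  · refine ⟨mkq 0 (l + a.imI) a.imJ a.imK, h, ?_⟩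
    ext <;> simp <;> nlinarith

lemma nf_step2 (c : ℍ[ℝ]) : ∃ s : ℍ[ℝ], s ≠ 0 ∧ s.imJ = 0 ∧ s.imK = 0 ∧
    s * c = mkq c.re c.imI (Real.sqrt (c.imJ ^ 2 + c.imK ^ 2)) 0 * s := by
  have hl2 : Real.sqrt (c.imJ ^ 2 + c.imK ^ 2) ^ 2 = c.imJ ^ 2 + c.imK ^ 2 :=
    Real.sq_sqrt (by positivity)
  set l := Real.sqrt (c.imJ ^ 2 + c.imK ^ 2)
  by_cases h : mkq (l + c.imJ) (-c.imK) 0 0 = 0
  · refine ⟨mkq 0 1 0 0, ?_, rfl, rfl, ?_⟩
    · intro h0
      have := congrArg QuaternionAlgebra.imI h0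
      simp at this
    · have h1 := congrArg QuaternionAlgebra.re h
      have h2 := congrArg QuaternionAlgebra.imI h
      simp at h1 h2
      ext <;> simp [h2]
      linarith
  · refine ⟨mkq (l + c.imJ) (-c.imK) 0 0, h, rfl, rfl, ?_⟩
    ext <;> simp <;> nlinarith

lemma re_conj {r a a' : ℍ[ℝ]} (hr : r ≠ 0) (h : r * a = a' * r) : a.re = a'.re := by
  have hn : normSq r ≠ 0 := normSq_ne_zero.mpr hr
  have h1 : (star r * (r * a)).re = (star r * (a' * r)).re := by rw [h]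
  rw [normSq_eq] at hn
  simp at h1
  have h2 : (r.re ^ 2 + r.imI ^ 2 + r.imJ ^ 2 + r.imK ^ 2) * (a.re - a'.re) = 0 := by
    linarith
  rcases mul_eq_zero.mp h2 with h3 | h3
  · exact absurd h3 hn
  · linarith

lemma normSq_conj {r a a' : ℍ[ℝ]} (hr : r ≠ 0) (h : r * a = a' * r) : normSq a = normSq a' := by
  have hn : normSq r ≠ 0 := normSq_ne_zero.mpr hr
  have h1 := congrArg normSq h
  rw [map_mul, map_mul, mul_comm] at h1
  exact mul_right_cancel₀ hn h1

/-- The gap property depends only on the three half traces. -/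
lemma Pq_nf (a b : ℍ[ℝ]) (ha : normSq a = 1) (hb : normSq b = 1) (hA : a.re ^ 2 < 1) :
    Pq a b ↔ Pq (nfa a.re) (nfb a.re b.re (a * b).re) := by
  obtain ⟨r, hr, h1⟩ := nf_step1 a ha hA
  have ha0 := ne_zero_of_unit ha
  have hb0 := ne_zero_of_unit hb
  have hl : 0 < Real.sqrt (1 - a.re ^ 2) := Real.sqrt_pos.mpr (by linarith)
  have hl2 : Real.sqrt (1 - a.re ^ 2) ^ 2 = 1 - a.re ^ 2 := Real.sq_sqrt (by linarith)
  have h2 : r * b = (r * b * r⁻¹) * r := by
    rw [mul_assoc, mul_assoc, inv_mul_cancel₀ hr, mul_one]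
  have h3 : r * (a * b) = (nfa a.re * (r * b * r⁻¹)) * r := by
    rw [← mul_assoc, h1, mul_assoc, mul_assoc, ← h2]
  rw [Pq_conj ha0 hb0 hr h1 h2]
  have e1 := re_conj hr h2
  have e2 := re_conj hr h3
  have e3 := normSq_conj hr h2
  rw [hb] at e3
  rw [e1, e2]
  generalize r * b * r⁻¹ = c at e3
  obtain ⟨s, hs, hs1, hs2, h4⟩ := nf_step2 c
  have hx : (a.re * c.re - (nfa a.re * c).re) / Real.sqrt (1 - a.re ^ 2) = c.imI := by
    unfold nfa
    simp
    field_simp
  have hyz : 1 - c.re ^ 2 - c.imI ^ 2 = c.imJ ^ 2 + c.imK ^ 2 := by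
    rw [normSq_eq] at e3
    linarith
  have h5 : nfb a.re c.re (nfa a.re * c).re =
      mkq c.re c.imI (Real.sqrt (c.imJ ^ 2 + c.imK ^ 2)) 0 := by
    unfold nfb
    rw [hx, hyz]
  have hc0 : c ≠ 0 := ne_zero_of_unit e3.symm
  have hna : nfa a.re ≠ 0 := by
    intro h0
    have := congrArg QuaternionAlgebra.imI h0
    simp [nfa] at this
    linarith
  rw [h5]
  refine Pq_conj hna hc0 hs ?_ h4
  unfold nfa
  ext <;> simp [hs1, hs2] <;> ring

lemma circ_mul (v : ℍ[ℝ]) (hv : v * v = -1) (s t : ℝ) :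
    circ v s * circ v t = circ v (s + t) := by
  unfold circ
  rw [Real.cos_add, Real.sin_add]
  have h2 : ∀ x : ℝ, (x : ℍ[ℝ]) = x • (1 : ℍ[ℝ]) := by
    intro x
    ext <;> simp
  rw [h2 (Real.cos s), h2 (Real.cos t), h2 (Real.cos s * Real.cos t - Real.sin s * Real.sin t)]
  simp only [mul_add, add_mul, smul_mul_assoc, mul_smul_comm, one_mul, mul_one, hv, smul_neg]
  module

lemma circ_zero (v : ℍ[ℝ]) : circ v 0 = 1 := by
  unfold circ
  simp

lemma circ_pow (v : ℍ[ℝ]) (hv : v * v = -1) (t : ℝ) (k : ℕ) :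
    circ v t ^ k = circ v (k * t) := by
  induction k with
  | zero => simp [circ_zero]
  | succ k ih =>
    rw [pow_succ, ih, circ_mul v hv]
    congr 1
    push_cast
    ring

lemma circ_inv (v : ℍ[ℝ]) (hv : v * v = -1) (t : ℝ) : (circ v t)⁻¹ = circ v (-t) := by
  refine inv_eq_of_mul_eq_one_right ?_
  rw [circ_mul v hv, add_neg_cancel, circ_zero]

lemma re_sandwich (a n : ℍ[ℝ]) (C S C' S' : ℝ) (hn : n.re = 0) (ha : normSq a = 1) :
    (a * ((C : ℍ[ℝ]) + S • n) * star a * ((C' : ℍ[ℝ]) + S' • n)).re =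
      C * C' + S * S' * (a * n * star a * n).re := by
  rw [normSq_eq] at ha
  simp [hn]
  linear_combination (C * C') * ha

lemma star_mul_unit {a : ℍ[ℝ]} (ha : normSq a = 1) : star a * a = 1 := by
  rw [Quaternion.star_mul_self, ha]
  rfl

lemma mul_star_unit {a : ℍ[ℝ]} (ha : normSq a = 1) : a * star a = 1 := by
  rw [Quaternion.self_mul_star, ha]
  rfl

lemma sq_unit {a : ℍ[ℝ]} (ha : normSq a = 1) : a * a = (2 * a.re) • a - 1 := by
  have h := mul_star_unit ha
  rw [Quaternion.star_eq_two_re_sub, mul_sub] at h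
  rw [Quaternion.mul_coe_eq_smul] at h
  rw [← h]
  abel

lemma re_aabb (a b : ℍ[ℝ]) (ha : normSq a = 1) (hb : normSq b = 1) :
    (a * a * (b * b)).re = 4 * a.re * b.re * (a * b).re - 2 * a.re ^ 2 - 2 * b.re ^ 2 + 1 := by
  rw [sq_unit ha, sq_unit hb]
  have : ((2 * a.re) • a - 1) * ((2 * b.re) • b - 1) =
      (4 * a.re * b.re) • (a * b) - (2 * a.re) • a - (2 * b.re) • b + 1 := by
    simp only [mul_sub, sub_mul, smul_mul_assoc, mul_smul_comm, one_mul, mul_one]
    module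
  rw [this]
  simp only [Quaternion.re_add, Quaternion.re_sub, Quaternion.re_smul, smul_eq_mul,
    Quaternion.re_one]
  ring

lemma re_anan (a b : ℍ[ℝ]) (ha : normSq a = 1) (hb : normSq b = 1) (X : ℝ)
    (hX : (a * b).re = X) :
    (a * (a * b - (X : ℍ[ℝ])) * star a * (a * b - (X : ℍ[ℝ]))).re =
      4 * a.re * b.re * X - 2 * a.re ^ 2 - 2 * b.re ^ 2 + 1 - X ^ 2 := by
  have h2 : (X : ℍ[ℝ]) = X • (1 : ℍ[ℝ]) := by
    ext <;> simp
  have h3 : star a * (a * b) = b := by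
    rw [← mul_assoc, star_mul_unit ha, one_mul]
  have e : a * (a * b - (X : ℍ[ℝ])) * star a * (a * b - (X : ℍ[ℝ])) =
      a * a * (b * b) - X • (a * (a * b) * star a) - X • (a * b) + (X * X) • (1 : ℍ[ℝ]) := by
    rw [h2]
    have e1 : a * (a * b) * star a * (a * b) = a * a * (b * b) := by
      rw [mul_assoc (a * (a * b)), h3]
      simp only [mul_assoc]
    simp only [mul_sub, sub_mul, smul_mul_assoc, mul_smul_comm, mul_one, one_mul, e1,
      mul_star_unit ha, smul_sub, smul_smul]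
    abel
  have h4 : (a * (a * b) * star a).re = X := by
    have hc : a * (a * b) = (a * (a * b) * star a) * a := by
      rw [mul_assoc (a * (a * b)), star_mul_unit ha, mul_one]
    rw [← re_conj (ne_zero_of_unit ha) hc, hX]
  rw [e]
  simp only [Quaternion.re_add, Quaternion.re_sub, Quaternion.re_smul, smul_eq_mul,
    Quaternion.re_one, h4, hX, re_aabb a b ha hb]
  ring

/-- The half trace after conjugating the second element by a power of the product. -/
lemma move_trace (a b : ℍ[ℝ]) (ha : normSq a = 1) (hb : normSq b = 1) (hA : a.re ^ 2 < 1)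
    (t : ℝ) (ht : (a * b).re = Real.cos t) (hD : 0 < Dl a.re b.re (Real.cos t)) (k : ℕ) :
    (a * ((a * b) ^ (k + 1) * b * ((a * b) ^ (k + 1))⁻¹)).re = Gm a.re b.re (2 * k + 1) t := by
  have hs2 : 0 < 1 - Real.cos t ^ 2 := one_sub_sq_pos hA hD
  have hs : Real.sin t ^ 2 = 1 - Real.cos t ^ 2 := Real.sin_sq t
  have hs0 : Real.sin t ≠ 0 := by
    intro h0
    rw [h0] at hs
    nlinarith
  have hx : normSq (a * b) = 1 := by rw [map_mul, ha, hb, one_mul]
  set n : ℍ[ℝ] := (Real.sin t)⁻¹ • (a * b - (Real.cos t : ℍ[ℝ])) with hn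
  have hn0 : n.re = 0 := by
    rw [hn, Quaternion.re_smul, Quaternion.re_sub, ht]
    simp
  have hcx : circ n t = a * b := by
    unfold circ
    rw [hn, smul_smul, mul_inv_cancel₀ hs0, one_smul]
    abel
  have h2 : ∀ x : ℝ, (x : ℍ[ℝ]) = x • (1 : ℍ[ℝ]) := by
    intro x
    ext <;> simp
  have hnn : n * n = -1 := by
    have e1 : (a * b - (Real.cos t : ℍ[ℝ])) * (a * b - (Real.cos t : ℍ[ℝ])) =
        (-(Real.sin t ^ 2)) • (1 : ℍ[ℝ]) := by
      rw [h2, hs]
      simp only [mul_sub, sub_mul, smul_mul_assoc, mul_smul_comm, mul_one, one_mul]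
      rw [sq_unit hx, ht]
      module
    rw [hn, smul_mul_assoc, mul_smul_comm, e1, smul_smul, smul_smul]
    have : (Real.sin t)⁻¹ * (Real.sin t)⁻¹ * -(Real.sin t ^ 2) = -1 := by
      field_simp
    rw [this]
    simp
  have hw : (a * b) ^ (k + 1) = circ n ((k + 1) * t) := by
    rw [← hcx, circ_pow n hnn]
    push_cast
    rfl
  have hwi : ((a * b) ^ (k + 1))⁻¹ = circ n (-((k + 1) * t)) := by
    rw [hw, circ_inv n hnn]
  have hb' : b = star a * (a * b) := by
    rw [← mul_assoc, star_mul_unit ha, one_mul]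
  have e : a * ((a * b) ^ (k + 1) * b * ((a * b) ^ (k + 1))⁻¹) =
      a * circ n ((k + 1) * t) * star a * circ n (t + -((k + 1) * t)) := by
    rw [hwi, hw]
    conv_lhs => rw [hb', ← hcx]
    rw [← circ_mul n hnn]
    simp only [mul_assoc]
  have hann : (a * n * star a * n).re = -1 + 2 * Qf a.re b.re (Real.cos t) := by
    have e1 : a * n * star a * n = ((Real.sin t)⁻¹ * (Real.sin t)⁻¹) •
        (a * (a * b - (Real.cos t : ℍ[ℝ])) * star a * (a * b - (Real.cos t : ℍ[ℝ]))) := by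
      rw [hn]
      simp only [mul_smul_comm, smul_mul_assoc, smul_smul]
    rw [e1, Quaternion.re_smul, re_anan a b ha hb _ ht, smul_eq_mul, ← mul_inv, ← sq, hs]
    unfold Qf Dl
    field_simp
    ring
  rw [e]
  unfold circ at *
  rw [re_sandwich a n _ _ _ _ hn0 ha, hann]
  unfold Gm
  have e3 : Real.cos ((2 * k + 1) * t) =
      Real.cos ((k + 1) * t - (t + -((k + 1) * t))) := by
    congr 1
    ring
  have e4 : Real.cos t = Real.cos ((k + 1) * t + (t + -((k + 1) * t))) := by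
    congr 1
    ring
  rw [e3, Real.cos_sub]
  have e5 := Real.cos_add ((k + 1) * t) (t + -((k + 1) * t))
  rw [← e4] at e5
  linear_combination (Qf a.re b.re (Real.cos t) - 1) * e5

end Pool.Agent.MP_2915c1_al
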