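import Pool.Agent.Lib.MP_2915c1_al.ZeroOne

set_option autoImplicit false

/-!
The zero-one law for `Good` sets of pairs of quaternions.
-/

namespace Pool.Agent.MP_2915c1_al

open MeasureTheory Quaternion Set Filter

variable {N : Set (ℍ[ℝ] × ℍ[ℝ])}

lemma Good.meas_left (hN : Good N) (b : ℍ[ℝ]) :
    MeasurableSet (q ⁻¹' {a | (a, b) ∈ N}) := by
  have h1 : Measurable (fun v : V => ((v, qi b) : V × V)) := by fun_prop
  have := h1 hN.meas
  exact this

lemma Good.meas_right (hN : Good N) (a : ℍ[ℝ]) :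
    MeasurableSet (q ⁻¹' {b | (a, b) ∈ N}) := by
  have h1 : Measurable (fun v : V => ((qi a, v) : V × V)) := by fun_prop
  have := h1 hN.meas
  exact this

lemma Good.line₁ (hN : Good N) (b : ℍ[ℝ]) (hb : b ≠ 0) (w : ℝ × ℝ × ℝ) (hw : w ≠ 0) :
    (∀ᵐ x : ℝ, (q ((x, w) : V), b) ∉ N) ∨ (∀ᵐ x : ℝ, (q ((x, w) : V), b) ∈ N) := by
  have := line_lemma {a | (a, b) ∈ N} (hN.meas_left b) (fun a r hr => hN.scale₁ a b r hr)
    (fun a ha h => hN.sq₁ a b ha hb h) (im w) (im_re w) (im_ne_zero hw)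
  simpa only [q_mk, mem_ofPred_eq] using this

lemma Good.line₂ (hN : Good N) (a : ℍ[ℝ]) (ha : a ≠ 0) (w : ℝ × ℝ × ℝ) (hw : w ≠ 0) :
    (∀ᵐ x : ℝ, (a, q ((x, w) : V)) ∉ N) ∨ (∀ᵐ x : ℝ, (a, q ((x, w) : V)) ∈ N) := by
  have := line_lemma {b | (a, b) ∈ N} (hN.meas_right a) (fun b r hr => hN.scale₂ a b r hr)
    (fun b hb h => hN.sq₂ a b ha hb h) (im w) (im_re w) (im_ne_zero hw)
  simpa only [q_mk, mem_ofPred_eq] using this

lemma Good.pair₁ (hN : Good N) (w : ℝ × ℝ × ℝ) (hw : w ≠ 0) :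
    ∀ᵐ p : ℝ × ℝ, ∀ᵐ b : V,
      ((q ((p.1, w) : V), q b) ∈ N ↔ (q ((p.2, w) : V), q b) ∈ N) := by
  have hmeas : MeasurableSet {x : V × (ℝ × ℝ) |
      ((q ((x.2.1, w) : V), q x.1) ∈ N ↔ (q ((x.2.2, w) : V), q x.1) ∈ N)} := by
    have m1 : Measurable (fun x : V × (ℝ × ℝ) => (((x.2.1, w) : V), x.1)) := by fun_prop
    have m2 : Measurable (fun x : V × (ℝ × ℝ) => (((x.2.2, w) : V), x.1)) := by fun_prop
    exact (m1 hN.meas).iff (m2 hN.meas)
  have h1 : ∀ᵐ b : V, ∀ᵐ p : ℝ × ℝ,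
      ((q ((p.1, w) : V), q b) ∈ N ↔ (q ((p.2, w) : V), q b) ∈ N) := by
    filter_upwards [ae_V_ne_zero] with b hb
    rcases hN.line₁ (q b) hb w hw with h | h
    · have h1 := (Measure.quasiMeasurePreserving_fst (μ := (volume : Measure ℝ))
        (ν := (volume : Measure ℝ))).ae h
      have h2 := (Measure.quasiMeasurePreserving_snd (μ := (volume : Measure ℝ))
        (ν := (volume : Measure ℝ))).ae h
      rw [← Measure.volume_eq_prod] at h1 h2
      filter_upwards [h1, h2] with p hp1 hp2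
      exact iff_of_false hp1 hp2
    · have h1 := (Measure.quasiMeasurePreserving_fst (μ := (volume : Measure ℝ))
        (ν := (volume : Measure ℝ))).ae h
      have h2 := (Measure.quasiMeasurePreserving_snd (μ := (volume : Measure ℝ))
        (ν := (volume : Measure ℝ))).ae h
      rw [← Measure.volume_eq_prod] at h1 h2
      filter_upwards [h1, h2] with p hp1 hp2
      exact iff_of_true hp1 hp2
  exact (Measure.ae_ae_comm hmeas).mp h1

lemma Good.rightMul (hN : Good N) (w : ℝ × ℝ × ℝ) (hw : w ≠ 0) :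
    ∀ᵐ x : ℝ, ∀ᵐ x' : ℝ, ∀ᵐ b : V,
      ((q ((x, w) : V), q b) ∈ N ↔ (q ((x, w) : V), q b * q ((x', w) : V)) ∈ N) := by
  have h := hN.pair₁ w hw
  rw [Measure.volume_eq_prod] at h
  have h' := Measure.ae_ae_of_ae_prod h
  filter_upwards [h'] with x hx
  filter_upwards [hx] with x' hx'
  have hne := q_mk_ne_zero x' hw
  have h2 := (qmp_mulR _ hne).ae hx'
  filter_upwards [hx', h2, ae_V_ne_zero] with b hb1 hb2 hb0
  simp only [q_qi] at hb2
  rw [hb1, hb2]
  exact (hN.mul _ _ hne hb0).symm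

lemma Good.addOne (hN : Good N) (a : ℍ[ℝ]) (ha : a ≠ 0) :
    ∀ᵐ b : V, ((a, q b) ∈ N ↔ (a, q b + 1) ∈ N) := by
  have hmeas : MeasurableSet {x : ℝ × (ℝ × ℝ × ℝ) |
      ((a, q x) ∈ N ↔ (a, q x + 1) ∈ N)} := by
    have m1 : Measurable (fun x : V => (qi a, x)) := by fun_prop
    have m2 : Measurable (fun x : V => (qi a, ((x.1 + 1, x.2) : V))) := by fun_prop
    have m2' : MeasurableSet {x : V | (a, q x + 1) ∈ N} := by
      have h := m2 hN.meas
      have h2 : ∀ x : V, q ((x.1 + 1, x.2) : V) = q x + 1 := by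
        intro x
        ext <;> simp [q]
      have h3 : (fun x : V => (qi a, ((x.1 + 1, x.2) : V))) ⁻¹'
          {p : V × V | (q p.1, q p.2) ∈ N} = {x : V | (a, q x + 1) ∈ N} := by
        ext x
        simp only [mem_preimage, mem_ofPred_eq, h2, q_qi]
      rw [h3] at h
      exact h
    exact (m1 hN.meas).iff m2'
  have h1 : ∀ᵐ w : ℝ × ℝ × ℝ, ∀ᵐ x : ℝ,
      ((a, q ((x, w) : V)) ∈ N ↔ (a, q ((x, w) : V) + 1) ∈ N) := by
    have hw0 : ∀ᵐ w : ℝ × ℝ × ℝ, w ≠ 0 := by simp [ae_iff]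
    filter_upwards [hw0] with w hw
    have h2 : ∀ x : ℝ, q ((x, w) : V) + 1 = q ((x + 1, w) : V) := by
      intro x
      ext <;> simp [q]
    simp only [h2]
    rcases hN.line₂ a ha w hw with h | h
    · have h3 := (measurePreserving_add_right (volume : Measure ℝ) 1).quasiMeasurePreserving.ae h
      filter_upwards [h, h3] with x hx1 hx2
      exact iff_of_false hx1 hx2
    · have h3 := (measurePreserving_add_right (volume : Measure ℝ) 1).quasiMeasurePreserving.ae h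
      filter_upwards [h, h3] with x hx1 hx2
      exact iff_of_true hx1 hx2
  have h2 := (Measure.ae_ae_comm (μ := (volume : Measure ℝ))
    (ν := (volume : Measure (ℝ × ℝ × ℝ))) (p := fun x w =>
      ((a, q ((x, w) : V)) ∈ N ↔ (a, q ((x, w) : V) + 1) ∈ N)) hmeas).mpr h1
  have h3 := (Measure.ae_prod_iff_ae_ae (μ := (volume : Measure ℝ))
    (ν := (volume : Measure (ℝ × ℝ × ℝ))) hmeas).mpr h2
  rw [← Measure.volume_eq_prod] at h3
  exact h3

lemma Good.fiber (hN : Good N) :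
    ∀ᵐ a : V, (∀ᵐ b : V, (q a, q b) ∉ N) ∨ (∀ᵐ b : V, (q a, q b) ∈ N) := by
  have hmeas : MeasurableSet {a : V |
      (∀ᵐ b : V, (q a, q b) ∉ N) ∨ (∀ᵐ b : V, (q a, q b) ∈ N)} := by
    have h1 : Measurable (fun a : V => volume (Prod.mk a ⁻¹' {p : V × V | (q p.1, q p.2) ∈ N})) :=
      measurable_measure_prodMk_left hN.meas
    have h2 : Measurable (fun a : V =>
        volume (Prod.mk a ⁻¹' {p : V × V | (q p.1, q p.2) ∈ N}ᶜ)) :=
      measurable_measure_prodMk_left hN.meas.compl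
    have h3 : {a : V | (∀ᵐ b : V, (q a, q b) ∉ N) ∨ (∀ᵐ b : V, (q a, q b) ∈ N)} =
        ((fun a : V => volume (Prod.mk a ⁻¹' {p : V × V | (q p.1, q p.2) ∈ N})) ⁻¹' {0}) ∪
        ((fun a : V => volume (Prod.mk a ⁻¹' {p : V × V | (q p.1, q p.2) ∈ N}ᶜ)) ⁻¹' {0}) := by
      ext a
      simp only [mem_ofPred_eq, mem_union, mem_preimage, mem_singleton_iff]
      rw [measure_eq_zero_iff_ae_notMem, measure_eq_zero_iff_ae_notMem]
      simp only [mem_preimage, mem_compl_iff, mem_ofPred_eq, not_not]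
    rw [h3]
    exact (h1 (measurableSet_singleton 0)).union (h2 (measurableSet_singleton 0))
  have h1 : ∀ᵐ w : ℝ × ℝ × ℝ, ∀ᵐ x : ℝ,
      ((∀ᵐ b : V, (q ((x, w) : V), q b) ∉ N) ∨ (∀ᵐ b : V, (q ((x, w) : V), q b) ∈ N)) := by
    have hw0 : ∀ᵐ w : ℝ × ℝ × ℝ, w ≠ 0 := by simp [ae_iff]
    filter_upwards [hw0] with w hw
    filter_upwards [hN.rightMul w hw] with x hx
    exact finish {b | (q ((x, w) : V), b) ∈ N} (hN.meas_right _)
      (fun b r hr => hN.scale₂ _ b r hr) w hw hx (hN.addOne _ (q_mk_ne_zero x hw))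
  have h2 := (Measure.ae_ae_comm (μ := (volume : Measure ℝ))
    (ν := (volume : Measure (ℝ × ℝ × ℝ))) (p := fun x w =>
      ((∀ᵐ b : V, (q ((x, w) : V), q b) ∉ N) ∨ (∀ᵐ b : V, (q ((x, w) : V), q b) ∈ N)))
      hmeas).mpr h1
  have h3 := (Measure.ae_prod_iff_ae_ae (μ := (volume : Measure ℝ))
    (ν := (volume : Measure (ℝ × ℝ × ℝ))) hmeas).mpr h2
  rw [← Measure.volume_eq_prod] at h3
  exact h3

/-- Abstract combination of the two fiberwise zero-one laws. -/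
lemma combine {α β : Type*} [MeasurableSpace α] [MeasurableSpace β] (μ : Measure α)
    (ν : Measure β) [SFinite μ] [SFinite ν] [(ae ν).NeBot] (M : Set (α × β))
    (hM : MeasurableSet M)
    (h1 : ∀ᵐ a ∂μ, (∀ᵐ b ∂ν, (a, b) ∉ M) ∨ (∀ᵐ b ∂ν, (a, b) ∈ M))
    (h2 : ∀ᵐ b ∂ν, (∀ᵐ a ∂μ, (a, b) ∉ M) ∨ (∀ᵐ a ∂μ, (a, b) ∈ M)) :
    (∀ᵐ p ∂(μ.prod ν), p ∉ M) ∨ (∀ᵐ p ∂(μ.prod ν), p ∈ M) := by
  let A : Set α := {a | ν (Prod.mk a ⁻¹' Mᶜ) = 0}
  have hA : MeasurableSet A :=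
    (measurable_measure_prodMk_left hM.compl) (measurableSet_singleton 0)
  have hAiff : ∀ a, a ∈ A ↔ ∀ᵐ b ∂ν, (a, b) ∈ M := by
    intro a
    change ν (Prod.mk a ⁻¹' Mᶜ) = 0 ↔ _
    rw [measure_eq_zero_iff_ae_notMem]
    simp only [mem_preimage, mem_compl_iff, not_not]
  have hMA : ∀ᵐ a ∂μ, ∀ᵐ b ∂ν, ((a, b) ∈ M ↔ a ∈ A) := by
    filter_upwards [h1] with a ha
    by_cases haA : a ∈ A
    · filter_upwards [(hAiff a).mp haA] with b hb
      exact iff_of_true hb haA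
    · rcases ha with h | h
      · filter_upwards [h] with b hb
        exact iff_of_false hb haA
      · exact absurd ((hAiff a).mpr h) haA
  have hmeas : MeasurableSet {p : α × β | (p.1, p.2) ∈ M ↔ p.1 ∈ A} :=
    MeasurableSet.iff hM (measurable_fst hA)
  have hMA' := (Measure.ae_ae_comm (p := fun a b => ((a, b) ∈ M ↔ a ∈ A)) hmeas).mp hMA
  obtain ⟨b, hb1, hb2⟩ := (hMA'.and h2).exists
  rcases hb2 with h | h
  · left
    rw [Measure.ae_prod_iff_ae_ae (by exact hM.compl)]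
    filter_upwards [hMA, hb1, h] with a ha hb hc
    filter_upwards [ha] with b' hb'
    rw [hb']
    rw [hb] at hc
    exact hc
  · right
    rw [Measure.ae_prod_iff_ae_ae (by exact hM)]
    filter_upwards [hMA, hb1, h] with a ha hb hc
    filter_upwards [ha] with b' hb'
    rw [hb']
    rw [hb] at hc
    exact hc

/-- Zero-one law for symmetric good sets of pairs of quaternions. -/
theorem Good.zero_one (hN : Good N) (hsymm : ∀ a b, (a, b) ∈ N → (b, a) ∈ N) :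
    (∀ᵐ p : V × V, (q p.1, q p.2) ∉ N) ∨ (∀ᵐ p : V × V, (q p.1, q p.2) ∈ N) := by
  have h1 := hN.fiber
  have h2 : ∀ᵐ b : V, (∀ᵐ a : V, (q a, q b) ∉ N) ∨ (∀ᵐ a : V, (q a, q b) ∈ N) := by
    filter_upwards [h1] with b hb
    rcases hb with h | h
    · left
      filter_upwards [h] with a ha
      exact fun h' => ha (hsymm _ _ h')
    · right
      filter_upwards [h] with a ha
      exact hsymm _ _ ha
  have := combine (volume : Measure V) (volume : Measure V) _ hN.meas h1 h2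
  rw [← Measure.volume_eq_prod] at this
  exact this

end Pool.Agent.MP_2915c1_al
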