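import Pool.Agent.Lib.MP_2915c1_al.ConjHaar
import Pool.Agent.Lib.MP_2915c1_al.ZeroOne2

set_option autoImplicit false

/-!
The zero-one law for a fixed first rotation, and the topological versions.
-/

namespace Pool.Agent.MP_2915c1_al

open MeasureTheory Quaternion Set Filter Matrix

instance haar_right : haar.IsMulRightInvariant := by
  refine ⟨fun g => ?_⟩
  have h1 : IsProbabilityMeasure (haar.map (· * g)) :=
    Measure.isProbabilityMeasure_map (measurable_mul_const g).aemeasurable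
  have h2 : (haar.map (· * g)).IsHaarMeasure := inferInstance
  exact Measure.isHaarMeasure_eq_of_isProbabilityMeasure _ _

lemma mp_conj (h : SO3) : MeasurePreserving (fun g : SO3 => h * g * h⁻¹) haar haar :=
  (measurePreserving_mul_right haar h⁻¹).comp (measurePreserving_mul_left haar h)

lemma pure_step (v : ℍ[ℝ]) (hv : v.re = 0) (hv0 : v ≠ 0) :
    ∃ r : ℍ[ℝ], ∃ l : ℝ, r ≠ 0 ∧ 0 < l ∧ r * v = mkq 0 l 0 0 * r := by
  have hn : 0 < normSq v := lt_of_le_of_ne normSq_nonneg (normSq_ne_zero.mpr hv0).symm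
  have hl : 0 < Real.sqrt (normSq v) := Real.sqrt_pos.mpr hn
  have hl2 : Real.sqrt (normSq v) ^ 2 = normSq v := Real.sq_sqrt hn.le
  have hv2 := normSq_eq v
  rw [hv] at hv2
  set l := Real.sqrt (normSq v)
  by_cases h : mkq 0 (l + v.imI) v.imJ v.imK = 0
  · refine ⟨mkq 0 0 1 0, l, ?_, hl, ?_⟩
    · intro h0
      have := congrArg QuaternionAlgebra.imJ h0
      simp at this
    · have h1 := congrArg QuaternionAlgebra.imI h
      have h2 := congrArg QuaternionAlgebra.imJ h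
      have h3 := congrArg QuaternionAlgebra.imK h
      simp at h1 h2 h3
      ext <;> simp [h2, h3, hv]
      linarith
  · refine ⟨mkq 0 (l + v.imI) v.imJ v.imK, l, h, hl, ?_⟩
    ext <;> simp [hv] <;> nlinarith

/-- A conjugation invariant set of rotations that is closed under squaring is null or conull. -/
lemma class_zero_one (Φ : Set SO3) (hm : MeasurableSet Φ)
    (hc : ∀ b h : SO3, b ∈ Φ → h * b * h⁻¹ ∈ Φ) (hsq : ∀ b ∈ Φ, b * b ∈ Φ) :
    (∀ᵐ b ∂haar, b ∉ Φ) ∨ (∀ᵐ b ∂haar, b ∈ Φ) := by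
  set S : Set ℍ[ℝ] := {a | rot a ∈ Φ} with hS
  have hSm : MeasurableSet (q ⁻¹' S) := measurable_rq hm
  have hscale : ∀ a : ℍ[ℝ], ∀ r : ℝ, r ≠ 0 → (r • a ∈ S ↔ a ∈ S) := by
    intro a r hr
    simp only [hS, mem_ofPred_eq, rot_smul r hr]
  have hS2 : ∀ a : ℍ[ℝ], a ≠ 0 → a ∈ S → a * a ∈ S := by
    intro a ha h
    simp only [hS, mem_ofPred_eq] at h ⊢
    rw [rot_mul ha ha]
    exact hsq _ h
  have hconj : ∀ (x l : ℝ) (w : ℝ × ℝ × ℝ) (r : ℍ[ℝ]), r ≠ 0 → 0 < l → w ≠ 0 →
      r * im w = mkq 0 l 0 0 * r →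
      (q ((x, w) : V) ∈ S ↔ ((l⁻¹ * x : ℝ) : ℍ[ℝ]) + mkq 0 1 0 0 ∈ S) := by
    intro x l w r hr hl hw h
    have h0 : q ((x, w) : V) ≠ 0 := q_mk_ne_zero x hw
    obtain ⟨y, hy⟩ : ∃ y : ℝ, y = l⁻¹ * x := ⟨_, rfl⟩
    have hy' : l * y = x := by
      rw [hy, mul_inv_cancel_left₀ hl.ne']
    rw [← hy]
    have e0 : l • ((y : ℍ[ℝ]) + mkq 0 1 0 0) = mkq x l 0 0 := by
      ext <;> simp [hy']
    rw [← hscale ((y : ℍ[ℝ]) + mkq 0 1 0 0) l hl.ne', e0]
    have e1 : r * q ((x, w) : V) = mkq x l 0 0 * r := by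
      rw [q_mk, mul_add, h]
      have e2 : mkq x l 0 0 = (x : ℍ[ℝ]) + mkq 0 l 0 0 := by
        ext <;> simp
      have e3 : r * (x : ℍ[ℝ]) = (x : ℍ[ℝ]) * r := by
        rw [Quaternion.mul_coe_eq_smul, Quaternion.coe_mul_eq_smul]
      rw [e2, add_mul, e3]
    have e4 : mkq x l 0 0 = r * q ((x, w) : V) * r⁻¹ := by
      rw [e1, mul_assoc, mul_inv_cancel₀ hr, mul_one]
    have e5 : rot (mkq x l 0 0) = rot r * rot (q ((x, w) : V)) * (rot r)⁻¹ := by
      rw [e4, rot_conj h0 hr]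
    simp only [hS, mem_ofPred_eq]
    rw [e5]
    refine ⟨fun h1 => hc _ _ h1, fun h1 => ?_⟩
    have := hc _ (rot r)⁻¹ h1
    have e6 : (rot r)⁻¹ * (rot r * rot (q ((x, w) : V)) * (rot r)⁻¹) * (rot r)⁻¹⁻¹ =
        rot (q ((x, w) : V)) := by group
    rwa [e6] at this
  have hw0 : ∀ᵐ w : ℝ × ℝ × ℝ, w ≠ 0 := by simp [ae_iff]
  have hi0 : mkq 0 1 0 0 ≠ 0 := by
    intro h0
    have := congrArg QuaternionAlgebra.imI h0
    simp at this
  have hmul : ∀ l : ℝ, 0 < l →
      Measure.QuasiMeasurePreserving (fun x : ℝ => l⁻¹ * x) volume volume := by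
    intro l hl
    have := qmp_linearEquiv (volume : Measure ℝ) (volume : Measure ℝ)
      (LinearEquiv.smulOfNeZero ℝ ℝ l⁻¹ (inv_ne_zero hl.ne'))
    exact this
  rcases line_lemma S hSm hscale hS2 (mkq 0 1 0 0) rfl hi0 with h | h
  · left
    refine ae_of_quat (P := fun b => b ∉ Φ) hm.compl ?_
    refine ae_of_slices (P := fun v => rq v ∉ Φ) (measurable_rq hm).compl ?_
    filter_upwards [hw0] with w hw
    obtain ⟨r, l, hr, hl, hrl⟩ := pure_step (im w) (im_re w) (im_ne_zero hw)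
    filter_upwards [(hmul l hl).ae h] with x hx h1
    exact hx ((hconj x l w r hr hl hw hrl).mp h1)
  · right
    refine ae_of_quat (P := fun b => b ∈ Φ) hm ?_
    refine ae_of_slices (P := fun v => rq v ∈ Φ) (measurable_rq hm) ?_
    filter_upwards [hw0] with w hw
    obtain ⟨r, l, hr, hl, hrl⟩ := pure_step (im w) (im_re w) (im_ne_zero hw)
    filter_upwards [(hmul l hl).ae h] with x hx
    exact (hconj x l w r hr hl hw hrl).mpr hx

/-- Zero-one law for a fixed first rotation. -/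
theorem law_two (a : SO3) : (∀ᵐ b ∂haar, HasSpectralGap (pairSet a b)) ∨
    (∀ᵐ b ∂haar, ¬ HasSpectralGap (pairSet a b)) := by
  have hMm : MeasurableSet {p : SO3 × SO3 | HasSpectralGap (pairSet a (p.2 * p.1 * p.2⁻¹))} := by
    have hc : Continuous (fun p : SO3 × SO3 => (a, p.2 * p.1 * p.2⁻¹)) := by fun_prop
    exact hc.measurable measurableSet_gapPairs
  set Φ : Set SO3 := {b | ∀ᵐ g ∂haar, ¬ HasSpectralGap (pairSet a (g * b * g⁻¹))} with hΦ
  have hΦm : MeasurableSet Φ := by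
    have h1 := measurable_measure_prodMk_left (ν := haar) hMm
    have h2 := h1 (measurableSet_singleton 0)
    have e : Φ = (fun b : SO3 => haar (Prod.mk b ⁻¹'
        {p : SO3 × SO3 | HasSpectralGap (pairSet a (p.2 * p.1 * p.2⁻¹))})) ⁻¹' {0} := by
      ext b
      simp only [hΦ, mem_ofPred_eq, mem_preimage, mem_singleton_iff]
      rw [measure_eq_zero_iff_ae_notMem]
      simp only [mem_preimage, mem_ofPred_eq]
    rw [e]
    exact h2
  have hc : ∀ b h : SO3, b ∈ Φ → h * b * h⁻¹ ∈ Φ := by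
    intro b h hb
    simp only [hΦ, mem_ofPred_eq] at hb ⊢
    have := (measurePreserving_mul_right haar h).quasiMeasurePreserving.ae hb
    filter_upwards [this] with g hg
    have e : g * h * b * (g * h)⁻¹ = g * (h * b * h⁻¹) * g⁻¹ := by group
    rwa [e] at hg
  have hsq : ∀ b ∈ Φ, b * b ∈ Φ := by
    intro b hb
    simp only [hΦ, mem_ofPred_eq] at hb ⊢
    filter_upwards [hb] with g hg h
    refine hg (gap_pair_mono _ _ _ _ (Subgroup.subset_closure (by simp)) ?_ h)
    have e : g * (b * b) * g⁻¹ = (g * b * g⁻¹) * (g * b * g⁻¹) := by group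
    rw [e]
    have hm : g * b * g⁻¹ ∈ Subgroup.closure {a, g * b * g⁻¹} :=
      Subgroup.subset_closure (by simp)
    exact mul_mem hm hm
  have key : ∀ P : SO3 → Prop, MeasurableSet {p : SO3 × SO3 | P (p.2 * p.1 * p.2⁻¹)} →
      (∀ᵐ b ∂haar, ∀ᵐ g ∂haar, P (g * b * g⁻¹)) → ∀ᵐ b ∂haar, P b := by
    intro P hP h
    have h1 := (Measure.ae_ae_comm (μ := haar) (ν := haar)
      (p := fun b g => P (g * b * g⁻¹)) hP).mp h
    obtain ⟨g, hg⟩ := h1.exists
    have h2 := (mp_conj g⁻¹).quasiMeasurePreserving.ae hg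
    filter_upwards [h2] with b hb
    have e : g * (g⁻¹ * b * g⁻¹⁻¹) * g⁻¹ = b := by group
    rwa [e] at hb
  rcases class_zero_one Φ hΦm hc hsq with h | h
  · left
    refine key (fun b => HasSpectralGap (pairSet a b)) hMm ?_
    filter_upwards [h] with b hb
    rcases law_one a b with h1 | h1
    · exact h1
    · exact absurd h1 hb
  · right
    exact key (fun b => ¬ HasSpectralGap (pairSet a b)) hMm.compl h

/-- Topological law on a pair of conjugacy classes. -/
theorem law_three (a b : SO3)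
    (hn : ¬ IsMeagre {g : SO3 | HasSpectralGap (pairSet a (g * b * g⁻¹))}) (S : Finset SO3)
    (hS : Dense ((Subgroup.closure (S : Set SO3) : Subgroup SO3) : Set SO3)) (h k : SO3)
    (ha : h * a * h⁻¹ ∈ Subgroup.closure (S : Set SO3))
    (hb : k * b * k⁻¹ ∈ Subgroup.closure (S : Set SO3)) : HasSpectralGap S := by
  have e : {g : SO3 | HasSpectralGap (pairSet a (g * b * g⁻¹))} =
      {g : SO3 | gapF (fam (h * a * h⁻¹, h * (g * b * g⁻¹) * h⁻¹))} := by
    ext g
    simp only [mem_ofPred_eq]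
    rw [← gap_pair_iff, gap_conj_iff]
  rw [e] at hn
  refine gap_of_not_meagre (fun g : SO3 => fam (h * a * h⁻¹, h * (g * b * g⁻¹) * h⁻¹)) ?_ hn S
    {g | h * g * k⁻¹ ∈ Subgroup.closure (S : Set SO3)} ?_ ?_
  · intro i
    refine (continuous_fam i).comp ?_
    fun_prop
  · have : {g | h * g * k⁻¹ ∈ Subgroup.closure (S : Set SO3)} =
        ((Homeomorph.mulLeft h).trans (Homeomorph.mulRight k⁻¹)) ⁻¹'
          ((Subgroup.closure (S : Set SO3) : Subgroup SO3) : Set SO3) := rfl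
    rw [this]
    exact hS.preimage (Homeomorph.isOpenMap _)
  · intro g hg i
    cases i
    · have e2 : h * (g * b * g⁻¹) * h⁻¹ = (h * g * k⁻¹) * (k * b * k⁻¹) * (h * g * k⁻¹)⁻¹ := by
        group
      change h * (g * b * g⁻¹) * h⁻¹ ∈ _
      rw [e2]
      exact mul_mem (mul_mem hg hb) (inv_mem hg)
    · exact ha

/-- Topological law for a fixed first rotation. -/
theorem law_four (a : SO3)
    (hn : ¬ IsMeagre {b : SO3 | HasSpectralGap (pairSet a b)}) (S : Finset SO3)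
    (hS : Dense ((Subgroup.closure (S : Set SO3) : Subgroup SO3) : Set SO3)) (h : SO3)
    (ha : h * a * h⁻¹ ∈ Subgroup.closure (S : Set SO3)) : HasSpectralGap S := by
  have e : {b : SO3 | HasSpectralGap (pairSet a b)} =
      {b : SO3 | gapF (fam (h * a * h⁻¹, h * b * h⁻¹))} := by
    ext g
    simp only [mem_ofPred_eq]
    rw [← gap_pair_iff, gap_conj_iff]
  rw [e] at hn
  refine gap_of_not_meagre (fun b : SO3 => fam (h * a * h⁻¹, h * b * h⁻¹)) ?_ hn S
    {g | h * g * h⁻¹ ∈ Subgroup.closure (S : Set SO3)} ?_ ?_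
  · intro i
    refine (continuous_fam i).comp ?_
    fun_prop
  · have : {g | h * g * h⁻¹ ∈ Subgroup.closure (S : Set SO3)} =
        ((Homeomorph.mulLeft h).trans (Homeomorph.mulRight h⁻¹)) ⁻¹'
          ((Subgroup.closure (S : Set SO3) : Subgroup SO3) : Set SO3) := rfl
    rw [this]
    exact hS.preimage (Homeomorph.isOpenMap _)
  · intro g hg i
    cases i
    · exact hg
    · exact ha

end Pool.Agent.MP_2915c1_al
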