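import Mathlib

set_option autoImplicit false

/-!
The group `SO(3)` with its Haar probability measure, and the spectral gap property.
-/

namespace Pool.Agent.MP_2915c1_al

open MeasureTheory Matrix

/-- The rotation group `SO(3)`: real `3 × 3` matrices with `A * Aᵀ = 1` and `det A = 1`. -/
abbrev SO3 : Type := Matrix.specialOrthogonalGroup (Fin 3) ℝ

lemma SO3.mem_iff (A : Matrix (Fin 3) (Fin 3) ℝ) :
    A ∈ Matrix.specialOrthogonalGroup (Fin 3) ℝ ↔ A * Aᵀ = 1 ∧ A.det = 1 := by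
  rw [Matrix.mem_specialOrthogonalGroup_iff, Matrix.mem_orthogonalGroup_iff]

lemma SO3.inv_val (A : SO3) : (A⁻¹ : SO3).1 = A.1ᵀ := rfl

lemma SO3.mul_val (A B : SO3) : (A * B : SO3).1 = A.1 * B.1 := rfl

instance SO3.instIsTopologicalGroup : IsTopologicalGroup SO3 where
  continuous_mul := by
    refine Continuous.subtype_mk ?_ _
    exact (continuous_subtype_val.comp continuous_fst).mul
      (continuous_subtype_val.comp continuous_snd)
  continuous_inv := by
    refine Continuous.subtype_mk ?_ _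
    exact continuous_subtype_val.matrix_transpose

instance SO3.instMeasurableSpace : MeasurableSpace SO3 := borel SO3

instance SO3.instBorelSpace : BorelSpace SO3 := ⟨rfl⟩

lemma SO3.entry_le (A : SO3) (i j : Fin 3) : |A.1 i j| ≤ 1 := by
  have h := ((SO3.mem_iff A.1).mp A.2).1
  have h2 : (A.1 * A.1ᵀ) i i = 1 := by rw [h]; simp
  rw [Matrix.mul_apply] at h2
  simp only [Matrix.transpose_apply] at h2
  have h3 : A.1 i j * A.1 i j ≤ ∑ k, A.1 i k * A.1 i k :=
    Finset.single_le_sum (f := fun k => A.1 i k * A.1 i k)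
      (fun k _ => mul_self_nonneg _) (Finset.mem_univ j)
  rw [h2] at h3
  exact abs_le_one_iff_mul_self_le_one.mpr h3

instance SO3.instCompactSpace : CompactSpace SO3 := by
  refine (isCompact_iff_compactSpace
    (s := (Matrix.specialOrthogonalGroup (Fin 3) ℝ : Set (Matrix (Fin 3) (Fin 3) ℝ)))).mp ?_
  have hsub : (Matrix.specialOrthogonalGroup (Fin 3) ℝ : Set (Matrix (Fin 3) (Fin 3) ℝ)) ⊆
      Set.pi Set.univ (fun _ : Fin 3 => Set.pi Set.univ (fun _ : Fin 3 => Set.Icc (-1 : ℝ) 1)) := by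
    intro A hA i _ j _
    have := SO3.entry_le ⟨A, hA⟩ i j
    exact abs_le.mp this
  have hK : IsCompact (Set.pi Set.univ
      (fun _ : Fin 3 => Set.pi Set.univ (fun _ : Fin 3 => Set.Icc (-1 : ℝ) 1)) :
      Set (Matrix (Fin 3) (Fin 3) ℝ)) :=
    isCompact_univ_pi (fun _ => isCompact_univ_pi (fun _ => isCompact_Icc))
  refine hK.of_isClosed_subset ?_ hsub
  have h1 : IsClosed {A : Matrix (Fin 3) (Fin 3) ℝ | A * Aᵀ = 1} := by
    apply isClosed_eq
    · exact continuous_id.mul continuous_id.matrix_transpose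
    · exact continuous_const
  have h2 : IsClosed {A : Matrix (Fin 3) (Fin 3) ℝ | A.det = 1} :=
    isClosed_eq continuous_id.matrix_det continuous_const
  have h3 : (Matrix.specialOrthogonalGroup (Fin 3) ℝ : Set (Matrix (Fin 3) (Fin 3) ℝ)) =
      {A | A * Aᵀ = 1} ∩ {A | A.det = 1} := by
    ext A
    exact SO3.mem_iff A
  rw [h3]
  exact h1.inter h2

/-- The normalised Haar measure on `SO(3)`. -/
noncomputable def haar : Measure SO3 := Measure.haarMeasure ⊤

/-- A finite set `S ⊆ SO(3)` has a spectral gap: there is `ε > 0` such that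
`⟨T_S f, f⟩ ≤ (|S| - ε) ‖f‖²` for every `f ∈ L²(SO(3))` of mean zero, where
`(T_S f)(g) = ∑_{s ∈ S} f (s g)`. -/
def HasSpectralGap (S : Finset SO3) : Prop :=
  ∃ ε : ℝ, 0 < ε ∧ ∀ f : SO3 → ℂ, MemLp f 2 haar → ∫ g, f g ∂haar = 0 →
    (∫ g, (∑ s ∈ S, f (s * g)) * (starRingEnd ℂ) (f g) ∂haar).re
      ≤ ((S.card : ℝ) - ε) * ∫ g, ‖f g‖ ^ 2 ∂haar

open Classical in
/-- The symmetric set `{a, b, a⁻¹, b⁻¹}`. -/
noncomputable def pairSet (a b : SO3) : Finset SO3 := {a, b, a⁻¹, b⁻¹}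

end Pool.Agent.MP_2915c1_al
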