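import Pool.Agent.Lib.MP_2915c1_al.DenseWords

set_option autoImplicit false

/-!
In every interval of half traces of the product there is one for which the pair has a gap, if a
power of the second rotation belongs to a seed.
-/

namespace Pool.Agent.MP_2915c1_al

open MeasureTheory Quaternion Set Filter Matrix

lemma nfa_unit {A : ℝ} (hA : A ^ 2 < 1) : normSq (nfa A) = 1 := by
  have hl2 : Real.sqrt (1 - A ^ 2) ^ 2 = 1 - A ^ 2 := Real.sq_sqrt (by linarith)
  rw [normSq_eq]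
  simp only [nfa, mkq_re, mkq_imI, mkq_imJ, mkq_imK, hl2]
  ring

lemma nfb_unit {A B X : ℝ} (hA : A ^ 2 < 1) (hD : 0 < Dl A B X) : normSq (nfb A B X) = 1 := by
  have hl2 : Real.sqrt (1 - A ^ 2) ^ 2 = 1 - A ^ 2 := Real.sq_sqrt (by linarith)
  have hnn : 0 ≤ 1 - B ^ 2 - ((A * B - X) / Real.sqrt (1 - A ^ 2)) ^ 2 := by
    have : 1 - B ^ 2 - ((A * B - X) / Real.sqrt (1 - A ^ 2)) ^ 2 = Dl A B X / (1 - A ^ 2) := by
      rw [div_pow, hl2]
      have : 1 - A ^ 2 ≠ 0 := by linarith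
      unfold Dl
      field_simp
      ring
    rw [this]
    exact div_nonneg hD.le (by linarith)
  rw [normSq_eq]
  simp only [nfb, mkq_re, mkq_imI, mkq_imJ, mkq_imK]
  rw [Real.sq_sqrt hnn]
  ring

lemma nfab_re {A B X : ℝ} (hA : A ^ 2 < 1) : (nfa A * nfb A B X).re = X := by
  have hl : 0 < Real.sqrt (1 - A ^ 2) := Real.sqrt_pos.mpr (by linarith)
  unfold nfa nfb
  simp
  field_simp
  ring

lemma continuous_nfb (A B : ℝ) : Continuous (fun X => nfb A B X) := by
  have h : Continuous (fun X => qi (nfb A B X)) := by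
    unfold qi nfb
    simp only [mkq_re, mkq_imI, mkq_imJ, mkq_imK]
    fun_prop
  have h2 := continuous_q.comp h
  have e : (q ∘ fun X => qi (nfb A B X)) = fun X => nfb A B X := by
    funext X
    simp [q_qi]
  rwa [e] at h2

/-- The axis of the second rotation. -/
noncomputable def ax (A B X : ℝ) : ℍ[ℝ] := (Real.sqrt (1 - B ^ 2))⁻¹ • (nfb A B X - (B : ℍ[ℝ]))

lemma continuous_ax (A B : ℝ) : Continuous (fun X => ax A B X) := by
  unfold ax
  exact Continuous.const_smul ((continuous_nfb A B).sub continuous_const)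
    (Real.sqrt (1 - B ^ 2))⁻¹

/-- The normalised pure part of a unit quaternion. -/
lemma axis_spec {c : ℍ[ℝ]} {C s : ℝ} (hc : normSq c = 1) (hC : c.re = C) (hs : s ≠ 0)
    (hsC : s ^ 2 = 1 - C ^ 2) : (s⁻¹ • (c - (C : ℍ[ℝ]))).re = 0 ∧
      (s⁻¹ • (c - (C : ℍ[ℝ]))) * (s⁻¹ • (c - (C : ℍ[ℝ]))) = -1 ∧
      (C : ℍ[ℝ]) + s • (s⁻¹ • (c - (C : ℍ[ℝ]))) = c := by
  refine ⟨?_, ?_, ?_⟩
  · rw [Quaternion.re_smul, Quaternion.re_sub, hC]
    simp
  · have e1 : (c - (C : ℍ[ℝ])) * (c - (C : ℍ[ℝ])) = (-(s ^ 2)) • (1 : ℍ[ℝ]) := by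
      rw [real_smul_one, hsC]
      simp only [mul_sub, sub_mul, smul_mul_assoc, mul_smul_comm, mul_one, one_mul]
      rw [sq_unit hc, hC]
      module
    rw [smul_mul_assoc, mul_smul_comm, e1, smul_smul, smul_smul]
    have : s⁻¹ * s⁻¹ * -(s ^ 2) = -1 := by
      field_simp
    rw [this]
    simp
  · rw [smul_smul, mul_inv_cancel₀ hs, one_smul]
    abel

lemma sqrt_facts {B : ℝ} (hB : B ^ 2 < 1) : Real.sqrt (1 - B ^ 2) ≠ 0 ∧
    Real.sqrt (1 - B ^ 2) ^ 2 = 1 - B ^ 2 :=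
  ⟨(Real.sqrt_pos.mpr (by linarith)).ne', Real.sq_sqrt (by linarith)⟩

lemma ax_spec {A B X : ℝ} (hA : A ^ 2 < 1) (hB : B ^ 2 < 1) (hD : 0 < Dl A B X) :
    (ax A B X).re = 0 ∧ ax A B X * ax A B X = -1 ∧
      circ (ax A B X) (Real.arccos B) = nfb A B X := by
  obtain ⟨h1, h2, h3⟩ := axis_spec (nfb_unit hA hD) (rfl : (nfb A B X).re = B)
    (sqrt_facts hB).1 (sqrt_facts hB).2
  refine ⟨h1, h2, ?_⟩
  unfold circ
  rw [Real.sin_arccos, Real.cos_arccos (by nlinarith) (by nlinarith)]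
  exact h3

/-- The axis of the product. -/
noncomputable def px (A B t : ℝ) : ℍ[ℝ] :=
  (Real.sin t)⁻¹ • (nfa A * nfb A B (Real.cos t) - (Real.cos t : ℍ[ℝ]))

lemma sin_ne {A B t : ℝ} (hA : A ^ 2 < 1) (hD : 0 < Dl A B (Real.cos t)) : Real.sin t ≠ 0 := by
  have hs2 : 0 < 1 - Real.cos t ^ 2 := one_sub_sq_pos hA hD
  have hs : Real.sin t ^ 2 = 1 - Real.cos t ^ 2 := Real.sin_sq t
  intro h0
  rw [h0] at hs
  nlinarith

lemma px_spec {A B t : ℝ} (hA : A ^ 2 < 1) (hD : 0 < Dl A B (Real.cos t)) :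
    (px A B t).re = 0 ∧ px A B t * px A B t = -1 ∧
      circ (px A B t) t = nfa A * nfb A B (Real.cos t) := by
  have hu : normSq (nfa A * nfb A B (Real.cos t)) = 1 := by
    rw [map_mul, nfa_unit hA, nfb_unit hA hD, one_mul]
  exact axis_spec hu (nfab_re hA) (sin_ne hA hD) (Real.sin_sq t)

lemma axis_dot {A B t : ℝ} (hA : A ^ 2 < 1) (hB : B ^ 2 < 1) (hD : 0 < Dl A B (Real.cos t)) :
    (px A B t * ax A B (Real.cos t)).re ^ 2 < 1 := by
  have hs0 := sin_ne hA hD
  obtain ⟨hb0, hb2⟩ := sqrt_facts hB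
  have hs2 := Real.sin_sq t
  set a := nfa A with ha
  set b := nfb A B (Real.cos t) with hb
  have hbu : normSq b = 1 := nfb_unit hA hD
  have hab : (a * b).re = Real.cos t := nfab_re hA
  have hb1 : b.re = B := rfl
  have hau : a.re = A := rfl
  have e1 : (a * b - (Real.cos t : ℍ[ℝ])) * (b - (B : ℍ[ℝ])) =
      a * (b * b) - B • (a * b) - Real.cos t • b + (Real.cos t * B) • (1 : ℍ[ℝ]) := by
    rw [real_smul_one, real_smul_one B]
    simp only [mul_sub, sub_mul, smul_mul_assoc, mul_smul_comm, mul_one, one_mul, mul_assoc,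
      smul_sub, smul_smul]
    module
  have e2 : a * (b * b) = (2 * B) • (a * b) - a := by
    rw [sq_unit hbu, hb1, mul_sub, mul_smul_comm, mul_one]
  have e3 : ((a * b - (Real.cos t : ℍ[ℝ])) * (b - (B : ℍ[ℝ]))).re = B * Real.cos t - A := by
    rw [e1, e2]
    simp only [Quaternion.re_add, Quaternion.re_sub, Quaternion.re_smul, smul_eq_mul,
      Quaternion.re_one, hab, hb1, hau]
    ring
  have e4 : (px A B t * ax A B (Real.cos t)).re =
      (Real.sin t)⁻¹ * (Real.sqrt (1 - B ^ 2))⁻¹ * (B * Real.cos t - A) := by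
    unfold px ax
    rw [← ha, ← hb, smul_mul_assoc, mul_smul_comm, smul_smul, Quaternion.re_smul, smul_eq_mul, e3]
  rw [e4]
  have e5 : ((Real.sin t)⁻¹ * (Real.sqrt (1 - B ^ 2))⁻¹ * (B * Real.cos t - A)) ^ 2 =
      (B * Real.cos t - A) ^ 2 / ((1 - Real.cos t ^ 2) * (1 - B ^ 2)) := by
    rw [mul_pow, mul_pow, inv_pow, inv_pow, hb2, hs2]
    field_simp
  rw [e5, div_lt_one]
  · unfold Dl at hD
    nlinarith
  · exact mul_pos (one_sub_sq_pos hA hD) (by linarith)

theorem dense_words {C2 c₀ : ℝ} (hseed : Seed C2 c₀) (hc0 : 0 ≤ c₀) (hc1 : c₀ ≤ 1) {A B : ℝ}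
    (hA : A ^ 2 < 1) (hB : B ^ 2 < 1) {m : ℕ} (hm : Real.cos (m * Real.arccos B) ^ 2 = C2)
    {x y : ℝ} (hxy : x < y) (hD : ∀ X ∈ Ioo x y, 0 < Dl A B X) :
    ∃ X ∈ Ioo x y, Pq (nfa A) (nfb A B X) := by
  have hpi := Real.pi_pos
  set c : ℝ := (x + y) / 2 with hc
  have hcI : c ∈ Ioo x y := ⟨by linarith, by linarith⟩
  have hc2 := one_sub_sq_pos hA (hD c hcI)
  have hcos : Real.cos (Real.arccos c) = c := Real.cos_arccos (by nlinarith) (by nlinarith)
  set tc := Real.arccos c with htc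
  have htc0 : 0 ≤ tc := Real.arccos_nonneg c
  have hopen : Real.cos ⁻¹' (Ioo x y) ∈ nhds tc :=
    (isOpen_Ioo.preimage Real.continuous_cos).mem_nhds (by rw [mem_preimage, hcos]; exact hcI)
  obtain ⟨δ, hδ, hball⟩ := Metric.mem_nhds_iff.mp hopen
  obtain ⟨N, hN⟩ := exists_nat_gt (Real.pi / δ)
  have hN0 : (0 : ℝ) < N := lt_of_le_of_lt (by positivity) hN
  have hNδ : Real.pi / N < δ := by
    rw [div_lt_iff₀ hN0]
    rw [div_lt_iff₀ hδ] at hN
    linarith
  set k : ℕ := ⌊N * tc / Real.pi⌋₊ with hk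
  have hk1 : (k : ℝ) * Real.pi ≤ N * tc := by
    have := Nat.floor_le (a := N * tc / Real.pi) (by positivity)
    rwa [le_div_iff₀ hpi] at this
  have hk2 : (N : ℝ) * tc < (k + 1) * Real.pi := by
    have := Nat.lt_floor_add_one (N * tc / Real.pi)
    rwa [div_lt_iff₀ hpi] at this
  set t0 : ℝ := k * Real.pi / N with ht0
  set t1 : ℝ := (k + 1 / 2) * Real.pi / N with ht1
  have hN0' : (N : ℝ) ≠ 0 := hN0.ne'
  have hb0 : |t0 - tc| < δ := by
    refine lt_of_le_of_lt ?_ hNδ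
    rw [abs_le]
    constructor
    · rw [ht0, ← sub_nonneg]
      have e : (k : ℝ) * Real.pi / N - tc - -(Real.pi / N) = ((k + 1) * Real.pi - N * tc) / N := by
        field_simp
        ring
      rw [e]
      exact div_nonneg (by linarith) hN0.le
    · rw [ht0, ← sub_nonneg]
      have e : Real.pi / N - ((k : ℝ) * Real.pi / N - tc) =
          (Real.pi + (N * tc - k * Real.pi)) / N := by
        field_simp
        ring
      rw [e]
      exact div_nonneg (by linarith) hN0.le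
  have hb1 : |t1 - tc| < δ := by
    refine lt_of_le_of_lt ?_ hNδ
    rw [abs_le]
    constructor
    · rw [ht1, ← sub_nonneg]
      have e : ((k : ℝ) + 1 / 2) * Real.pi / N - tc - -(Real.pi / N) =
          (((k + 1) * Real.pi - N * tc) + Real.pi / 2) / N := by
        field_simp
        ring
      rw [e]
      exact div_nonneg (by linarith) hN0.le
    · rw [ht1, ← sub_nonneg]
      have e : Real.pi / N - (((k : ℝ) + 1 / 2) * Real.pi / N - tc) =
          (Real.pi / 2 + (N * tc - k * Real.pi)) / N := by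
        field_simp
        ring
      rw [e]
      exact div_nonneg (by linarith) hN0.le
  have hX0 : Real.cos t0 ∈ Ioo x y := hball (by rw [Metric.mem_ball, Real.dist_eq]; exact hb0)
  have hX1 : Real.cos t1 ∈ Ioo x y := hball (by rw [Metric.mem_ball, Real.dist_eq]; exact hb1)
  have hbW : Wd (Ioo x y) (nfa A) (fun X => nfb A B X) (fun X => nfb A B X) :=
    Wd.snd (continuous_nfb A B).continuousOn fun X hX => nfb_unit hA (hD X hX)
  have haW : Wd (Ioo x y) (nfa A) (fun X => nfb A B X) (fun _ => nfa A) := Wd.fst (nfa_unit hA)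
  have hZW := (haW.mul hbW).pow N
  obtain ⟨v0, vv, hcv⟩ := ax_spec hA hB (hD _ hX1)
  have hZ0 : (fun X => (nfa A * nfb A B X) ^ N) (Real.cos t0) = 1 ∨
      (fun X => (nfa A * nfb A B X) ^ N) (Real.cos t0) = -1 := by
    obtain ⟨n0, nn, hcn⟩ := px_spec hA (hD _ hX0)
    simp only
    rw [← hcn, circ_pow _ nn]
    have e : (N : ℝ) * t0 = k * Real.pi := by
      rw [ht0]
      field_simp
    rw [e]
    unfold circ
    rw [Real.sin_nat_mul_pi, zero_smul, add_zero]
    have h2 : Real.cos (k * Real.pi) = 1 ∨ Real.cos (k * Real.pi) = -1 := by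
      rw [Real.cos_nat_mul_pi]
      exact neg_one_pow_eq_or ℝ k
    rcases h2 with h | h
    · left
      rw [h]
      simp
    · right
      rw [h]
      simp
  have hZ1 : fW (ax A B (Real.cos t1)) ((fun X => (nfa A * nfb A B X) ^ N) (Real.cos t1)) < 1 := by
    obtain ⟨n0, nn, hcn⟩ := px_spec hA (hD _ hX1)
    simp only
    rw [← hcn, circ_pow _ nn, fW_circ v0 vv n0 nn]
    have e : 2 * ((N : ℝ) * t1) = (2 * k + 1 : ℕ) * Real.pi := by
      rw [ht1]
      push_cast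
      field_simp
    rw [e, Real.cos_nat_mul_pi]
    have h3 : (-1 : ℝ) ^ (2 * k + 1) = -1 := by
      rw [pow_succ, pow_mul]
      simp
    rw [h3]
    have := axis_dot hA hB (hD _ hX1)
    linarith
  have hβ0 : 0 < Real.arccos B := Real.arccos_pos.mpr (by nlinarith)
  have hβ1 : Real.arccos B < Real.pi := by
    have h := Real.arccos_lt_pi (x := B)
    exact h.mpr (by nlinarith)
  obtain ⟨W, hW, hW0, hW1⟩ := exists_turn hX1 hbW v0 vv hβ0 hβ1 hcv.symm hZW hZ0 hZ1 hX0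
  have hGc : ContinuousOn (fun X => fW (ax A B X) (W X)) (Ioo x y) := by
    unfold fW
    have h1 := (continuous_ax A B).continuousOn (s := Ioo x y)
    have h2 : ContinuousOn (fun X => star (W X)) (Ioo x y) := hW.star.cont
    exact (Quaternion.continuous_re.comp_continuousOn
      (h1.mul ((hW.cont.mul h1).mul h2))).neg
  have hsub : uIcc (Real.cos t1) (Real.cos t0) ⊆ Ioo x y := ordConnected_Ioo.uIcc_subset hX1 hX0
  have hiv := intermediate_value_uIcc (hGc.mono hsub)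
  have hG0 : fW (ax A B (Real.cos t0)) (W (Real.cos t0)) = 1 :=
    fW_one (ax_spec hA hB (hD _ hX0)).2.1 _ hW0
  have hmem : c₀ ∈ uIcc (fW (ax A B (Real.cos t1)) (W (Real.cos t1)))
      (fW (ax A B (Real.cos t0)) (W (Real.cos t0))) := by
    rw [hG0]
    exact mem_uIcc_of_le (hW1.le.trans hc0) hc1
  obtain ⟨X, hX, hfX⟩ := hiv hmem
  have hXI := hsub hX
  refine ⟨X, hXI, ?_⟩
  obtain ⟨v0', vv', hcv'⟩ := ax_spec hA hB (hD X hXI)
  have hwu := hW.unit X hXI
  have h4 := Pq_of_seed hseed v0' vv' hwu hfX hm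
  have hau := nfa_unit hA
  have hbu := nfb_unit hA (hD X hXI)
  have hcm : circ (ax A B X) (m * Real.arccos B) = nfb A B X ^ m := by
    rw [← circ_pow _ vv', hcv']
  rw [hcm] at h4
  have hmb : rot (nfb A B X ^ m) ∈ Subgroup.closure {rot (nfa A), rot (nfb A B X)} :=
    (hbW.pow m).mem X hXI
  have hmw := hW.mem X hXI
  unfold Pq at h4 ⊢
  refine gap_pair_mono _ _ _ _ hmb ?_ h4
  rw [rot_mul (mul_ne_zero (ne_zero_of_unit hwu) (pow_ne_zero _ (ne_zero_of_unit hbu)))
    (ne_zero_of_unit (normSq_star' hwu)), rot_mul (ne_zero_of_unit hwu)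
    (pow_ne_zero _ (ne_zero_of_unit hbu)), rot_star hwu]
  exact mul_mem (mul_mem hmw hmb) (inv_mem hmw)

end Pool.Agent.MP_2915c1_al
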