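import Pool.Agent.Lib.MP_2915c1_al.SphGap

set_option autoImplicit false

/-!
The spectral gap of the standard pair of rotations by the angle `arccos (-1/3)` about orthogonal
axes.
-/

noncomputable section

namespace Pool.Agent.MP_2915c1_al

open MeasureTheory Quaternion Set Filter Matrix Topology
open Pool.Agent.MP_f406e2_lc_QD (E3 S2 O3 nu one)
open scoped InnerProductSpace

/-- A symmetric operator whose powers decay on a vector. -/
lemma log_conv {E : Type*} [NormedAddCommGroup E] [InnerProductSpace ℂ E] (T : E →L[ℂ] E)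
    (hT : ∀ x y, ⟪T x, y⟫_ℂ = ⟪x, T y⟫_ℂ) (w : E) (lam C : ℝ) (hlam : 0 < lam)
    (h : ∀ k : ℕ, ‖(T ^ k) w‖ ≤ C * lam ^ k) : ‖T w‖ ≤ lam * ‖w‖ := by
  have hs : ∀ k : ℕ, (T ^ (k + 1)) w = T ((T ^ k) w) := by
    intro k
    rw [pow_succ']
    rfl
  set a : ℕ → ℝ := fun k => ‖(T ^ k) w‖ with ha
  have ha0 : ∀ k, 0 ≤ a k := fun k => norm_nonneg _
  have hlc : ∀ k, a (k + 1) ^ 2 ≤ a k * a (k + 2) := by
    intro k
    have h1 : ((a (k + 1) : ℂ)) ^ 2 = ⟪(T ^ k) w, (T ^ (k + 2)) w⟫_ℂ := by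
      rw [hs (k + 1), ← hT, ← hs k]
      exact (inner_self_eq_norm_sq_to_K (𝕜 := ℂ) ((T ^ (k + 1)) w)).symm
    have h2 := norm_inner_le_norm (𝕜 := ℂ) ((T ^ k) w) ((T ^ (k + 2)) w)
    rw [← h1, norm_pow, Complex.norm_real, Real.norm_eq_abs, abs_of_nonneg (ha0 _)] at h2
    exact h2
  have hst : ∀ k, a 1 * a k ≤ a 0 * a (k + 1) := by
    intro k
    induction k with
    | zero => rw [mul_comm]
    | succ k ih =>
      have h3 := hlc k
      rcases (ha0 (k + 1)).eq_or_lt with h4 | h4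
      · rw [← h4, mul_zero]
        exact mul_nonneg (ha0 _) (ha0 _)
      · have h5 : a 1 * a (k + 1) ^ 2 ≤ a 0 * a (k + 1) * a (k + 2) := by
          calc a 1 * a (k + 1) ^ 2 ≤ a 1 * (a k * a (k + 2)) :=
                mul_le_mul_of_nonneg_left h3 (ha0 1)
            _ = (a 1 * a k) * a (k + 2) := by ring
            _ ≤ (a 0 * a (k + 1)) * a (k + 2) := mul_le_mul_of_nonneg_right ih (ha0 _)
        have h6 : a (k + 1) * (a 1 * a (k + 1)) ≤ a (k + 1) * (a 0 * a (k + 1 + 1)) := by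
          nlinarith only [h5]
        exact le_of_mul_le_mul_left h6 h4
  have hpow : ∀ k, a 1 ^ k * a 0 ≤ a 0 ^ k * a k := by
    intro k
    induction k with
    | zero => simp
    | succ k ih =>
      calc a 1 ^ (k + 1) * a 0 = a 1 * (a 1 ^ k * a 0) := by ring
        _ ≤ a 1 * (a 0 ^ k * a k) := mul_le_mul_of_nonneg_left ih (ha0 1)
        _ = a 0 ^ k * (a 1 * a k) := by ring
        _ ≤ a 0 ^ k * (a 0 * a (k + 1)) := mul_le_mul_of_nonneg_left (hst k) (by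
            exact pow_nonneg (ha0 0) k)
        _ = a 0 ^ (k + 1) * a (k + 1) := by ring
  have e1 : a 1 = ‖T w‖ := by
    simp [ha]
  have e0 : a 0 = ‖w‖ := by
    simp [ha]
  rw [← e1, ← e0]
  by_contra hcon
  rw [not_le] at hcon
  have hpos : 0 < a 0 := by
    rcases (ha0 0).eq_or_lt with h4 | h4
    · have hw : w = 0 := by
        rw [← norm_eq_zero, ← e0, ← h4]
      rw [e1, e0, hw] at hcon
      simp at hcon
    · exact h4
  have hr : 1 < a 1 / (lam * a 0) := by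
    rw [one_lt_div (mul_pos hlam hpos)]
    exact hcon
  obtain ⟨k, hk⟩ := pow_unbounded_of_one_lt (C / a 0) hr
  have h7 : a 1 ^ k * a 0 ≤ a 0 ^ k * (C * lam ^ k) :=
    (hpow k).trans (mul_le_mul_of_nonneg_left (h k) (pow_nonneg (ha0 0) k))
  rw [div_pow, div_lt_div_iff₀ hpos (pow_pos (mul_pos hlam hpos) k), mul_pow] at hk
  nlinarith only [h7, hk]

/-- the span of the pull backs of functions of mean zero -/
def W0 : Submodule ℂ H :=
  Submodule.span ℂ {w | ∃ (p : S2) (g : LS), ⟪g, one⟫_ℝ = 0 ∧ w = pull p g}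

lemma decay {lam : ℝ} (h0 : 0 < lam) (hg : ∀ f : LS, ⟪f, one⟫_ℝ = 0 →
    ‖Pool.Agent.MP_f406e2_lc_QD.TT f‖ ≤ lam * ‖f‖) (w : H) (hw : w ∈ W0) :
    ∃ C : ℝ, ∀ k : ℕ, ‖(TH ^ k) w‖ ≤ C * lam ^ k := by
  have hs : ∀ (k : ℕ) (v : H), (TH ^ (k + 1)) v = TH ((TH ^ k) v) := by
    intro k v
    rw [pow_succ']
    rfl
  induction hw using Submodule.span_induction with
  | mem w hw =>
    obtain ⟨p, g, hg1, rfl⟩ := hw
    refine ⟨‖g‖, fun k => ?_⟩
    have key : ∃ g' : LS, ⟪g', one⟫_ℝ = 0 ∧ ‖g'‖ ≤ ‖g‖ * lam ^ k ∧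
        (TH ^ k) (pull p g) = pull p g' := by
      induction k with
      | zero => exact ⟨g, hg1, by simp, by simp⟩
      | succ k ih =>
        obtain ⟨g', h1, h2, h3⟩ := ih
        refine ⟨Pool.Agent.MP_f406e2_lc_QD.TT g', ?_, ?_, ?_⟩
        · rw [Pool.Agent.MP_f406e2_lc_QD.TT_symm, Pool.Agent.MP_f406e2_lc_QD.TT_one,
            inner_smul_right, h1, mul_zero]
        · refine (hg g' h1).trans ?_
          rw [pow_succ]
          nlinarith only [mul_le_mul_of_nonneg_left h2 h0.le]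
        · rw [hs, h3, TH_pull]
    obtain ⟨g', -, h2, h3⟩ := key
    rw [h3, norm_pull]
    exact h2
  | zero => exact ⟨0, fun k => by simp⟩
  | add x y _ _ hx hy =>
    obtain ⟨C, hC⟩ := hx
    obtain ⟨D, hD⟩ := hy
    refine ⟨C + D, fun k => ?_⟩
    rw [map_add, add_mul]
    exact (norm_add_le _ _).trans (add_le_add (hC k) (hD k))
  | smul c x _ hx =>
    obtain ⟨C, hC⟩ := hx
    refine ⟨‖c‖ * C, fun k => ?_⟩
    rw [map_smul, norm_smul, mul_assoc]
    exact mul_le_mul_of_nonneg_left (hC k) (norm_nonneg _)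

/-- a base point -/
def p0 : S2 := ⟨e3, by simp [norm_e3]⟩

/-- the constant function `1` -/
def oneH : H := pull p0 one

lemma pull_one_eq (p : S2) : pull p one = oneH := by
  apply Lp.ext
  exact (pull_one p).trans (pull_one p0).symm

lemma norm_oneH : ‖oneH‖ = 1 := by
  rw [oneH, norm_pull, Pool.Agent.MP_f406e2_lc_QD.norm_one]

lemma inner_oneH (f : H) : ⟪oneH, f⟫_ℂ = ∫ A, f A ∂haar := by
  rw [MeasureTheory.L2.inner_def]
  refine integral_congr_ae ?_
  filter_upwards [pull_one p0] with A h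
  change ⟪(pull p0 one : SO3 → ℂ) A, f A⟫_ℂ = _
  rw [h, RCLike.inner_apply, map_one, mul_one]

lemma pull_split (p : S2) (g : LS) : ∃ g' : LS, ⟪g', one⟫_ℝ = 0 ∧
    pull p g = pull p g' + ((⟪g, one⟫_ℝ : ℝ) : ℂ) • oneH := by
  refine ⟨g - ⟪g, one⟫_ℝ • one, ?_, ?_⟩
  · rw [inner_sub_left, inner_smul_left, real_inner_self_eq_norm_sq,
      Pool.Agent.MP_f406e2_lc_QD.norm_one]
    simp
  · rw [← pull_one_eq p, ← pull_smul, ← pull_add, sub_add_cancel]

lemma W0_orth (f : H) (hf : f ∈ W0ᗮ) : f = ⟪oneH, f⟫_ℂ • oneH := by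
  rw [← sub_eq_zero]
  refine zero_of_orth _ fun p g => ?_
  obtain ⟨g', h1, h2⟩ := pull_split p g
  have h3 : ⟪pull p g', f⟫_ℂ = 0 :=
    (Submodule.mem_orthogonal _ _).mp hf _ (Submodule.subset_span ⟨p, g', h1, rfl⟩)
  have h4 : ⟪pull p g', oneH⟫_ℂ = 0 := by
    rw [← pull_one_eq p, inner_pull, h1]
    simp
  have h5 : ⟪oneH, oneH⟫_ℂ = 1 := by
    rw [inner_self_eq_norm_sq_to_K, norm_oneH]
    simp
  rw [h2, inner_add_left, inner_sub_right, inner_sub_right, inner_smul_right, h3, h4,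
    inner_smul_left, inner_smul_left, inner_smul_right, h5]
  simp

theorem gap_H : ∃ lam : ℝ, 0 < lam ∧ lam < 4 ∧ ∀ f : H, mean0 f → ‖TH f‖ ≤ lam * ‖f‖ := by
  obtain ⟨lam, h0, h1, hg⟩ := Pool.Agent.MP_f406e2_lc_QD.gap
  refine ⟨lam, h0, h1, fun f hf => ?_⟩
  have hW : ∀ w ∈ W0, ‖TH w‖ ≤ lam * ‖w‖ := by
    intro w hw
    obtain ⟨C, hC⟩ := decay h0 hg w hw
    exact log_conv TH TH_symm w lam C h0 hC
  have hcl : f ∈ W0.topologicalClosure := by
    rw [← Submodule.orthogonal_orthogonal_eq_closure, Submodule.mem_orthogonal]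
    intro u hu
    rw [W0_orth u hu, inner_smul_left, inner_oneH f]
    unfold mean0 at hf
    rw [hf, mul_zero]
  have hc : IsClosed {f : H | ‖TH f‖ ≤ lam * ‖f‖} :=
    isClosed_le (TH.continuous.norm) (continuous_const.mul continuous_norm)
  have h2 : closure (W0 : Set H) ⊆ {f : H | ‖TH f‖ ≤ lam * ‖f‖} :=
    closure_minimal (fun w hw => hW w hw) hc
  exact h2 hcl

lemma Dh_rz (j : Fin 4) : Dh j * rot (mkq 0 0 0 1) ∈
    pairSet (rot (mkq 1 1 1 0)) (rot (mkq 1 1 (-1) 0)) := by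
  have n0 : ∀ x y z : ℝ, x ≠ 0 → mkq 0 x y z ≠ 0 := by
    intro x y z hx h
    have := congrArg QuaternionAlgebra.imI h
    simp at this
    exact hx this
  have nk : mkq 0 0 0 1 ≠ 0 := by
    intro h
    have := congrArg QuaternionAlgebra.imK h
    simp at this
  have n1 : ∀ w x y z : ℝ, w ≠ 0 → mkq w x y z ≠ 0 := by
    intro w x y z hx h
    have := congrArg QuaternionAlgebra.re h
    simp at this
    exact hx this
  have hmul : ∀ x y z : ℝ, mkq 0 x y z * mkq 0 0 0 1 = mkq (-z) y (-x) 0 := by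
    intro x y z
    ext <;> simp
  have hinv : ∀ x y : ℝ, x ^ 2 = 1 → y ^ 2 = 1 →
      rot (mkq 1 (-x) (-y) 0) = (rot (mkq 1 x y 0))⁻¹ := by
    intro x y hx hy
    apply eq_inv_of_mul_eq_one_left
    rw [← rot_mul (n1 _ _ _ _ one_ne_zero) (n1 _ _ _ _ one_ne_zero)]
    have e : mkq 1 (-x) (-y) 0 * mkq 1 x y 0 = (3 : ℝ) • (1 : ℍ[ℝ]) := by
      ext
      · simp
        linarith
      · simp
      · simp
      · simp
        ring
    rw [e, rot_smul _ (by norm_num), rot_one]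
  have hneg : ∀ w x y z : ℝ, rot (mkq (-w) (-x) (-y) (-z)) = rot (mkq w x y z) := by
    intro w x y z
    rw [← rot_smul (-1) (by norm_num) (mkq w x y z)]
    congr 1
    ext <;> simp
  unfold pairSet Dh
  fin_cases j
  · have h1 : rot (mkq 0 1 1 1) * rot (mkq 0 0 0 1) = (rot (mkq 1 1 (-1) 0))⁻¹ := by
      rw [← rot_mul (n0 _ _ _ one_ne_zero) nk, hmul, ← hinv 1 (-1) (by norm_num) (by norm_num),
        ← hneg]
      congr 1
      ext <;> simp
    simp [Pool.Agent.MP_f406e2_lc_QD.u, h1]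
  · have h1 : rot (mkq 0 1 (-1) (-1)) * rot (mkq 0 0 0 1) = (rot (mkq 1 1 1 0))⁻¹ := by
      rw [← rot_mul (n0 _ _ _ one_ne_zero) nk, hmul, ← hinv 1 1 (by norm_num) (by norm_num)]
      congr 1
      ext <;> simp
    simp [Pool.Agent.MP_f406e2_lc_QD.u, h1]
  · have h1 : rot (mkq 0 (-1) 1 (-1)) * rot (mkq 0 0 0 1) = rot (mkq 1 1 1 0) := by
      rw [← rot_mul (n0 _ _ _ (by norm_num)) nk, hmul]
      congr 1
      ext <;> simp
    simp [Pool.Agent.MP_f406e2_lc_QD.u, h1]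
  · have h1 : rot (mkq 0 (-1) (-1) 1) * rot (mkq 0 0 0 1) = rot (mkq 1 1 (-1) 0) := by
      rw [← rot_mul (n0 _ _ _ (by norm_num)) nk, hmul, ← hneg]
      congr 1
      ext <;> simp
    simp [Pool.Agent.MP_f406e2_lc_QD.u, h1]

/-- The standard pair has a spectral gap. -/
theorem gap_LPS : Pq (mkq 1 1 1 0) (mkq 1 1 (-1) 0) := by
  obtain ⟨lam, h0, h1, hg⟩ := gap_H
  unfold Pq
  rw [hasSpectralGap_iff]
  refine ⟨(4 - lam) / 4, by linarith, fun f hf => ?_⟩
  set rz := rot (mkq 0 0 0 1) with hrz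
  have h2 : ‖∑ j, tr (Dh j * rz) f‖ ≤ lam * ‖f‖ := by
    have e : ∑ j, tr (Dh j * rz) f = tr rz (TH f) := by
      rw [TH_apply]
      change _ = trI rz _
      rw [map_sum]
      exact Finset.sum_congr rfl fun j _ => tr_mul _ _ _
    rw [e, norm_tr]
    exact hg f hf
  have h3 : 4 * ‖f‖ ≤ ‖∑ j, tr (Dh j * rz) f‖ + ∑ j, dis (Dh j * rz) f := by
    have e : (4 : ℂ) • f = ∑ j : Fin 4, tr (Dh j * rz) f - ∑ j : Fin 4, (tr (Dh j * rz) f - f) := by
      rw [Finset.sum_sub_distrib, sub_sub_cancel, Finset.sum_const, Finset.card_univ,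
        Fintype.card_fin, ← Nat.cast_smul_eq_nsmul ℂ]
      norm_num
    have h4 : 4 * ‖f‖ = ‖(4 : ℂ) • f‖ := by
      rw [norm_smul]
      norm_num
    rw [h4, e]
    refine (norm_sub_le _ _).trans (add_le_add_right ?_ _)
    exact norm_sum_le _ _
  have h5 : ∀ j, dis (Dh j * rz) f ≤
      ∑ s ∈ pairSet (rot (mkq 1 1 1 0)) (rot (mkq 1 1 (-1) 0)), dis s f := by
    intro j
    exact Finset.single_le_sum (f := fun s => dis s f) (fun s _ => dis_nonneg s f) (Dh_rz j)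
  have h6 : ∑ j, dis (Dh j * rz) f ≤
      4 * ∑ s ∈ pairSet (rot (mkq 1 1 1 0)) (rot (mkq 1 1 (-1) 0)), dis s f := by
    refine (Finset.sum_le_sum fun j _ => h5 j).trans ?_
    simp
  linarith

end Pool.Agent.MP_2915c1_al
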