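import Pool.Agent.Lib.MP_2915c1_al.DenseCross
import Pool.Agent.Lib.MP_2915c1_al.SphLPS

set_option autoImplicit false

/-!
Three explicit pairs of rotations with a spectral gap: two rotations by the angle `arccos (-1/3)`
about orthogonal axes, two quarter turns, and two rotations by sixty degrees.
-/

noncomputable section

namespace Pool.Agent.MP_2915c1_al

open MeasureTheory Quaternion Set Filter Matrix Topology

/-- A pair has a gap if it generates the four half-turns up to a common factor. -/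
theorem Pq_of_mem {P Q : ℍ[ℝ]} (z : SO3)
    (h : ∀ j : Fin 4, Dh j * z ∈ Subgroup.closure {rot P, rot Q}) : Pq P Q := by
  obtain ⟨lam, h0, h1, hg⟩ := gap_H
  unfold Pq
  rw [hasSpectralGap_iff]
  have hc : ∀ j : Fin 4, ∃ C : ℝ, 0 < C ∧ ∀ f : H, dis (Dh j * z) f ≤
      C * ∑ s ∈ pairSet (rot P) (rot Q), dis s f := by
    intro j
    refine dis_closure _ _ ?_
    rw [closure_pairSet]
    exact h j
  choose C hC0 hC using hc
  have hS : 0 < ∑ j, C j := Finset.sum_pos (fun j _ => hC0 j) Finset.univ_nonempty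
  refine ⟨(4 - lam) / ∑ j, C j, div_pos (by linarith) hS, fun f hf => ?_⟩
  have h2 : ‖∑ j, tr (Dh j * z) f‖ ≤ lam * ‖f‖ := by
    have e : ∑ j, tr (Dh j * z) f = tr z (TH f) := by
      rw [TH_apply]
      change _ = trI z _
      rw [map_sum]
      exact Finset.sum_congr rfl fun j _ => tr_mul _ _ _
    rw [e, norm_tr]
    exact hg f hf
  have h3 : 4 * ‖f‖ ≤ ‖∑ j, tr (Dh j * z) f‖ + ∑ j, dis (Dh j * z) f := by
    have e : (4 : ℂ) • f = ∑ j : Fin 4, tr (Dh j * z) f - ∑ j : Fin 4, (tr (Dh j * z) f - f) := by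
      rw [Finset.sum_sub_distrib, sub_sub_cancel, Finset.sum_const, Finset.card_univ,
        Fintype.card_fin, ← Nat.cast_smul_eq_nsmul ℂ]
      norm_num
    have h4 : 4 * ‖f‖ = ‖(4 : ℂ) • f‖ := by
      rw [norm_smul]
      norm_num
    rw [h4, e]
    refine (norm_sub_le _ _).trans (add_le_add_right ?_ _)
    exact norm_sum_le _ _
  have h6 : ∑ j, dis (Dh j * z) f ≤
      (∑ j, C j) * ∑ s ∈ pairSet (rot P) (rot Q), dis s f := by
    rw [Finset.sum_mul]
    exact Finset.sum_le_sum fun j _ => hC j f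
  rw [div_mul_eq_mul_div, div_le_iff₀ hS]
  linarith

/-- Two rotations by the angle `arccos (-1/3)` about orthogonal axes. -/
theorem seed_LPS : Seed (1 / 3) 0 := by
  refine seed_of_pair (P := mkq 1 1 1 0) (Q := mkq 1 1 (-1) 0) (n := 3) (by norm_num) ?_ ?_ rfl
    ?_ (by norm_num) ?_ gap_LPS
  · rw [normSq_eq]
    norm_num
  · rw [normSq_eq]
    norm_num
  · norm_num
  · simp

lemma rot_eq_of {a b : ℍ[ℝ]} (r : ℝ) (hr : r ≠ 0) (h : a = r • b) : rot a = rot b := by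
  rw [h, rot_smul r hr]

lemma Dh_eq (j : Fin 4) : Dh j = rot (![mkq 0 1 1 1, mkq 0 1 (-1) (-1), mkq 0 (-1) 1 (-1),
    mkq 0 (-1) (-1) 1] j) := by
  unfold Dh
  congr 1
  fin_cases j <;> simp [Pool.Agent.MP_f406e2_lc_QD.u]

lemma D0 : Dh 0 = rot (mkq 0 1 1 1) := Dh_eq 0
lemma D1 : Dh 1 = rot (mkq 0 1 (-1) (-1)) := Dh_eq 1
lemma D2 : Dh 2 = rot (mkq 0 (-1) 1 (-1)) := Dh_eq 2
lemma D3 : Dh 3 = rot (mkq 0 (-1) (-1) 1) := Dh_eq 3

lemma mkq_ne {w x y z : ℝ} (h : w ^ 2 + x ^ 2 + y ^ 2 + z ^ 2 ≠ 0) : mkq w x y z ≠ 0 := by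
  intro h0
  apply h
  have h1 := congrArg QuaternionAlgebra.re h0
  have h2 := congrArg QuaternionAlgebra.imI h0
  have h3 := congrArg QuaternionAlgebra.imJ h0
  have h4 := congrArg QuaternionAlgebra.imK h0
  simp at h1 h2 h3 h4
  rw [h1, h2, h3, h4]
  norm_num

/-- Two quarter turns. -/
theorem seed_four : Seed (1 / 2) (1 / 3) := by
  refine seed_of_pair (P := (3 : ℝ) • mkq 1 (-1) 0 0) (Q := mkq 3 (-1) (-2) (-2)) (n := 18)
    (by norm_num) ?_ ?_ ?_ ?_ (by norm_num) ?_ ?_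
  · rw [normSq_eq]
    simp
    norm_num
  · rw [normSq_eq]
    norm_num
  · simp
  · simp
    norm_num
  · simp
    norm_num
  · have hR0 : mkq 1 1 0 0 ≠ 0 := mkq_ne (by norm_num)
    have hP0 : mkq 1 (-1) 0 0 ≠ 0 := mkq_ne (by norm_num)
    have hD0 : mkq 0 1 1 1 ≠ 0 := mkq_ne (by norm_num)
    have hD1 : mkq 0 1 (-1) (-1) ≠ 0 := mkq_ne (by norm_num)
    have hD2 : mkq 0 (-1) 1 (-1) ≠ 0 := mkq_ne (by norm_num)
    have hD3 : mkq 0 (-1) (-1) 1 ≠ 0 := mkq_ne (by norm_num)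
    set R : SO3 := rot (mkq 1 1 0 0) with hR
    have hP : rot ((3 : ℝ) • mkq 1 (-1) 0 0) = R⁻¹ := by
      rw [rot_smul _ (by norm_num)]
      apply eq_inv_of_mul_eq_one_left
      rw [hR, ← rot_mul hP0 hR0, ← rot_one]
      refine rot_eq_of 2 (by norm_num) ?_
      ext <;> simp
      norm_num
    have hRm : R ∈ Subgroup.closure {rot ((3 : ℝ) • mkq 1 (-1) 0 0), rot (mkq 3 (-1) (-2) (-2))} := by
      have h1 : rot ((3 : ℝ) • mkq 1 (-1) 0 0) ∈ Subgroup.closure
          {rot ((3 : ℝ) • mkq 1 (-1) 0 0), rot (mkq 3 (-1) (-2) (-2))} :=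
        Subgroup.subset_closure (by simp)
      rw [hP] at h1 ⊢
      have h2 := inv_mem h1
      rwa [inv_inv] at h2
    have hQm : rot (mkq 3 (-1) (-2) (-2)) ∈ Subgroup.closure
        {rot ((3 : ℝ) • mkq 1 (-1) 0 0), rot (mkq 3 (-1) (-2) (-2))} :=
      Subgroup.subset_closure (by simp)
    set Γ := Subgroup.closure {rot ((3 : ℝ) • mkq 1 (-1) 0 0), rot (mkq 3 (-1) (-2) (-2))} with hΓ
    -- the second quarter turn
    have hQ : rot (mkq 3 (-1) (-2) (-2)) = Dh 1 * R * Dh 1 := by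
      rw [D1, hR, ← rot_mul hD1 hR0, ← rot_mul (mul_ne_zero hD1 hR0) hD1]
      refine (rot_eq_of (-1) (by norm_num) ?_).symm
      ext <;> simp <;> norm_num
    -- the quarter turn permutes the diagonals cyclically
    have hc1 : Dh 1 * R = R * Dh 2 := by
      rw [D1, D2, hR, ← rot_mul hD1 hR0, ← rot_mul hR0 hD2]
      refine rot_eq_of (-1) (by norm_num) ?_
      ext <;> simp
    have hc2 : Dh 2 * R = R * Dh 0 := by
      rw [D2, D0, hR, ← rot_mul hD2 hR0, ← rot_mul hR0 hD0]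
      refine rot_eq_of (-1) (by norm_num) ?_
      ext <;> simp
    have hc3 : Dh 0 * R = R * Dh 3 := by
      rw [D0, D3, hR, ← rot_mul hD0 hR0, ← rot_mul hR0 hD3]
      refine rot_eq_of (-1) (by norm_num) ?_
      ext <;> simp
    have m21 : Dh 2 * Dh 1 ∈ Γ := by
      have h1 := mul_mem (inv_mem hRm) hQm
      rw [hQ, hc1] at h1
      simpa [mul_assoc] using h1
    have m02 : Dh 0 * Dh 2 ∈ Γ := by
      have h1 := mul_mem (mul_mem (inv_mem hRm) m21) hRm
      have e : R⁻¹ * (Dh 2 * Dh 1) * R = Dh 0 * Dh 2 := by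
        rw [mul_assoc, mul_assoc, hc1, ← mul_assoc (Dh 2), hc2, mul_assoc, inv_mul_cancel_left]
      rwa [e] at h1
    have m30 : Dh 3 * Dh 0 ∈ Γ := by
      have h1 := mul_mem (mul_mem (inv_mem hRm) m02) hRm
      have e : R⁻¹ * (Dh 0 * Dh 2) * R = Dh 3 * Dh 0 := by
        rw [mul_assoc, mul_assoc, hc2, ← mul_assoc (Dh 0), hc3, mul_assoc, inv_mul_cancel_left]
      rwa [e] at h1
    have m01 : Dh 0 * Dh 1 ∈ Γ := by
      have h1 := mul_mem m02 m21
      have e : Dh 0 * Dh 2 * (Dh 2 * Dh 1) = Dh 0 * Dh 1 := by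
        rw [mul_assoc, ← mul_assoc (Dh 2), Dh_sq, one_mul]
      rwa [e] at h1
    have m31 : Dh 3 * Dh 1 ∈ Γ := by
      have h1 := mul_mem m30 m01
      have e : Dh 3 * Dh 0 * (Dh 0 * Dh 1) = Dh 3 * Dh 1 := by
        rw [mul_assoc, ← mul_assoc (Dh 0), Dh_sq, one_mul]
      rwa [e] at h1
    refine Pq_of_mem (Dh 1) fun j => ?_
    fin_cases j
    · exact m01
    · change Dh 1 * Dh 1 ∈ Γ
      rw [Dh_sq]
      exact one_mem _
    · exact m21
    · exact m31

/-- Two rotations by sixty degrees. -/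
theorem seed_six : Seed (3 / 4) (1 / 3) := by
  refine seed_of_pair (P := mkq 3 (-1) (-1) (-1)) (Q := mkq 3 (-1) (-1) 1) (n := 12)
    (by norm_num) ?_ ?_ rfl ?_ (by norm_num) ?_ ?_
  · rw [normSq_eq]
    norm_num
  · rw [normSq_eq]
    norm_num
  · norm_num
  · simp
    norm_num
  · have hP0 : mkq 3 (-1) (-1) (-1) ≠ 0 := mkq_ne (by norm_num)
    have hQ0 : mkq 3 (-1) (-1) 1 ≠ 0 := mkq_ne (by norm_num)
    have hD1 : mkq 0 1 (-1) (-1) ≠ 0 := mkq_ne (by norm_num)
    have hD2 : mkq 0 (-1) 1 (-1) ≠ 0 := mkq_ne (by norm_num)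
    have hD3 : mkq 0 (-1) (-1) 1 ≠ 0 := mkq_ne (by norm_num)
    set Γ := Subgroup.closure {rot (mkq 3 (-1) (-1) (-1)), rot (mkq 3 (-1) (-1) 1)} with hΓ
    have hPm : rot (mkq 3 (-1) (-1) (-1)) ∈ Γ := Subgroup.subset_closure (by simp)
    have hQm : rot (mkq 3 (-1) (-1) 1) ∈ Γ := Subgroup.subset_closure (by simp)
    have m0 : Dh 0 ∈ Γ := by
      have h1 := pow_mem hPm 3
      rw [← rot_pow hP0] at h1
      have e : rot (mkq 3 (-1) (-1) (-1) ^ 3) = Dh 0 := by
        rw [D0]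
        refine rot_eq_of (-24) (by norm_num) ?_
        rw [pow_succ, pow_succ, pow_one]
        ext <;> simp <;> norm_num
      rwa [e] at h1
    have m3 : Dh 3 ∈ Γ := by
      have h1 := pow_mem hQm 3
      rw [← rot_pow hQ0] at h1
      have e : rot (mkq 3 (-1) (-1) 1 ^ 3) = Dh 3 := by
        rw [D3]
        refine rot_eq_of 24 (by norm_num) ?_
        rw [pow_succ, pow_succ, pow_one]
        ext <;> simp <;> norm_num
      rwa [e] at h1
    set T : SO3 := rot (mkq 1 (-1) (-1) (-1)) with hT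
    have hT0 : mkq 1 (-1) (-1) (-1) ≠ 0 := mkq_ne (by norm_num)
    have hTm : T ∈ Γ := by
      have h1 := pow_mem hPm 2
      rw [← rot_pow hP0] at h1
      have e : rot (mkq 3 (-1) (-1) (-1) ^ 2) = T := by
        refine rot_eq_of 6 (by norm_num) ?_
        rw [pow_two]
        ext <;> simp <;> norm_num
      rwa [e] at h1
    have hc3 : Dh 3 * T = T * Dh 1 := by
      rw [D1, D3, hT, ← rot_mul hD3 hT0, ← rot_mul hT0 hD1]
      congr 1
      ext <;> simp
      norm_num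
    have hc1 : Dh 1 * T = T * Dh 2 := by
      rw [D1, D2, hT, ← rot_mul hD1 hT0, ← rot_mul hT0 hD2]
      congr 1
      ext <;> simp
      norm_num
    have m1 : Dh 1 ∈ Γ := by
      have h1 := mul_mem (mul_mem (inv_mem hTm) m3) hTm
      rwa [mul_assoc, hc3, inv_mul_cancel_left] at h1
    have m2 : Dh 2 ∈ Γ := by
      have h1 := mul_mem (mul_mem (inv_mem hTm) m1) hTm
      rwa [mul_assoc, hc1, inv_mul_cancel_left] at h1
    refine Pq_of_mem 1 fun j => ?_
    rw [mul_one]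
    fin_cases j
    · exact m0
    · exact m1
    · exact m2
    · exact m3

end Pool.Agent.MP_2915c1_al
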