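import Pool.Agent.Lib.MP_2915c1_al.DenseSeeds

set_option autoImplicit false

/-!
Density of the partners with a spectral gap.
-/

noncomputable section

namespace Pool.Agent.MP_2915c1_al

open MeasureTheory Quaternion Set Filter Matrix Topology

lemma unit_circ {b : ℍ[ℝ]} (hb : normSq b = 1) (hB : b.re ^ 2 < 1) :
    ∃ v : ℍ[ℝ], v.re = 0 ∧ v * v = -1 ∧ circ v (Real.arccos b.re) = b := by
  obtain ⟨h1, h2, h3⟩ := axis_spec hb (rfl : b.re = b.re) (sqrt_facts hB).1 (sqrt_facts hB).2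
  refine ⟨_, h1, h2, ?_⟩
  unfold circ
  rw [Real.sin_arccos, Real.cos_arccos (by nlinarith) (by nlinarith)]
  exact h3

lemma trace_rot {b : ℍ[ℝ]} (hb : normSq b = 1) : (rot b).1.trace = 4 * b.re ^ 2 - 1 := by
  rw [rot_val_unit hb, Matrix.trace, Fin.sum_univ_three]
  rw [normSq_eq] at hb
  simp [rotM]
  linear_combination (-1) * hb

lemma circ_re (v : ℍ[ℝ]) (hv : v.re = 0) (t : ℝ) : (circ v t).re = Real.cos t := by
  unfold circ
  simp [hv]

lemma continuousOn_trace (a b : ℍ[ℝ]) :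
    ContinuousOn (fun v : V => (a * (q v * b * (q v)⁻¹)).re) {v | q v ≠ 0} := by
  have h1 : ContinuousOn (fun v : V => (q v)⁻¹) {v | q v ≠ 0} :=
    continuous_q.continuousOn.inv₀ fun v hv => hv
  exact Quaternion.continuous_re.comp_continuousOn
    (continuousOn_const.mul ((continuous_q.continuousOn.mul continuousOn_const).mul h1))

lemma q_zero_iff (v : V) : q v = 0 ↔ v = 0 := by
  constructor
  · intro h
    by_contra h1
    exact q_ne_zero h1 h
  · rintro rfl
    ext <;> rfl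

/-- Conjugating the second element inside an open set moves the half trace of the product. -/
lemma move_in (a b : ℍ[ℝ]) (ha : normSq a = 1) (hb : normSq b = 1) (hA : a.re ^ 2 < 1)
    (hB : b.re ^ 2 < 1) {U : Set SO3} (hU : IsOpen U) (hne : U.Nonempty) :
    ∃ x y : ℝ, x < y ∧ (∀ X ∈ Ioo x y, 0 < Dl a.re b.re X) ∧ ∀ X ∈ Ioo x y, ∃ v : V,
      q v ≠ 0 ∧ rq v ∈ U ∧ (a * (q v * b * (q v)⁻¹)).re = X := by
  obtain ⟨g₀, hgU⟩ := hne
  set O : Set V := {v | v ≠ 0} ∩ rq ⁻¹' U with hO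
  have hOo : IsOpen O := continuousOn_rq.isOpen_inter_preimage isOpen_ne hU
  obtain ⟨c, hc, hcg⟩ := exists_unit g₀
  have hcO : qi c ∈ O := by
    refine ⟨?_, ?_⟩
    · intro h
      have := (q_zero_iff (qi c)).mpr h
      rw [q_qi] at this
      exact ne_zero_of_unit hc this
    · rw [mem_preimage, rq, q_qi, hcg]
      exact hgU
  obtain ⟨ε, hε, hball⟩ := Metric.isOpen_iff.mp hOo _ hcO
  have hbo : IsOpen (Metric.ball (qi c) ε) := Metric.isOpen_ball
  have hbn : (Metric.ball (qi c) ε).Nonempty := ⟨_, Metric.mem_ball_self hε⟩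
  have hX : ∀ S : Set ℝ, volume S = 0 → ∃ v ∈ Metric.ball (qi c) ε,
      (a * (q v * b * (q v)⁻¹)).re ∉ S ∧
      0 < Dl a.re b.re ((a * (q v * b * (q v)⁻¹)).re) := by
    intro S hS
    have h1 := Measure.dense_of_ae (ae_trace a b ha hb hA hB hS)
    obtain ⟨v, hv, hv2⟩ := h1.exists_mem_open hbo hbn
    exact ⟨v, hv2, hv⟩
  obtain ⟨v₀, hv₀, -, hD₀⟩ := hX ∅ (by simp)
  obtain ⟨v₁, hv₁, hne, hD₁⟩ := hX {(a * (q v₀ * b * (q v₀)⁻¹)).re} (by simp)
  have hcont : ContinuousOn (fun v : V => (a * (q v * b * (q v)⁻¹)).re)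
      (Metric.ball (qi c) ε) := by
    refine (continuousOn_trace a b).mono fun v hv => ?_
    exact q_ne_zero (hball hv).1
  have hpre : IsPreconnected (Metric.ball (qi c) ε) := (convex_ball (qi c) ε).isPreconnected
  have key : ∀ w₀ ∈ Metric.ball (qi c) ε, ∀ w₁ ∈ Metric.ball (qi c) ε,
      (a * (q w₀ * b * (q w₀)⁻¹)).re < (a * (q w₁ * b * (q w₁)⁻¹)).re →
      0 < Dl a.re b.re ((a * (q w₀ * b * (q w₀)⁻¹)).re) →
      0 < Dl a.re b.re ((a * (q w₁ * b * (q w₁)⁻¹)).re) →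
      ∃ x y : ℝ, x < y ∧ (∀ X ∈ Ioo x y, 0 < Dl a.re b.re X) ∧ ∀ X ∈ Ioo x y, ∃ v : V,
        q v ≠ 0 ∧ rq v ∈ U ∧ (a * (q v * b * (q v)⁻¹)).re = X := by
    intro w₀ h0 w₁ h1 hlt d0 d1
    refine ⟨_, _, hlt, fun X hX =>
      (convex_Dl a.re b.re).ordConnected.out d0 d1 (Ioo_subset_Icc_self hX), fun X hXI => ?_⟩
    obtain ⟨v, hv, hvX⟩ := hpre.intermediate_value h0 h1 hcont (Ioo_subset_Icc_self hXI)
    exact ⟨v, q_ne_zero (hball hv).1, (hball hv).2, hvX⟩
  have hne' : (a * (q v₁ * b * (q v₁)⁻¹)).re ≠ (a * (q v₀ * b * (q v₀)⁻¹)).re := hne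
  rcases lt_or_gt_of_ne hne' with h | h
  · exact key v₁ hv₁ v₀ hv₀ h hD₁ hD₀
  · exact key v₀ hv₀ v₁ hv₁ h hD₀ hD₁

lemma re_lt_of_ne {a : ℍ[ℝ]} (ha : normSq a = 1) (h : rot a ≠ 1) : a.re ^ 2 < 1 := by
  by_contra h1
  exact h (rot_eq_one ha h1)

theorem dense_of_seed {C2 c₀ : ℝ} (hseed : Seed C2 c₀) (hc0 : 0 ≤ c₀) (hc1 : c₀ ≤ 1)
    (hC : C2 < 1) (a b : SO3) (ha : a ≠ 1) (hb : ∃ m : ℕ, (b ^ m).1.trace = 4 * C2 - 1) :
    Dense {g : SO3 | HasSpectralGap (pairSet a (g * b * g⁻¹))} := by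
  obtain ⟨a', ha', rfl⟩ := exists_unit a
  obtain ⟨b', hb', rfl⟩ := exists_unit b
  obtain ⟨m, hm⟩ := hb
  have hA : a'.re ^ 2 < 1 := re_lt_of_ne ha' ha
  have hB : b'.re ^ 2 < 1 := by
    refine re_lt_of_ne hb' fun h => ?_
    rw [h, one_pow] at hm
    simp at hm
    linarith
  have hb0 := ne_zero_of_unit hb'
  have hcos : Real.cos (m * Real.arccos b'.re) ^ 2 = C2 := by
    obtain ⟨v, h1, h2, h3⟩ := unit_circ hb' hB
    have hu : normSq (b' ^ m) = 1 := by rw [map_pow, hb', one_pow]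
    rw [← rot_pow hb0, trace_rot hu] at hm
    have h4 : (b' ^ m).re = Real.cos (m * Real.arccos b'.re) := by
      conv_lhs => rw [← h3, circ_pow v h2, circ_re v h1]
    rw [← h4]
    linarith
  intro g₀
  rw [mem_closure_iff]
  intro U hU hgU
  obtain ⟨x, y, hxy, hD, hX⟩ := move_in a' b' ha' hb' hA hB hU ⟨g₀, hgU⟩
  obtain ⟨X, hXI, hP⟩ := dense_words hseed hc0 hc1 hA hB hcos hxy hD
  obtain ⟨v, hv, hvU, hvX⟩ := hX X hXI
  refine ⟨rq v, hvU, ?_⟩
  change HasSpectralGap (pairSet (rot a') (rot (q v) * rot b' * (rot (q v))⁻¹))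
  rw [gap_iff_NX a' b' (q v) ha' hb' hA hv, hvX]
  intro hN
  exact hN hP

/-- Some power is a rotation by 60 degrees, by 90 degrees or by `arccos (-1/3)`. -/
def Special (b : SO3) : Prop :=
  ∃ m : ℕ, (b ^ m).1.trace = 2 ∨ (b ^ m).1.trace = 1 ∨ (b ^ m).1.trace = 1 / 3

theorem dense_special (a b : SO3) (ha : a ≠ 1) (hb : Special b) :
    Dense {g : SO3 | HasSpectralGap (pairSet a (g * b * g⁻¹))} := by
  obtain ⟨m, hm | hm | hm⟩ := hb
  · exact dense_of_seed seed_six (by norm_num) (by norm_num) (by norm_num) a b ha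
      ⟨m, by rw [hm]; norm_num⟩
  · exact dense_of_seed seed_four (by norm_num) (by norm_num) (by norm_num) a b ha
      ⟨m, by rw [hm]; norm_num⟩
  · exact dense_of_seed seed_LPS (by norm_num) (by norm_num) (by norm_num) a b ha
      ⟨m, by rw [hm]; norm_num⟩

lemma gap_pair_symm {a b : SO3} (h : HasSpectralGap (pairSet a b)) :
    HasSpectralGap (pairSet b a) :=
  gap_pair_mono _ _ _ _ (Subgroup.subset_closure (by simp)) (Subgroup.subset_closure (by simp)) h

/-- Two conjugacy classes, one of them special. -/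
theorem dense_conj (a b : SO3) (ha : a ≠ 1) (hb : b ≠ 1) (h : Special a ∨ Special b) :
    Dense {g : SO3 | HasSpectralGap (pairSet a (g * b * g⁻¹))} := by
  rcases h with h | h
  · have h1 := dense_special b a hb h
    have h2 := h1.preimage (Homeomorph.inv SO3).isOpenMap
    refine h2.mono fun g hg => ?_
    have h3 : HasSpectralGap (pairSet b (g⁻¹ * a * g⁻¹⁻¹)) := hg
    have h4 := gap_pair_symm (gap_conj g h3)
    have e : g * (g⁻¹ * a * g⁻¹⁻¹) * g⁻¹ = a := by group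
    rw [e] at h4
    exact h4
  · exact dense_special a b ha h

/-- angles with a multiple of cosine squared `1/3` are dense -/
lemma dense_angle (t δ : ℝ) (hδ : 0 < δ) : ∃ s : ℝ, |s - t| < δ ∧ ∃ m : ℕ,
    Real.cos (m * s) ^ 2 = 1 / 3 := by
  have hpi := Real.pi_pos
  set α : ℝ := Real.arccos (1 / Real.sqrt 3) with hα
  have h3 : (0 : ℝ) < Real.sqrt 3 := Real.sqrt_pos.mpr (by norm_num)
  have hs3 : Real.sqrt 3 ^ 2 = 3 := Real.sq_sqrt (by norm_num)
  have h1 : (1 / Real.sqrt 3) ^ 2 = 1 / 3 := by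
    rw [div_pow, hs3, one_pow]
  have hcα : Real.cos α ^ 2 = 1 / 3 := by
    have h0 : 0 < 1 / Real.sqrt 3 := by positivity
    rw [hα, Real.cos_arccos (by linarith) (by nlinarith), h1]
  obtain ⟨m, hm⟩ := exists_nat_gt (Real.pi / δ)
  have hm0 : (0 : ℝ) < m := lt_of_le_of_lt (by positivity) hm
  have hmδ : Real.pi < m * δ := by
    rwa [div_lt_iff₀ hδ] at hm
  set j : ℤ := ⌊(m * t - α) / Real.pi⌋ with hj
  have hj1 : (j : ℝ) * Real.pi ≤ m * t - α := by
    have := Int.floor_le ((m * t - α) / Real.pi)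
    rwa [le_div_iff₀ hpi] at this
  have hj2 : m * t - α < (j + 1) * Real.pi := by
    have := Int.lt_floor_add_one ((m * t - α) / Real.pi)
    rwa [div_lt_iff₀ hpi] at this
  refine ⟨(α + j * Real.pi) / m, ?_, m, ?_⟩
  · have e : (α + j * Real.pi) / m - t = -((m * t - α - j * Real.pi) / m) := by
      field_simp
      ring
    rw [e, abs_neg, abs_of_nonneg (div_nonneg (by linarith) hm0.le), div_lt_iff₀ hm0]
    linarith
  · have e : (m : ℝ) * ((α + j * Real.pi) / m) = α + j * Real.pi := by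
      field_simp
    have h5 : ((-1 : ℝ) ^ j) ^ 2 = 1 := by
      rcases Int.even_or_odd j with h | h
      · rw [h.neg_one_zpow, one_pow]
      · rw [h.neg_one_zpow]
        norm_num
    rw [e, Real.cos_add_int_mul_pi, mul_pow, hcα, h5, one_mul]

lemma exists_axis (b : ℍ[ℝ]) (hb : normSq b = 1) : ∃ (v : ℍ[ℝ]) (t : ℝ), v.re = 0 ∧
    v * v = -1 ∧ rot (circ v t) = rot b := by
  by_cases hB : b.re ^ 2 < 1
  · obtain ⟨v, h1, h2, h3⟩ := unit_circ hb hB
    exact ⟨v, _, h1, h2, by rw [h3]⟩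
  · refine ⟨mkq 0 1 0 0, 0, rfl, ?_, ?_⟩
    · ext <;> simp
    · rw [circ_zero, rot_one, rot_eq_one hb hB]

lemma continuous_circ (v : ℍ[ℝ]) : Continuous (circ v) := by
  have e : circ v = fun t => Real.cos t • (1 : ℍ[ℝ]) + Real.sin t • v := by
    funext t
    unfold circ
    rw [real_smul_one]
  rw [e]
  exact (Real.continuous_cos.smul continuous_const).add
    (Real.continuous_sin.smul continuous_const)

theorem dense_partner (a : SO3) (ha : a ≠ 1) :
    Dense {b : SO3 | HasSpectralGap (pairSet a b)} := by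
  intro b₀
  rw [mem_closure_iff]
  intro U hU hbU
  obtain ⟨b', hb', rfl⟩ := exists_unit b₀
  obtain ⟨v, t, hv0, hv, hrot⟩ := exists_axis b' hb'
  have hcr : Continuous (fun s : ℝ => rot (circ v s)) := by
    have h1 : ContinuousOn rq {v | v ≠ 0} := continuousOn_rq
    have h2 : Continuous (fun s : ℝ => qi (circ v s)) := continuous_qi.comp (continuous_circ v)
    have h3 : Continuous (fun s : ℝ => rq (qi (circ v s))) := by
      rw [← continuousOn_univ]
      refine h1.comp h2.continuousOn fun s _ => ?_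
      intro h
      have := (q_zero_iff (qi (circ v s))).mpr h
      rw [q_qi] at this
      exact ne_zero_of_unit (circ_unit hv0 hv s) this
    have e : (fun s : ℝ => rq (qi (circ v s))) = fun s : ℝ => rot (circ v s) := by
      funext s
      rw [rq, q_qi]
    rwa [e] at h3
  have hopen : (fun s : ℝ => rot (circ v s)) ⁻¹' U ∈ 𝓝 t :=
    (hU.preimage hcr).mem_nhds (by rw [mem_preimage, hrot]; exact hbU)
  obtain ⟨δ, hδ, hball⟩ := Metric.mem_nhds_iff.mp hopen
  obtain ⟨s, hs, m, hm⟩ := dense_angle t δ hδ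
  have hsU : rot (circ v s) ∈ U := hball (by rw [Metric.mem_ball, Real.dist_eq]; exact hs)
  have hcu := circ_unit hv0 hv s
  have htr : ((rot (circ v s)) ^ m).1.trace = 1 / 3 := by
    have hu : normSq (circ v s ^ m) = 1 := by rw [map_pow, hcu, one_pow]
    rw [← rot_pow (ne_zero_of_unit hcu), trace_rot hu, circ_pow v hv, circ_re v hv0, hm]
    norm_num
  have hd := dense_special a (rot (circ v s)) ha ⟨m, Or.inr (Or.inr htr)⟩
  have hc : Continuous (fun g : SO3 => g * rot (circ v s) * g⁻¹) := by fun_prop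
  obtain ⟨g, hg, hgU⟩ := hd.exists_mem_open (hU.preimage hc)
    ⟨1, by rw [mem_preimage, one_mul, inv_one, mul_one]; exact hsU⟩
  exact ⟨_, hgU, hg⟩

end Pool.Agent.MP_2915c1_al
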