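import Pool.Agent.Lib.MP_2915c1_al.DenseThm

set_option autoImplicit false

/-!
Density of the tuples with a spectral gap in every product of three non-trivial conjugacy classes.
-/

noncomputable section

namespace Pool.Agent.MP_2915c1_al

open MeasureTheory Quaternion Set Filter Matrix Topology

lemma cos_mul_arccos (m : ℕ) (s : ℝ) :
    Real.cos (m * Real.arccos (Real.cos s)) = Real.cos (m * s) := by
  have h1 := Polynomial.Chebyshev.T_real_cos (Real.arccos (Real.cos s)) m
  have h2 := Polynomial.Chebyshev.T_real_cos s m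
  rw [Real.cos_arccos (Real.neg_one_le_cos s) (Real.cos_le_one s)] at h1
  rw [h1] at h2
  exact_mod_cast h2

/-- The product of elements of two non-trivial classes can be made special. -/
lemma exists_special (a b : SO3) (ha : a ≠ 1) (hb : b ≠ 1) {U : Set SO3} (hU : IsOpen U)
    (hne : U.Nonempty) : ∃ s ∈ U, Special (a * (s * b * s⁻¹)) := by
  obtain ⟨a', ha', rfl⟩ := exists_unit a
  obtain ⟨b', hb', rfl⟩ := exists_unit b
  have hA := re_lt_of_ne ha' ha
  obtain ⟨x, y, hxy, hD, hX⟩ := move_in a' b' ha' hb' hA (re_lt_of_ne hb' hb) hU hne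
  set c : ℝ := (x + y) / 2 with hc
  have hcI : c ∈ Ioo x y := ⟨by linarith, by linarith⟩
  have hc2 := one_sub_sq_pos hA (hD c hcI)
  have hcos : Real.cos (Real.arccos c) = c := Real.cos_arccos (by nlinarith) (by nlinarith)
  have hopen : Real.cos ⁻¹' (Ioo x y) ∈ 𝓝 (Real.arccos c) :=
    (isOpen_Ioo.preimage Real.continuous_cos).mem_nhds (by rw [mem_preimage, hcos]; exact hcI)
  obtain ⟨δ, hδ, hball⟩ := Metric.mem_nhds_iff.mp hopen
  obtain ⟨s, hs, m, hm⟩ := dense_angle (Real.arccos c) δ hδ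
  have hsI : Real.cos s ∈ Ioo x y := hball (by rw [Metric.mem_ball, Real.dist_eq]; exact hs)
  obtain ⟨v, hv, hvU, hvX⟩ := hX _ hsI
  refine ⟨rq v, hvU, m, Or.inr (Or.inr ?_)⟩
  set p := a' * (q v * b' * (q v)⁻¹) with hp
  have ha0 := ne_zero_of_unit ha'
  have hb0 := ne_zero_of_unit hb'
  have hcj : q v * b' = (q v * b' * (q v)⁻¹) * q v := by
    rw [mul_assoc, mul_assoc, inv_mul_cancel₀ hv, mul_one]
  have hn := normSq_conj hv hcj
  rw [hb'] at hn
  have hpu : normSq p = 1 := by
    rw [hp, map_mul, ha', ← hn, one_mul]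
  have hpr : p.re ^ 2 < 1 := by
    have := one_sub_sq_pos hA (hD _ hsI)
    rw [hvX]
    linarith
  have e : rot a' * (rq v * rot b' * (rq v)⁻¹) = rot p := by
    rw [hp, rot_mul ha0 (ne_zero_of_unit hn.symm), rot_conj hb0 hv]
    rfl
  obtain ⟨w, w0, w1, w2⟩ := unit_circ hpu hpr
  have hpm : normSq (p ^ m) = 1 := by rw [map_pow, hpu, one_pow]
  have h4 : (p ^ m).re = Real.cos (m * s) := by
    conv_lhs => rw [← w2, circ_pow w w1, circ_re w w0, hvX]
    exact cos_mul_arccos m s
  rw [e, ← rot_pow (ne_zero_of_unit hpu), trace_rot hpm, h4, hm]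
  norm_num

/-- In every product of conjugacy classes, at least three of them non-trivial, the tuples with a
spectral gap are dense. -/
theorem dense_tuple {n : ℕ} (x : Fin n → SO3) {i j k : Fin n} (hij : i ≠ j) (hik : i ≠ k)
    (hjk : j ≠ k) (hi : x i ≠ 1) (hj : x j ≠ 1) (hk : x k ≠ 1) :
    Dense {g : Fin n → SO3 | HasSpectralGap (tupleSet fun l => g l * x l * (g l)⁻¹)} := by
  intro g₀
  rw [mem_closure_iff]
  intro U hU hgU
  have hφ : Continuous (fun z : SO3 × SO3 =>
      Function.update (Function.update g₀ j z.1) k z.2) := by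
    refine continuous_pi fun l => ?_
    by_cases hk' : l = k
    · subst hk'
      simp only [Function.update_self]
      exact continuous_snd
    · simp only [Function.update_of_ne hk']
      by_cases hj' : l = j
      · subst hj'
        simp only [Function.update_self]
        exact continuous_fst
      · simp only [Function.update_of_ne hj']
        exact continuous_const
  have hφ0 : Function.update (Function.update g₀ j (g₀ j)) k (g₀ k) = g₀ := by
    rw [Function.update_eq_self, Function.update_eq_self]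
  have hV : (fun z : SO3 × SO3 => Function.update (Function.update g₀ j z.1) k z.2) ⁻¹' U ∈
      𝓝 (g₀ j, g₀ k) := by
    refine (hU.preimage hφ).mem_nhds ?_
    rw [mem_preimage]
    change Function.update (Function.update g₀ j (g₀ j)) k (g₀ k) ∈ U
    rw [hφ0]
    exact hgU
  obtain ⟨Uj, hUj, Uk, hUk, hsub⟩ := mem_nhds_prod_iff.mp hV
  obtain ⟨Vj, hVjs, hVj, hgj⟩ := mem_nhds_iff.mp hUj
  obtain ⟨Vk, hVks, hVk, hgk⟩ := mem_nhds_iff.mp hUk
  have hconj : ∀ (g y : SO3), y ≠ 1 → g * y * g⁻¹ ≠ 1 := by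
    intro g y hy h
    exact hy (conj_eq_one_iff.mp h)
  obtain ⟨s, hs, hsp⟩ := exists_special (g₀ i * x i * (g₀ i)⁻¹) (x j) (hconj _ _ hi) hj hVj
    ⟨_, hgj⟩
  set a := g₀ i * x i * (g₀ i)⁻¹ with ha
  set r := a * (s * x j * s⁻¹) with hr
  have hd := dense_special (g₀ k * x k * (g₀ k)⁻¹) r (hconj _ _ hk) hsp
  have hc : Continuous (fun g : SO3 => g⁻¹ * g₀ k) := by fun_prop
  obtain ⟨g, hg, hgV⟩ := hd.exists_mem_open (hVk.preimage hc)
    ⟨1, by rw [mem_preimage, inv_one, one_mul]; exact hgk⟩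
  have h1 : HasSpectralGap (pairSet (g₀ k * x k * (g₀ k)⁻¹) (g * r * g⁻¹)) := hg
  have h2 := gap_conj g⁻¹ h1
  set t := g⁻¹ * g₀ k with ht
  have e1 : g⁻¹ * (g₀ k * x k * (g₀ k)⁻¹) * g⁻¹⁻¹ = t * x k * t⁻¹ := by
    rw [ht]
    group
  have e2 : g⁻¹ * (g * r * g⁻¹) * g⁻¹⁻¹ = r := by group
  rw [e1, e2] at h2
  have hst : (s, t) ∈ Uj ×ˢ Uk := ⟨hVjs hs, hVks hgV⟩
  refine ⟨Function.update (Function.update g₀ j s) k t, hsub hst, ?_⟩
  set G := Function.update (Function.update g₀ j s) k t with hG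
  have hGk : G k = t := by rw [hG, Function.update_self]
  have hGj : G j = s := by rw [hG, Function.update_of_ne hjk, Function.update_self]
  have hGi : G i = g₀ i := by rw [hG, Function.update_of_ne hik, Function.update_of_ne hij]
  have hm : ∀ l, G l * x l * (G l)⁻¹ ∈ Subgroup.closure
      ((tupleSet fun l => G l * x l * (G l)⁻¹ : Finset SO3) : Set SO3) := fun l =>
    Subgroup.subset_closure ((mem_tupleSet _ _).mpr (Or.inl ⟨l, rfl⟩))
  have mk := hm k
  have mi := hm i
  have mj := hm j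
  rw [hGk] at mk
  rw [hGj] at mj
  rw [hGi] at mi
  have mr : r ∈ Subgroup.closure
      ((tupleSet fun l => G l * x l * (G l)⁻¹ : Finset SO3) : Set SO3) := mul_mem mi mj
  refine gap_mono _ _ ?_ h2
  intro y hy
  have h3 : y ∈ Subgroup.closure ((pairSet (t * x k * t⁻¹) r : Finset SO3) : Set SO3) :=
    Subgroup.subset_closure hy
  rw [closure_pairSet] at h3
  refine (Subgroup.closure_le _).mpr ?_ h3
  rintro y (rfl | hy)
  · exact mk
  · rw [mem_singleton_iff] at hy
    rw [hy]
    exact mr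

end Pool.Agent.MP_2915c1_al
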