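import Pool.Agent.Lib.MP_2915c1_al.ConjHaar

set_option autoImplicit false

/-!
Words in a pair of rotations which move the axis of the second rotation to an orthogonal axis.
-/

namespace Pool.Agent.MP_2915c1_al

open MeasureTheory Quaternion Set Filter Matrix

lemma re_comm (a b : ℍ[ℝ]) : (a * b).re = (b * a).re := by
  simp
  ring

lemma rot_star {a : ℍ[ℝ]} (ha : normSq a = 1) : rot (star a) = (rot a)⁻¹ := by
  rw [← rot_inv (ne_zero_of_unit ha), Quaternion.inv_def, ha, inv_one, one_smul]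

lemma normSq_star' {a : ℍ[ℝ]} (ha : normSq a = 1) : normSq (star a) = 1 := by
  rw [Quaternion.normSq_star, ha]

/-- Words in `a` and `b X` as functions of the parameter `X`. -/
structure Wd (I : Set ℝ) (a : ℍ[ℝ]) (b : ℝ → ℍ[ℝ]) (W : ℝ → ℍ[ℝ]) : Prop where
  cont : ContinuousOn W I
  unit : ∀ X ∈ I, normSq (W X) = 1
  mem : ∀ X ∈ I, rot (W X) ∈ Subgroup.closure {rot a, rot (b X)}

section

variable {I : Set ℝ} {a : ℍ[ℝ]} {b : ℝ → ℍ[ℝ]}

lemma Wd.mul {W W' : ℝ → ℍ[ℝ]} (h : Wd I a b W) (h' : Wd I a b W') :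
    Wd I a b (fun X => W X * W' X) where
  cont := h.cont.mul h'.cont
  unit X hX := by rw [map_mul, h.unit X hX, h'.unit X hX, one_mul]
  mem X hX := by
    rw [rot_mul (ne_zero_of_unit (h.unit X hX)) (ne_zero_of_unit (h'.unit X hX))]
    exact mul_mem (h.mem X hX) (h'.mem X hX)

lemma Wd.star {W : ℝ → ℍ[ℝ]} (h : Wd I a b W) : Wd I a b (fun X => star (W X)) where
  cont := continuous_star.comp_continuousOn h.cont
  unit X hX := normSq_star' (h.unit X hX)
  mem X hX := by
    rw [rot_star (h.unit X hX)]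
    exact inv_mem (h.mem X hX)

lemma Wd.pow {W : ℝ → ℍ[ℝ]} (h : Wd I a b W) (n : ℕ) : Wd I a b (fun X => W X ^ n) where
  cont := h.cont.pow n
  unit X hX := by rw [map_pow, h.unit X hX, one_pow]
  mem X hX := by
    rw [rot_pow (ne_zero_of_unit (h.unit X hX))]
    exact pow_mem (h.mem X hX) n

lemma Wd.fst (ha : normSq a = 1) : Wd I a b (fun _ => a) where
  cont := continuousOn_const
  unit _ _ := ha
  mem _ _ := Subgroup.subset_closure (by simp)

lemma Wd.snd (hb : ContinuousOn b I) (hb1 : ∀ X ∈ I, normSq (b X) = 1) : Wd I a b b where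
  cont := hb
  unit := hb1
  mem _ _ := Subgroup.subset_closure (by simp)

end

lemma normSq_of_sq {v : ℍ[ℝ]} (hv0 : v.re = 0) (hv : v * v = -1) : normSq v = 1 := by
  have h := congrArg QuaternionAlgebra.re hv
  rw [normSq_eq]
  simp [hv0] at h
  rw [hv0]
  linarith

lemma real_smul_one (x : ℝ) : (x : ℍ[ℝ]) = x • (1 : ℍ[ℝ]) := by
  ext <;> simp

lemma re_circ (v q : ℍ[ℝ]) (hv0 : v.re = 0) (hv : v * v = -1) (hq0 : q.re = 0)
    (hq : q * q = -1) (t : ℝ) :
    -(circ v t * q * circ v (-t) * q).re =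
      (v * q).re ^ 2 + (1 - (v * q).re ^ 2) * Real.cos (2 * t) := by
  have h1 : normSq (v * q) = 1 := by
    rw [map_mul, normSq_of_sq hv0 hv, normSq_of_sq hq0 hq, one_mul]
  have h2 := sq_unit h1
  have e : circ v t * q * circ v (-t) * q =
      (Real.cos t * Real.cos t) • (q * q) - (Real.cos t * Real.sin t) • (q * v * q) +
        (Real.sin t * Real.cos t) • (v * (q * q)) -
        (Real.sin t * Real.sin t) • ((v * q) * (v * q)) := by
    unfold circ
    rw [Real.cos_neg, Real.sin_neg, real_smul_one]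
    simp only [mul_add, add_mul, smul_mul_assoc, mul_smul_comm, one_mul, mul_one, mul_assoc,
      neg_smul, mul_neg, neg_mul, smul_add, smul_smul]
    module
  have h3 : (q * v * q).re = 0 := by
    simp [hv0, hq0]
    ring
  rw [e, h2, hq]
  simp only [Quaternion.re_add, Quaternion.re_sub, Quaternion.re_smul, smul_eq_mul,
    Quaternion.re_one, Quaternion.re_neg, h3, mul_neg, mul_one, hv0]
  rw [Real.cos_two_mul]
  have h4 := Real.sin_sq t
  linear_combination (2 * (v * q).re ^ 2 - 1) * h4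

lemma exists_cos_le {θ : ℝ} (h0 : 0 < θ) (h1 : θ < 2 * Real.pi) :
    ∃ l : ℕ, Real.cos (l * θ) ≤ -1 / 2 := by
  have hpi := Real.pi_pos
  have key : ∀ x : ℝ, 2 * Real.pi / 3 ≤ x → x ≤ 4 * Real.pi / 3 → Real.cos x ≤ -1 / 2 := by
    have h2 : Real.cos (2 * Real.pi / 3) = -1 / 2 := by
      have : 2 * Real.pi / 3 = Real.pi - Real.pi / 3 := by ring
      rw [this, Real.cos_pi_sub, Real.cos_pi_div_three]
      ring
    intro x hx1 hx2
    rcases le_total x Real.pi with h | h
    · rw [← h2]
      exact Real.cos_le_cos_of_nonneg_of_le_pi (by positivity) h hx1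
    · rw [← h2, ← Real.cos_two_pi_sub]
      exact Real.cos_le_cos_of_nonneg_of_le_pi (by positivity) (by linarith) (by linarith)
  have main : ∀ θ : ℝ, 0 < θ → θ ≤ Real.pi → ∃ l : ℕ, Real.cos (l * θ) ≤ -1 / 2 := by
    intro θ h0 h1
    by_cases h : θ ≤ 2 * Real.pi / 3
    · refine ⟨⌈2 * Real.pi / 3 / θ⌉₊, key _ ?_ ?_⟩
      · have := Nat.le_ceil (2 * Real.pi / 3 / θ)
        rwa [div_le_iff₀ h0] at this
      · have := Nat.ceil_lt_add_one (a := 2 * Real.pi / 3 / θ) (by positivity)
        have h3 := mul_lt_mul_of_pos_right this h0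
        rw [add_mul, div_mul_cancel₀ _ h0.ne'] at h3
        linarith
    · refine ⟨1, key _ ?_ ?_⟩
      · rw [Nat.cast_one, one_mul]
        exact (not_le.mp h).le
      · rw [Nat.cast_one, one_mul]
        linarith
  rcases le_or_gt θ Real.pi with h | h
  · exact main θ h0 h
  · obtain ⟨l, hl⟩ := main (2 * Real.pi - θ) (by linarith) (by linarith)
    refine ⟨l, ?_⟩
    have e : (l : ℝ) * (2 * Real.pi - θ) = (l : ℝ) * (2 * Real.pi) - l * θ := by ring
    rwa [e, Real.cos_nat_mul_two_pi_sub] at hl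

/-- The cosine of the angle between the axis `v` and its image. -/
noncomputable def fW (v w : ℍ[ℝ]) : ℝ := -(v * (w * v * star w)).re

lemma conj_pure {v w : ℍ[ℝ]} (hv0 : v.re = 0) (hw : normSq w = 1) :
    (w * v * star w).re = 0 := by
  rw [re_comm, ← mul_assoc, star_mul_unit hw, one_mul, hv0]

lemma conj_sq {v w : ℍ[ℝ]} (hv : v * v = -1) (hw : normSq w = 1) :
    (w * v * star w) * (w * v * star w) = -1 := by
  have e : (w * v * star w) * (w * v * star w) = w * (v * ((star w * w) * v)) * star w := by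
    simp only [mul_assoc]
  rw [e, star_mul_unit hw, one_mul, hv, mul_neg, mul_one, neg_mul, mul_star_unit hw]

lemma fW_one {v : ℍ[ℝ]} (hv : v * v = -1) (w : ℍ[ℝ]) (hw : w = 1 ∨ w = -1) : fW v w = 1 := by
  unfold fW
  rcases hw with rfl | rfl
  · simp [hv]
  · simp [hv]

lemma star_circ {n : ℍ[ℝ]} (hn0 : n.re = 0) (t : ℝ) : star (circ n t) = circ n (-t) := by
  unfold circ
  rw [star_add, Real.cos_neg, Real.sin_neg, Quaternion.star_coe, Quaternion.star_smul]
  congr 1
  have : star n = -n := by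
    rw [Quaternion.star_eq_two_re_sub, hn0]
    simp
  rw [this]
  simp

/-- The first step. -/
lemma fW_circ {v n : ℍ[ℝ]} (hv0 : v.re = 0) (hv : v * v = -1) (hn0 : n.re = 0)
    (hn : n * n = -1) (t : ℝ) :
    fW v (circ n t) = (n * v).re ^ 2 + (1 - (n * v).re ^ 2) * Real.cos (2 * t) := by
  unfold fW
  rw [star_circ hn0, re_comm, re_circ n v hn0 hn hv0 hv]

lemma circ_unit {v : ℍ[ℝ]} (hv0 : v.re = 0) (hv : v * v = -1) (t : ℝ) :
    normSq (circ v t) = 1 := by
  have h := normSq_of_sq hv0 hv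
  rw [normSq_eq] at h ⊢
  rw [hv0] at h
  unfold circ
  simp [hv0]
  linear_combination (Real.sin t ^ 2) * h + Real.sin_sq_add_cos_sq t

lemma circ_comm_self {v : ℍ[ℝ]} (t : ℝ) : circ v t * v = v * circ v t := by
  unfold circ
  rw [real_smul_one]
  simp only [mul_add, add_mul, smul_mul_assoc, mul_smul_comm, one_mul, mul_one]

/-- The doubling step: a commutator of a word with a rotation about the axis `v`. -/
lemma fW_comm {v w : ℍ[ℝ]} (hv0 : v.re = 0) (hv : v * v = -1) (hw : normSq w = 1) (t : ℝ) :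
    fW v (circ v t * star w * star (circ v t) * w) =
      fW v w ^ 2 + (1 - fW v w ^ 2) * Real.cos (2 * t) := by
  set q := w * v * star w with hq
  have hq0 : q.re = 0 := conj_pure hv0 hw
  have hqq : q * q = -1 := conj_sq hv hw
  have hf : fW v w = -(v * q).re := rfl
  have hc : star (circ v t) * circ v t = 1 := star_mul_unit (circ_unit hv0 hv t)
  have key : (v * ((circ v t * star w * star (circ v t) * w) * v *
      star (circ v t * star w * star (circ v t) * w))).re =
      (circ v t * q * circ v (-t) * q).re := by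
    simp only [star_mul, star_star]
    have e1 : v * (circ v t * star w * star (circ v t) * w * v *
        (star w * (circ v t * (w * star (circ v t))))) =
        (v * circ v t * star w * star (circ v t) * w * v * star w * circ v t * w) *
          star (circ v t) := by
      simp only [mul_assoc]
    rw [e1, re_comm]
    have e2 : star (circ v t) *
        (v * circ v t * star w * star (circ v t) * w * v * star w * circ v t * w) =
        (v * star w * star (circ v t) * w * v * star w * circ v t) * w := by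
      rw [← circ_comm_self]
      simp only [← mul_assoc]
      rw [hc, one_mul]
    rw [e2, re_comm]
    have e3 : w * (v * star w * star (circ v t) * w * v * star w * circ v t) =
        (q * star (circ v t) * q) * circ v t := by
      rw [hq]
      simp only [mul_assoc]
    rw [e3, re_comm, star_circ hv0]
    simp only [mul_assoc]
  unfold fW at hf ⊢
  rw [key, re_circ v q hv0 hv hq0 hqq, hf, neg_sq]

/-- If no word of the kernel at `X₀` turns the axis at `X₁` by more than a right angle, there is a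
contradiction. -/
lemma exists_turn {I : Set ℝ} {a : ℍ[ℝ]} {b : ℝ → ℍ[ℝ]} {X₀ X₁ : ℝ} (hI1 : X₁ ∈ I)
    (hb : Wd I a b b) {v : ℍ[ℝ]} (hv0 : v.re = 0) (hv : v * v = -1) {β : ℝ} (hβ0 : 0 < β)
    (hβ1 : β < Real.pi) (hbv : b X₁ = circ v β) {Z : ℝ → ℍ[ℝ]} (hZ : Wd I a b Z)
    (hZ0 : Z X₀ = 1 ∨ Z X₀ = -1) (hZ1 : fW v (Z X₁) < 1) (hI0 : X₀ ∈ I) :
    ∃ W, Wd I a b W ∧ (W X₀ = 1 ∨ W X₀ = -1) ∧ fW v (W X₁) < 0 := by
  by_contra hcon
  push Not at hcon
  obtain ⟨l, hl⟩ := exists_cos_le (θ := 2 * β) (by linarith) (by linarith)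
  have hstep : ∀ k : ℕ, ∃ W, Wd I a b W ∧ (W X₀ = 1 ∨ W X₀ = -1) ∧
      (3 / 2 : ℝ) ^ k * (1 - fW v (Z X₁)) ≤ 1 - fW v (W X₁) := by
    intro k
    induction k with
    | zero => exact ⟨Z, hZ, hZ0, by simp⟩
    | succ k ih =>
      obtain ⟨W, hW, hW0, hW1⟩ := ih
      have hb0 : b X₀ ^ l * star (b X₀ ^ l) = 1 := mul_star_unit ((hb.pow l).unit X₀ hI0)
      refine ⟨fun X => b X ^ l * star (W X) * star (b X ^ l) * W X,
        (((hb.pow l).mul hW.star).mul (hb.pow l).star).mul hW, ?_, ?_⟩
      · rcases hW0 with h | h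
        · left
          change b X₀ ^ l * star (W X₀) * star (b X₀ ^ l) * W X₀ = 1
          rw [h, star_one, mul_one, mul_one, hb0]
        · left
          change b X₀ ^ l * star (W X₀) * star (b X₀ ^ l) * W X₀ = 1
          rw [h, star_neg, star_one, mul_neg, mul_neg, neg_mul, neg_mul, neg_neg, mul_one,
            mul_one, hb0]
      · change _ ≤ 1 - fW v (b X₁ ^ l * star (W X₁) * star (b X₁ ^ l) * W X₁)
        rw [hbv, circ_pow v hv, fW_comm hv0 hv (hW.unit X₁ hI1)]
        have h0 := hcon W hW hW0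
        have h1 : Real.cos (2 * (l * β)) ≤ -1 / 2 := by
          have e : 2 * ((l : ℝ) * β) = l * (2 * β) := by ring
          rw [e]
          exact hl
        have h2 : (0 : ℝ) ≤ (3 / 2 : ℝ) ^ k * (1 - fW v (Z X₁)) :=
          mul_nonneg (by positivity) (by linarith)
        have h3 : fW v (W X₁) ≤ 1 := by linarith
        rw [pow_succ]
        nlinarith [mul_nonneg (sub_nonneg.mpr h3) h0,
          mul_nonneg (mul_nonneg (sub_nonneg.mpr h3) (by linarith : (0 : ℝ) ≤ 1 + fW v (W X₁)))
            (by linarith : (0 : ℝ) ≤ -1 / 2 - Real.cos (2 * (l * β)))]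
  have hδ : 0 < 1 - fW v (Z X₁) := by linarith
  obtain ⟨k, hk⟩ := pow_unbounded_of_one_lt (1 / (1 - fW v (Z X₁))) (by norm_num : (1 : ℝ) < 3 / 2)
  rw [div_lt_iff₀ hδ] at hk
  obtain ⟨W, hW, hW0, hW1⟩ := hstep k
  have := hcon W hW hW0
  linarith

/-- Every two rotations with the squared cosine `C2` of the half angle and with the cosine `c` of
the angle between the axes have a gap. -/
def Seed (C2 c : ℝ) : Prop := ∀ (v q : ℍ[ℝ]) (t : ℝ), v.re = 0 → v * v = -1 → q.re = 0 →
  q * q = -1 → (v * q).re = -c → Real.cos t ^ 2 = C2 → Pq (circ v t) (circ q t)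

lemma Pq_of_seed {v w : ℍ[ℝ]} {C2 c t : ℝ} (hs : Seed C2 c) (hv0 : v.re = 0)
    (hv : v * v = -1) (hw : normSq w = 1) (hf : fW v w = c) (ht : Real.cos t ^ 2 = C2) :
    Pq (circ v t) (w * circ v t * star w) := by
  set q := w * v * star w with hq
  have e1 : w * circ v t * star w = circ q t := by
    unfold circ
    rw [real_smul_one]
    simp only [mul_add, add_mul, smul_mul_assoc, mul_smul_comm, mul_one, mul_star_unit hw, hq]
  rw [e1]
  refine hs v q t hv0 hv (conj_pure hv0 hw) (conj_sq hv hw) ?_ ht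
  unfold fW at hf
  rw [← hq] at hf
  linarith

/-- A seed from an explicit pair of quaternions. -/
lemma seed_of_pair {P Q : ℍ[ℝ]} {n C2 c : ℝ} (hn : 0 < n) (hP : normSq P = n)
    (hQ : normSq Q = n) (hre : P.re = Q.re) (hC : P.re ^ 2 = n * C2) (hC1 : C2 < 1)
    (hPQ : (P * Q).re = n * (C2 - (1 - C2) * c)) (h : Pq P Q) : Seed C2 c := by
  intro v q t hv0 hv hq0 hqq hvq ht
  set s : ℝ := 1 / Real.sqrt n with hs
  have hn' : n ≠ 0 := hn.ne'
  have hs2 : s ^ 2 = 1 / n := by
    rw [hs, div_pow, Real.sq_sqrt hn.le, one_pow]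
  have hs0 : s ≠ 0 := by
    intro h0
    rw [h0] at hs2
    have : 0 < 1 / n := by positivity
    rw [← hs2] at this
    norm_num at this
  have hu1 : normSq (s • P) = 1 := by
    rw [Quaternion.normSq_smul, hP, hs2]
    field_simp
  have hu2 : normSq (s • Q) = 1 := by
    rw [Quaternion.normSq_smul, hQ, hs2]
    field_simp
  have hr1 : (s • P).re = s * P.re := by simp
  have hr2 : (s • Q).re = s * P.re := by simp [hre]
  have hsr : (s * P.re) ^ 2 = C2 := by
    rw [mul_pow, hs2, hC]
    field_simp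
  have hrr : (s • P * s • Q).re = C2 - (1 - C2) * c := by
    rw [smul_mul_assoc, mul_smul_comm, smul_smul, Quaternion.re_smul, smul_eq_mul, hPQ, ← sq, hs2]
    field_simp
  have hst : Pq (s • P) (s • Q) := by
    unfold Pq at h ⊢
    rwa [rot_smul s hs0, rot_smul s hs0]
  rw [Pq_nf _ _ hu1 hu2 (by rw [hr1, hsr]; exact hC1), hr1, hr2, hrr] at hst
  have key : ∀ x y : ℍ[ℝ], normSq x = 1 → normSq y = 1 → x.re = s * P.re → y.re = s * P.re →
      (x * y).re = C2 - (1 - C2) * c → Pq x y := by
    intro x y hx hy hxr hyr hxy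
    rw [Pq_nf x y hx hy (by rw [hxr, hsr]; exact hC1), hxr, hyr, hxy]
    exact hst
  have hx := circ_unit hv0 hv t
  have hy := circ_unit hq0 hqq t
  have hxy : (circ v t * circ q t).re = C2 - (1 - C2) * c := by
    have e : circ v t * circ q t = (Real.cos t * Real.cos t) • (1 : ℍ[ℝ]) +
        (Real.cos t * Real.sin t) • q + (Real.sin t * Real.cos t) • v +
          (Real.sin t * Real.sin t) • (v * q) := by
      unfold circ
      rw [real_smul_one]
      simp only [mul_add, add_mul, smul_mul_assoc, mul_smul_comm, one_mul, mul_one]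
      module
    rw [e]
    simp only [Quaternion.re_add, Quaternion.re_smul, smul_eq_mul, Quaternion.re_one, hvq, hq0,
      hv0]
    linear_combination ht - c * Real.sin_sq_add_cos_sq t + c * ht
  have hre' : ∀ m : ℍ[ℝ], m.re = 0 → (circ m t).re = Real.cos t := by
    intro m hm
    unfold circ
    simp [hm]
  have hcs : Real.cos t = s * P.re ∨ Real.cos t = -(s * P.re) := by
    have h4 : Real.cos t ^ 2 = (s * P.re) ^ 2 := by rw [ht, hsr]
    exact sq_eq_sq_iff_eq_or_eq_neg.mp h4
  rcases hcs with h6 | h6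
  · exact key _ _ hx hy (by rw [hre' v hv0, h6]) (by rw [hre' q hq0, h6]) hxy
  · have h5 := key ((-1 : ℝ) • circ v t) ((-1 : ℝ) • circ q t)
      (by rw [Quaternion.normSq_smul, hx]; norm_num)
      (by rw [Quaternion.normSq_smul, hy]; norm_num)
      (by rw [Quaternion.re_smul, hre' v hv0, h6]; simp)
      (by rw [Quaternion.re_smul, hre' q hq0, h6]; simp)
      (by rw [smul_mul_assoc, mul_smul_comm, smul_smul, Quaternion.re_smul, hxy]; norm_num)
    unfold Pq at h5 ⊢
    rwa [rot_smul (-1) (by norm_num), rot_smul (-1) (by norm_num)] at h5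

end Pool.Agent.MP_2915c1_al
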