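import Pool.Agent.Lib.MP_2915c1_al.HaarQuat

set_option autoImplicit false

/-!
Displacement functions and the spectral gap.
-/

namespace Pool.Agent.MP_2915c1_al

open MeasureTheory Set Filter Matrix DomMulAct

/-- The Hilbert space. -/
abbrev H : Type := Lp ℂ 2 haar

/-- Left translation of functions: `(tr s f) g = f (s g)`. -/
noncomputable def tr (s : SO3) (f : H) : H := DomMulAct.mk s • f

/-- Displacement. -/
noncomputable def dis (s : SO3) (f : H) : ℝ := ‖tr s f - f‖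

lemma tr_mul (s t : SO3) (f : H) : tr (s * t) f = tr t (tr s f) := by
  unfold tr
  rw [smul_smul]
  rfl

lemma tr_one (f : H) : tr 1 f = f := by
  unfold tr
  rw [mk_one, one_smul]

lemma tr_sub (s : SO3) (f g : H) : tr s (f - g) = tr s f - tr s g :=
  DomMulAct.smul_Lp_sub _ _ _

lemma norm_tr (s : SO3) (f : H) : ‖tr s f‖ = ‖f‖ := DomMulAct.norm_smul_Lp _ _

lemma dis_nonneg (s : SO3) (f : H) : 0 ≤ dis s f := norm_nonneg _

lemma dis_one (f : H) : dis 1 f = 0 := by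
  unfold dis
  rw [tr_one, sub_self, norm_zero]

lemma dis_mul (s t : SO3) (f : H) : dis (s * t) f ≤ dis s f + dis t f := by
  unfold dis
  rw [tr_mul]
  calc ‖tr t (tr s f) - f‖ = ‖tr t (tr s f - f) + (tr t f - f)‖ := by
        rw [tr_sub]; congr 1; abel
    _ ≤ ‖tr t (tr s f - f)‖ + ‖tr t f - f‖ := norm_add_le _ _
    _ = _ := by rw [norm_tr]

lemma dis_inv (s : SO3) (f : H) : dis s⁻¹ f = dis s f := by
  unfold dis
  have h : tr s (tr s⁻¹ f - f) = f - tr s f := by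
    rw [tr_sub, ← tr_mul, inv_mul_cancel, tr_one]
  rw [← norm_tr s, h, norm_sub_rev]

lemma dis_closure (S : Finset SO3) (x : SO3) (hx : x ∈ Subgroup.closure (S : Set SO3)) :
    ∃ C : ℝ, 0 < C ∧ ∀ f : H, dis x f ≤ C * ∑ s ∈ S, dis s f := by
  have hnn : ∀ f : H, 0 ≤ ∑ s ∈ S, dis s f := fun f => Finset.sum_nonneg (fun s _ => dis_nonneg s f)
  induction hx using Subgroup.closure_induction with
  | mem x hx =>
    refine ⟨1, one_pos, fun f => ?_⟩
    rw [one_mul]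
    exact Finset.single_le_sum (f := fun s => dis s f) (fun s _ => dis_nonneg s f) hx
  | one =>
    refine ⟨1, one_pos, fun f => ?_⟩
    rw [dis_one, one_mul]
    exact hnn f
  | mul x y _ _ hx hy =>
    obtain ⟨C, hC, h1⟩ := hx
    obtain ⟨D, hD, h2⟩ := hy
    refine ⟨C + D, by positivity, fun f => ?_⟩
    calc dis (x * y) f ≤ dis x f + dis y f := dis_mul x y f
      _ ≤ C * ∑ s ∈ S, dis s f + D * ∑ s ∈ S, dis s f := add_le_add (h1 f) (h2 f)
      _ = _ := by ring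
  | inv x _ hx =>
    obtain ⟨C, hC, h1⟩ := hx
    exact ⟨C, hC, fun f => by rw [dis_inv]; exact h1 f⟩

/-- Functions of mean zero. -/
def mean0 (f : H) : Prop := ∫ g, f g ∂haar = 0

/-- Norm form of the spectral gap. -/
def GapN (S : Finset SO3) : Prop :=
  ∃ c : ℝ, 0 < c ∧ ∀ f : H, mean0 f → c * ‖f‖ ≤ ∑ s ∈ S, dis s f

lemma norm_toLp_sq (f : SO3 → ℂ) (hf : MemLp f 2 haar) :
    ∫ g, ‖f g‖ ^ 2 ∂haar = ‖hf.toLp f‖ ^ 2 := by
  rw [← inner_self_eq_norm_sq (𝕜 := ℂ), L2.inner_def]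
  have h1 : ∀ g, inner ℂ ((hf.toLp f : SO3 → ℂ) g) ((hf.toLp f : SO3 → ℂ) g) =
      (((‖(hf.toLp f : SO3 → ℂ) g‖ ^ 2 : ℝ)) : ℂ) := by
    intro g
    rw [inner_self_eq_norm_sq_to_K]
    simp
  simp_rw [h1]
  rw [integral_complex_ofReal]
  simp only [RCLike.re_to_complex, Complex.ofReal_re]
  refine integral_congr_ae ?_
  filter_upwards [hf.coeFn_toLp] with g hg
  rw [hg]

lemma tr_toLp_ae (s : SO3) (f : SO3 → ℂ) (hf : MemLp f 2 haar) :
    ((tr s (hf.toLp f) : H) : SO3 → ℂ) =ᵐ[haar] fun g => f (s * g) := by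
  have h := DomMulAct.mk_smul_toLp (μ := haar) (p := 2) s hf
  have h2 : tr s (hf.toLp f) = (hf.comp_measurePreserving <| measurePreserving_smul s haar).toLp
    (fun g => f (s • g)) := h
  rw [h2]
  exact MemLp.coeFn_toLp _

lemma integral_term (s : SO3) (f : SO3 → ℂ) (hf : MemLp f 2 haar) :
    Integrable (fun g => f (s * g) * (starRingEnd ℂ) (f g)) haar ∧
    (∫ g, f (s * g) * (starRingEnd ℂ) (f g) ∂haar).re =
      ‖hf.toLp f‖ ^ 2 - (1 / 2) * (dis s (hf.toLp f)) ^ 2 := by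
  have hae : (fun g => inner ℂ ((hf.toLp f : SO3 → ℂ) g) ((tr s (hf.toLp f) : SO3 → ℂ) g)) =ᵐ[haar]
      fun g => f (s * g) * (starRingEnd ℂ) (f g) := by
    filter_upwards [hf.coeFn_toLp, tr_toLp_ae s f hf] with g h1 h2
    rw [h1, h2]
    simp [RCLike.inner_apply]
  constructor
  · exact (L2.integrable_inner (𝕜 := ℂ) (hf.toLp f) (tr s (hf.toLp f))).congr hae
  · have h1 : ∫ g, f (s * g) * (starRingEnd ℂ) (f g) ∂haar =
        inner ℂ (hf.toLp f) (tr s (hf.toLp f)) := by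
      rw [L2.inner_def]
      exact (integral_congr_ae hae).symm
    rw [h1]
    have h2 := re_inner_eq_norm_mul_self_add_norm_mul_self_sub_norm_sub_mul_self_div_two
      (𝕜 := ℂ) (hf.toLp f) (tr s (hf.toLp f))
    simp only [RCLike.re_to_complex] at h2
    rw [h2, norm_tr, norm_sub_rev]
    unfold dis
    ring

lemma integral_sum (S : Finset SO3) (f : SO3 → ℂ) (hf : MemLp f 2 haar) :
    (∫ g, (∑ s ∈ S, f (s * g)) * (starRingEnd ℂ) (f g) ∂haar).re =
      (S.card : ℝ) * ‖hf.toLp f‖ ^ 2 - (1 / 2) * ∑ s ∈ S, (dis s (hf.toLp f)) ^ 2 := by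
  simp_rw [Finset.sum_mul]
  rw [integral_finsetSum _ (fun s _ => (integral_term s f hf).1), Complex.re_sum,
    Finset.sum_congr rfl (fun s _ => (integral_term s f hf).2), Finset.sum_sub_distrib,
    Finset.sum_const, Finset.mul_sum, nsmul_eq_mul]

lemma mean0_toLp (f : SO3 → ℂ) (hf : MemLp f 2 haar) :
    mean0 (hf.toLp f) ↔ ∫ g, f g ∂haar = 0 := by
  unfold mean0
  rw [integral_congr_ae hf.coeFn_toLp]

lemma hasSpectralGap_iff_sq (S : Finset SO3) : HasSpectralGap S ↔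
    ∃ ε : ℝ, 0 < ε ∧ ∀ F : H, mean0 F → ε * ‖F‖ ^ 2 ≤ (1 / 2) * ∑ s ∈ S, (dis s F) ^ 2 := by
  constructor
  · rintro ⟨ε, hε, h⟩
    refine ⟨ε, hε, fun F hF => ?_⟩
    have hf : MemLp (F : SO3 → ℂ) 2 haar := Lp.memLp F
    have hFe : hf.toLp (F : SO3 → ℂ) = F := Lp.toLp_coeFn F hf
    have h1 := h F hf hF
    rw [integral_sum S F hf, norm_toLp_sq F hf, hFe] at h1
    linarith
  · rintro ⟨ε, hε, h⟩
    refine ⟨ε, hε, fun f hf hm => ?_⟩
    have h1 := h (hf.toLp f) ((mean0_toLp f hf).mpr hm)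
    rw [integral_sum S f hf, norm_toLp_sq f hf]
    linarith

lemma hasSpectralGap_iff (S : Finset SO3) : HasSpectralGap S ↔ GapN S := by
  rw [hasSpectralGap_iff_sq]
  have hnn : ∀ f : H, 0 ≤ ∑ s ∈ S, dis s f := fun f => Finset.sum_nonneg (fun s _ => dis_nonneg s f)
  constructor
  · rintro ⟨ε, hε, h⟩
    refine ⟨Real.sqrt (2 * ε), Real.sqrt_pos.mpr (by positivity), fun F hF => ?_⟩
    have h1 := h F hF
    have h2 : ∑ s ∈ S, (dis s F) ^ 2 ≤ (∑ s ∈ S, dis s F) ^ 2 := by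
      rw [sq, Finset.sum_mul]
      refine Finset.sum_le_sum fun s hs => ?_
      rw [sq]
      exact mul_le_mul_of_nonneg_left
        (Finset.single_le_sum (f := fun s => dis s F) (fun s _ => dis_nonneg s F) hs)
        (dis_nonneg s F)
    have h3 : (Real.sqrt (2 * ε) * ‖F‖) ^ 2 ≤ (∑ s ∈ S, dis s F) ^ 2 := by
      rw [mul_pow, Real.sq_sqrt (by positivity)]
      linarith
    exact (pow_le_pow_iff_left₀ (by positivity) (hnn F) two_ne_zero).mp h3
  · rintro ⟨c, hc, h⟩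
    refine ⟨c ^ 2 / (2 * (S.card + 1)), by positivity, fun F hF => ?_⟩
    have h1 := h F hF
    have h2 : (c * ‖F‖) ^ 2 ≤ (∑ s ∈ S, dis s F) ^ 2 :=
      pow_le_pow_left₀ (by positivity) h1 2
    have h3 : (∑ s ∈ S, dis s F) ^ 2 ≤ (S.card : ℝ) * ∑ s ∈ S, (dis s F) ^ 2 :=
      sq_sum_le_card_mul_sum_sq
    have h4 : 0 ≤ ∑ s ∈ S, (dis s F) ^ 2 := Finset.sum_nonneg (fun s _ => sq_nonneg _)
    have h5 : c ^ 2 * ‖F‖ ^ 2 ≤ ((S.card : ℝ) + 1) * ∑ s ∈ S, (dis s F) ^ 2 := by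
      rw [← mul_pow]
      nlinarith
    have hpos : (0 : ℝ) < 2 * (S.card + 1) := by positivity
    rw [div_mul_eq_mul_div, div_le_iff₀ hpos]
    nlinarith

/-- Monotonicity of the spectral gap. -/
lemma gap_mono (S T : Finset SO3)
    (hST : ∀ t ∈ T, t ∈ Subgroup.closure (S : Set SO3)) (hT : HasSpectralGap T) :
    HasSpectralGap S := by
  rw [hasSpectralGap_iff] at hT ⊢
  obtain ⟨c, hc, h⟩ := hT
  have hnn : ∀ f : H, 0 ≤ ∑ s ∈ S, dis s f := fun f => Finset.sum_nonneg (fun s _ => dis_nonneg s f)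
  have key : ∃ C : ℝ, 0 < C ∧ ∀ f : H, ∑ t ∈ T, dis t f ≤ C * ∑ s ∈ S, dis s f := by
    clear h
    induction T using Finset.induction_on with
    | empty => exact ⟨1, one_pos, fun f => by simpa using hnn f⟩
    | insert t T ht ih =>
      obtain ⟨C, hC, h1⟩ := ih (fun t' ht' => hST t' (Finset.mem_insert_of_mem ht'))
      obtain ⟨D, hD, h2⟩ := dis_closure S t (hST t (Finset.mem_insert_self _ _))
      refine ⟨D + C, by positivity, fun f => ?_⟩
      rw [Finset.sum_insert ht, add_mul]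
      exact add_le_add (h2 f) (h1 f)
  obtain ⟨C, hC, h1⟩ := key
  refine ⟨c / C, by positivity, fun f hf => ?_⟩
  rw [div_mul_eq_mul_div, div_le_iff₀ hC, mul_comm _ C]
  exact (h f hf).trans (h1 f)

end Pool.Agent.MP_2915c1_al
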