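import Pool.Agent.Lib.MP_2915c1_al.ThmZ

set_option autoImplicit false

/-!
Generic pairs of rotations generate dense subgroups.
-/

namespace Pool.Agent.MP_2915c1_al

open MeasureTheory Set Filter Matrix Topology

/-- Every element of the subgroup generated by a pair moves continuously with the pair. -/
lemma word_continuous (a b x : SO3) (hx : x ∈ Subgroup.closure {a, b}) :
    ∃ φ : SO3 × SO3 → SO3, Continuous φ ∧ φ (a, b) = x ∧
      ∀ p : SO3 × SO3, φ p ∈ Subgroup.closure {p.1, p.2} := by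
  induction hx using Subgroup.closure_induction with
  | mem x hx =>
    rcases hx with rfl | hx
    · exact ⟨Prod.fst, continuous_fst, rfl, fun p => Subgroup.subset_closure (by simp)⟩
    · rw [Set.mem_singleton_iff] at hx
      subst hx
      exact ⟨Prod.snd, continuous_snd, rfl, fun p => Subgroup.subset_closure (by simp)⟩
  | one => exact ⟨fun _ => 1, continuous_const, rfl, fun p => one_mem _⟩
  | mul x y _ _ hx hy =>
    obtain ⟨φ, h1, h2, h3⟩ := hx
    obtain ⟨ψ, h4, h5, h6⟩ := hy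
    exact ⟨fun p => φ p * ψ p, h1.mul h4, congrArg₂ (· * ·) h2 h5, fun p => mul_mem (h3 p) (h6 p)⟩
  | inv x _ hx =>
    obtain ⟨φ, h1, h2, h3⟩ := hx
    exact ⟨fun p => (φ p)⁻¹, h1.inv, congrArg (·⁻¹) h2, fun p => inv_mem (h3 p)⟩

/-- Pairs whose generated subgroup meets `U`. -/
def hits (U : Set SO3) : Set (SO3 × SO3) :=
  {p | ∃ x ∈ U, x ∈ Subgroup.closure {p.1, p.2}}

lemma isOpen_hits (U : Set SO3) (hU : IsOpen U) : IsOpen (hits U) := by
  rw [isOpen_iff_mem_nhds]
  rintro ⟨a, b⟩ ⟨x, hxU, hx⟩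
  obtain ⟨φ, h1, h2, h3⟩ := word_continuous a b x hx
  have h4 : φ ⁻¹' U ∈ 𝓝 (a, b) := by
    refine h1.continuousAt.preimage_mem_nhds ?_
    rw [h2]
    exact hU.mem_nhds hxU
  refine mem_of_superset h4 ?_
  intro p hp
  exact ⟨φ p, hp, h3 p⟩

instance haar2_openPos : (haar.prod haar).IsOpenPosMeasure := inferInstance

instance : BorelSpace (SO3 × SO3) := Prod.borelSpace

lemma ae_hits (U : Set SO3) (hU : IsOpen U) (hne : U.Nonempty) :
    ∀ᵐ p ∂(haar.prod haar), p ∈ hits U := by
  have hM : MeasurableSet (hits U)ᶜ := (isOpen_hits U hU).measurableSet.compl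
  have hz := zero_one_pairs (hits U)ᶜ hM (by
    intro a b a' b' h ha hb hcon
    apply h
    obtain ⟨x, hxU, hx⟩ := hcon
    refine ⟨x, hxU, ?_⟩
    have hle : Subgroup.closure {a', b'} ≤ Subgroup.closure {a, b} := by
      rw [Subgroup.closure_le]
      rintro y (rfl | hy)
      · exact ha
      · rw [Set.mem_singleton_iff] at hy
        rw [hy]
        exact hb
    exact hle hx)
  rcases hz with h | h
  · filter_upwards [h] with p hp
    exact not_not.mp hp
  · exfalso
    have hopen : IsOpen (U ×ˢ (Set.univ : Set SO3)) := hU.prod isOpen_univ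
    have hpos : 0 < (haar.prod haar) (U ×ˢ (Set.univ : Set SO3)) :=
      hopen.measure_pos _ (hne.prod Set.univ_nonempty)
    have h0 : (haar.prod haar) (U ×ˢ (Set.univ : Set SO3)) = 0 := by
      refine measure_mono_null ?_ (ae_iff.mp h)
      rintro ⟨a, b⟩ ⟨ha, _⟩ hcon
      exact hcon ⟨a, ha, Subgroup.subset_closure (by simp)⟩
    exact hpos.ne' h0

lemma hits_residual (U : Set SO3) (hU : IsOpen U) (hne : U.Nonempty) :
    hits U ∈ residual (SO3 × SO3) := by
  refine residual_of_dense_open (isOpen_hits U hU) ?_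
  exact Measure.dense_of_ae (μ := haar.prod haar) (ae_hits U hU hne)

/-- Pairs generating a dense subgroup. -/
def denseGen : Set (SO3 × SO3) :=
  {p | Dense ((Subgroup.closure {p.1, p.2} : Subgroup SO3) : Set SO3)}

lemma denseGen_eq : ∃ B : Set (Set SO3), B.Countable ∧ (∀ U ∈ B, IsOpen U ∧ U.Nonempty) ∧
    ∀ p : SO3 × SO3, (∀ U ∈ B, p ∈ hits U) → p ∈ denseGen := by
  refine ⟨TopologicalSpace.countableBasis SO3, TopologicalSpace.countable_countableBasis SO3,
    fun U hU => ⟨TopologicalSpace.isOpen_of_mem_countableBasis hU,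
      TopologicalSpace.nonempty_of_mem_countableBasis hU⟩, ?_⟩
  intro p hp
  refine (TopologicalSpace.isBasis_countableBasis SO3).dense_iff.mpr ?_
  intro U hU _
  obtain ⟨x, hxU, hx⟩ := hp U hU
  exact ⟨x, hxU, hx⟩

lemma denseGen_residual : denseGen ∈ residual (SO3 × SO3) := by
  obtain ⟨B, hB, h1, h2⟩ := denseGen_eq
  have h3 : (⋂ U ∈ B, hits U) ∈ residual (SO3 × SO3) :=
    (countable_bInter_mem hB).mpr (fun U hU => hits_residual U (h1 U hU).1 (h1 U hU).2)
  refine mem_of_superset h3 ?_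
  intro p hp
  exact h2 p (fun U hU => Set.mem_iInter₂.mp hp U hU)

lemma denseGen_ae : ∀ᵐ p ∂(haar.prod haar), p ∈ denseGen := by
  obtain ⟨B, hB, h1, h2⟩ := denseGen_eq
  have h3 : ∀ᵐ p ∂(haar.prod haar), ∀ U ∈ B, p ∈ hits U :=
    (ae_ball_iff hB).mpr (fun U hU => ae_hits U (h1 U hU).1 (h1 U hU).2)
  filter_upwards [h3] with p hp
  exact h2 p hp

end Pool.Agent.MP_2915c1_al
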