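import Pool.Agent.Lib.MP_2915c1_al.Quat

set_option autoImplicit false

/-!
The line lemma: transfer from the circle to affine lines `x + w`.
-/

namespace Pool.Agent.MP_2915c1_al

open MeasureTheory Quaternion Set Filter

lemma coe_eq_smul_one (x : ℝ) : (x : ℍ[ℝ]) = x • (1 : ℍ[ℝ]) := by
  ext <;> simp

lemma line_null (T : Set ℍ[ℝ]) (hs : ∀ a, ∀ r : ℝ, r ≠ 0 → (r • a ∈ T ↔ a ∈ T))
    (v : ℍ[ℝ])
    (h : ∀ᵐ θ ∂(volume.restrict (Ioc (-Real.pi) Real.pi)), circ v θ ∉ T)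
    (ρ : ℝ) (hρ : 0 < ρ) :
    ∀ᵐ x : ℝ, (x : ℍ[ℝ]) + ρ • v ∉ T := by
  let B : Set ℝ := {θ | θ ∈ Ioo 0 Real.pi ∧ circ v θ ∈ T}
  have hB : volume B = 0 := by
    rw [ae_restrict_iff' measurableSet_Ioc] at h
    refine measure_mono_null ?_ ((measure_eq_zero_iff_ae_notMem (s :=
      {θ | θ ∈ Ioc (-Real.pi) Real.pi ∧ circ v θ ∈ T})).mpr ?_)
    · rintro θ ⟨⟨h1, h2⟩, h3⟩
      exact ⟨⟨by linarith [Real.pi_pos], h2.le⟩, h3⟩
    · filter_upwards [h] with θ hθ
      rintro ⟨h1, h2⟩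
      exact hθ h1 h2
  let g : ℝ → ℝ := fun θ => ρ * Real.tan (Real.pi / 2 - θ)
  have hg : DifferentiableOn ℝ g B := by
    intro θ hθ
    apply DifferentiableAt.differentiableWithinAt
    apply DifferentiableAt.const_mul
    have hc : Real.cos (Real.pi / 2 - θ) ≠ 0 := by
      rw [Real.cos_pi_div_two_sub]
      exact (Real.sin_pos_of_pos_of_lt_pi hθ.1.1 hθ.1.2).ne'
    exact (Real.differentiableAt_tan.mpr hc).comp θ (by fun_prop)
  have hgB : volume (g '' B) = 0 :=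
    addHaar_image_eq_zero_of_differentiableOn_of_addHaar_eq_zero volume hg hB
  have hsub : {x : ℝ | (x : ℍ[ℝ]) + ρ • v ∈ T} ⊆ g '' B := by
    intro x hx
    let φ := Real.arctan (x / ρ)
    refine ⟨Real.pi / 2 - φ, ⟨⟨?_, ?_⟩, ?_⟩, ?_⟩
    · have := Real.arctan_lt_pi_div_two (x / ρ)
      change 0 < Real.pi / 2 - Real.arctan (x / ρ)
      linarith
    · have := Real.neg_pi_div_two_lt_arctan (x / ρ)
      change Real.pi / 2 - Real.arctan (x / ρ) < Real.pi
      linarith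
    · have hcos : 0 < Real.cos φ := Real.cos_arctan_pos _
      have hsin : Real.sin φ = x / ρ * Real.cos φ := by
        have := Real.tan_arctan (x / ρ)
        rw [Real.tan_eq_sin_div_cos] at this
        field_simp at this ⊢
        linarith
      have hc : circ v (Real.pi / 2 - φ) = (Real.cos φ / ρ) • ((x : ℍ[ℝ]) + ρ • v) := by
        unfold circ
        rw [Real.cos_pi_div_two_sub, Real.sin_pi_div_two_sub, hsin, smul_add, smul_smul,
          coe_eq_smul_one x, coe_eq_smul_one (x / ρ * Real.cos φ), smul_smul]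
        congr 2
        · field_simp
        · field_simp
      rw [hc]
      exact (hs _ _ (by positivity)).mpr hx
    · change ρ * Real.tan (Real.pi / 2 - (Real.pi / 2 - φ)) = x
      rw [sub_sub_cancel, Real.tan_arctan]
      field_simp
  have := measure_mono_null hsub hgB
  exact measure_eq_zero_iff_ae_notMem.mp this

/-- Line lemma. -/
lemma line_lemma (S : Set ℍ[ℝ]) (hS : MeasurableSet (q ⁻¹' S))
    (hs : ∀ a, ∀ r : ℝ, r ≠ 0 → (r • a ∈ S ↔ a ∈ S))
    (hsq : ∀ a, a ≠ 0 → a ∈ S → a * a ∈ S)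
    (w : ℍ[ℝ]) (hw0 : w.re = 0) (hw : w ≠ 0) :
    (∀ᵐ x : ℝ, (x : ℍ[ℝ]) + w ∉ S) ∨ (∀ᵐ x : ℝ, (x : ℍ[ℝ]) + w ∈ S) := by
  have hρ : 0 < ‖w‖ := norm_pos_iff.mpr hw
  let v : ℍ[ℝ] := ‖w‖⁻¹ • w
  have hv0 : v.re = 0 := by simp [v, hw0]
  have hv : v * v = -1 := by
    have h1 : w ^ 2 = -((normSq w : ℝ) : ℍ[ℝ]) := Quaternion.sq_eq_neg_normSq.mpr hw0
    have h2 : w * w = (-(‖w‖ * ‖w‖)) • (1 : ℍ[ℝ]) := by
      rw [← sq, h1, Quaternion.normSq_eq_norm_mul_self, coe_eq_smul_one, ← neg_smul]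
    simp only [v, smul_mul_assoc, mul_smul_comm, h2, smul_smul]
    have : ‖w‖⁻¹ * (‖w‖⁻¹ * -(‖w‖ * ‖w‖)) = -1 := by
      field_simp
    rw [this]; simp
  have hvw : ‖w‖ • v = w := by
    simp only [v, smul_smul]
    rw [mul_inv_cancel₀ hρ.ne', one_smul]
  rcases circle_lemma S hS hsq v hv0 hv with h | h
  · left
    have := line_null S hs v h ‖w‖ hρ
    rwa [hvw] at this
  · right
    have := line_null Sᶜ (fun a r hr => not_congr (hs a r hr)) v (by
      filter_upwards [h] with θ hθ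
      simpa using hθ) ‖w‖ hρ
    rw [hvw] at this
    filter_upwards [this] with x hx
    simpa using hx

end Pool.Agent.MP_2915c1_al
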