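import Pool.Agent.Lib.MP_2915c1_al.Generic
import Pool.Agent.Lib.MP_2915c1_al.Closed

set_option autoImplicit false

/-!
Pairs and tuples of rotations with a spectral gap.
-/

namespace Pool.Agent.MP_2915c1_al

open MeasureTheory Set Filter Matrix Topology

/-- The family attached to a pair. -/
def fam (p : SO3 × SO3) (i : Bool) : SO3 := if i then p.1 else p.2

lemma continuous_fam (i : Bool) : Continuous (fun p => fam p i) := by
  cases i
  · exact continuous_snd
  · exact continuous_fst

lemma range_fam (p : SO3 × SO3) : Set.range (fam p) = {p.1, p.2} := by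
  ext x
  simp only [Set.mem_range, Bool.exists_bool, fam, Set.mem_insert_iff, Set.mem_singleton_iff]
  simp only [Bool.false_eq_true, if_false, if_true]
  constructor
  · rintro (h | h)
    · exact Or.inr h.symm
    · exact Or.inl h.symm
  · rintro (h | h)
    · exact Or.inr h.symm
    · exact Or.inl h.symm

lemma closure_pairSet (a b : SO3) :
    Subgroup.closure ((pairSet a b : Finset SO3) : Set SO3) = Subgroup.closure {a, b} := by
  have h : ((pairSet a b : Finset SO3) : Set SO3) = {a, b, a⁻¹, b⁻¹} := by
    simp [pairSet]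
  rw [h]
  apply le_antisymm
  · rw [Subgroup.closure_le]
    have ha : a ∈ Subgroup.closure {a, b} := Subgroup.subset_closure (by simp)
    have hb : b ∈ Subgroup.closure {a, b} := Subgroup.subset_closure (by simp)
    rintro x (rfl | rfl | rfl | hx)
    · exact ha
    · exact hb
    · exact inv_mem ha
    · rw [Set.mem_singleton_iff] at hx
      rw [hx]
      exact inv_mem hb
  · apply Subgroup.closure_mono
    rintro x (rfl | hx)
    · simp
    · rw [Set.mem_singleton_iff] at hx
      simp [hx]

lemma gap_pair_iff (p : SO3 × SO3) : HasSpectralGap (pairSet p.1 p.2) ↔ gapF (fam p) := by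
  apply gapF_iff
  · intro i
    rw [closure_pairSet]
    apply Subgroup.subset_closure
    rw [← range_fam]
    exact Set.mem_range_self i
  · intro s hs
    rw [range_fam, ← closure_pairSet]
    exact Subgroup.subset_closure hs

lemma gap_pair_mono (a b a' b' : SO3) (ha : a' ∈ Subgroup.closure {a, b})
    (hb : b' ∈ Subgroup.closure {a, b}) (h : HasSpectralGap (pairSet a' b')) :
    HasSpectralGap (pairSet a b) := by
  refine gap_mono _ _ ?_ h
  intro t ht
  rw [closure_pairSet]
  have h1 : t ∈ Subgroup.closure ((pairSet a' b' : Finset SO3) : Set SO3) :=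
    Subgroup.subset_closure ht
  rw [closure_pairSet] at h1
  have hle : Subgroup.closure {a', b'} ≤ Subgroup.closure {a, b} := by
    rw [Subgroup.closure_le]
    rintro y (rfl | hy)
    · exact ha
    · rw [Set.mem_singleton_iff] at hy
      rw [hy]
      exact hb
  exact hle h1

lemma gapPairs_eq : {p : SO3 × SO3 | HasSpectralGap (pairSet p.1 p.2)} =
    {p : SO3 × SO3 | gapF (fam p)} := by
  ext p
  exact gap_pair_iff p

lemma measurableSet_gapPairs :
    MeasurableSet {p : SO3 × SO3 | HasSpectralGap (pairSet p.1 p.2)} := by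
  rw [gapPairs_eq]
  have h1 : {p : SO3 × SO3 | gapF (fam p)} = ⋃ n : ℕ, {p | unif n (fam p)} := by
    ext x
    simp only [gapF, Set.mem_ofPred_eq, Set.mem_iUnion]
  rw [h1]
  exact MeasurableSet.iUnion fun n => (isClosed_unif fam continuous_fam n).measurableSet

open Classical in
/-- The symmetric set `{x₁^±1, …, x_m^±1}`. -/
noncomputable def tupleSet {m : ℕ} (x : Fin m → SO3) : Finset SO3 :=
  Finset.univ.image x ∪ Finset.univ.image (fun i => (x i)⁻¹)

lemma mem_tupleSet {m : ℕ} (x : Fin m → SO3) (s : SO3) :
    s ∈ tupleSet x ↔ (∃ i, x i = s) ∨ (∃ i, (x i)⁻¹ = s) := by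
  simp [tupleSet]

lemma gap_tuple_iff {m : ℕ} (x : Fin m → SO3) : HasSpectralGap (tupleSet x) ↔ gapF x := by
  apply gapF_iff
  · intro i
    apply Subgroup.subset_closure
    exact (mem_tupleSet x (x i)).mpr (Or.inl ⟨i, rfl⟩)
  · intro s hs
    rcases (mem_tupleSet x s).mp hs with ⟨i, rfl⟩ | ⟨i, rfl⟩
    · exact Subgroup.subset_closure (Set.mem_range_self i)
    · exact inv_mem (Subgroup.subset_closure (Set.mem_range_self i))

/-- Non-meagre set of pairs with a gap: everything topologically generating has a gap. -/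
lemma gap_of_pairs (hn : ¬ IsMeagre {p : SO3 × SO3 | HasSpectralGap (pairSet p.1 p.2)})
    (S : Finset SO3) (hS : Dense ((Subgroup.closure (S : Set SO3) : Subgroup SO3) : Set SO3)) :
    HasSpectralGap S := by
  rw [gapPairs_eq] at hn
  refine gap_of_not_meagre fam continuous_fam hn S _ (hS.prod hS) ?_
  rintro ⟨a, b⟩ ⟨ha, hb⟩ i
  cases i
  · exact hb
  · exact ha

lemma gap_of_tuples {m : ℕ} (hn : ¬ IsMeagre {x : Fin m → SO3 | HasSpectralGap (tupleSet x)})
    (S : Finset SO3) (hS : Dense ((Subgroup.closure (S : Set SO3) : Subgroup SO3) : Set SO3)) :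
    HasSpectralGap S := by
  have h1 : {x : Fin m → SO3 | HasSpectralGap (tupleSet x)} = {x : Fin m → SO3 | gapF x} := by
    ext x
    exact gap_tuple_iff x
  rw [h1] at hn
  have hd : Dense (Set.pi Set.univ
      (fun _ : Fin m => ((Subgroup.closure (S : Set SO3) : Subgroup SO3) : Set SO3))) :=
    dense_pi Set.univ (fun _ _ => hS)
  refine gap_of_not_meagre (fun x : Fin m → SO3 => x) (fun i => continuous_apply i) hn S _ hd ?_
  intro x hx i
  exact hx i (Set.mem_univ i)

end Pool.Agent.MP_2915c1_al
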