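import Mathlib

set_option autoImplicit false

/-!
Coordinates on the quaternions, null sets, and the circle lemma.
-/

namespace Pool.Agent.MP_2915c1_al

open MeasureTheory Quaternion Set Filter

/-- Coordinate space of the quaternions. -/
abbrev V : Type := ℝ × ℝ × ℝ × ℝ

instance haar2 : Measure.IsAddHaarMeasure (volume : Measure (ℝ × ℝ)) :=
  inferInstanceAs (Measure.IsAddHaarMeasure ((volume : Measure ℝ).prod (volume : Measure ℝ)))
instance haar3 : Measure.IsAddHaarMeasure (volume : Measure (ℝ × ℝ × ℝ)) :=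
  inferInstanceAs (Measure.IsAddHaarMeasure
    ((volume : Measure ℝ).prod (volume : Measure (ℝ × ℝ))))
instance haar4 : Measure.IsAddHaarMeasure (volume : Measure V) :=
  inferInstanceAs (Measure.IsAddHaarMeasure
    ((volume : Measure ℝ).prod (volume : Measure (ℝ × ℝ × ℝ))))
instance haar22 : Measure.IsAddHaarMeasure (volume : Measure ((ℝ × ℝ) × (ℝ × ℝ))) :=
  inferInstanceAs (Measure.IsAddHaarMeasure
    ((volume : Measure (ℝ × ℝ)).prod (volume : Measure (ℝ × ℝ))))

lemma qmp_linearEquiv {E F : Type*} [NormedAddCommGroup E] [NormedSpace ℝ E]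
    [FiniteDimensional ℝ E] [MeasurableSpace E] [BorelSpace E] [NormedAddCommGroup F]
    [NormedSpace ℝ F] [FiniteDimensional ℝ F] [MeasurableSpace F] [BorelSpace F]
    (μ : Measure E) [μ.IsAddHaarMeasure] (ν : Measure F)
    [ν.IsAddHaarMeasure] (e : E ≃ₗ[ℝ] F) : Measure.QuasiMeasurePreserving e μ ν := by
  let e' := e.toContinuousLinearEquiv
  have h1 : (μ.map e').IsAddHaarMeasure := e'.isAddHaarMeasure_map μ
  have h2 : μ.map e' ≪ ν := Measure.absolutelyContinuous_isAddHaarMeasure _ _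
  exact ⟨e'.continuous.measurable, h2⟩

/-- The quaternion with given coordinates. -/
def q (v : V) : ℍ[ℝ] := ⟨v.1, v.2.1, v.2.2.1, v.2.2.2⟩

/-- The coordinates of a quaternion. -/
def qi (a : ℍ[ℝ]) : V := (a.re, a.imI, a.imJ, a.imK)

@[simp] lemma q_qi (a : ℍ[ℝ]) : q (qi a) = a := by
  ext <;> rfl

@[simp] lemma qi_q (v : V) : qi (q v) = v := rfl

/-- `q` as a linear equivalence. -/
def qe : V ≃ₗ[ℝ] ℍ[ℝ] where
  toFun := q
  invFun := qi
  left_inv := qi_q
  right_inv := q_qi
  map_add' v w := by ext <;> rfl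
  map_smul' r v := by ext <;> rfl

lemma q_add (v w : V) : q (v + w) = q v + q w := qe.map_add v w
lemma q_smul (r : ℝ) (v : V) : q (r • v) = r • q v := qe.map_smul r v
lemma q_ne_zero {v : V} (h : v ≠ 0) : q v ≠ 0 := by
  intro h'
  exact h (qe.map_eq_zero_iff.mp h')

/-- Right multiplication by a nonzero quaternion, in coordinates. -/
noncomputable def mulRe (a : ℍ[ℝ]) (ha : a ≠ 0) : V ≃ₗ[ℝ] V where
  toFun v := qi (q v * a)
  invFun v := qi (q v * a⁻¹)
  left_inv v := by
    simp [mul_assoc, mul_inv_cancel₀ ha]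
  right_inv v := by
    simp [mul_assoc, inv_mul_cancel₀ ha]
  map_add' v w := by
    have : ∀ x y : ℍ[ℝ], qi (x + y) = qi x + qi y := fun x y => by simp [qi]
    rw [q_add, add_mul, this]
  map_smul' r v := by
    have : ∀ x : ℍ[ℝ], qi (r • x) = r • qi x := fun x => by simp [qi]
    rw [q_smul, smul_mul_assoc, this]
    rfl

lemma qmp_mulR (a : ℍ[ℝ]) (ha : a ≠ 0) :
    Measure.QuasiMeasurePreserving (fun v : V => qi (q v * a)) volume volume :=
  qmp_linearEquiv volume volume (mulRe a ha)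

/-- The circle `cos θ + sin θ v`. -/
noncomputable def circ (v : ℍ[ℝ]) (θ : ℝ) : ℍ[ℝ] := (Real.cos θ : ℍ[ℝ]) + Real.sin θ • v

lemma circ_sq (v : ℍ[ℝ]) (hv : v * v = -1) (θ : ℝ) :
    circ v θ * circ v θ = circ v (2 * θ) := by
  unfold circ
  rw [Real.cos_two_mul', Real.sin_two_mul]
  have h1 : (Real.cos θ : ℍ[ℝ]) = Real.cos θ • (1 : ℍ[ℝ]) := by
    ext <;> simp
  have h2 : ∀ x : ℝ, (x : ℍ[ℝ]) = x • (1 : ℍ[ℝ]) := by
    intro x
    ext <;> simp
  rw [h1, h2 (Real.cos θ ^ 2 - Real.sin θ ^ 2)]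
  simp only [mul_add, add_mul, smul_mul_assoc, mul_smul_comm, one_mul, mul_one, hv,
    smul_neg]
  module

lemma circ_ne_zero (v : ℍ[ℝ]) (hv0 : v.re = 0) (hv : v * v = -1) (θ : ℝ) : circ v θ ≠ 0 := by
  intro h
  have h2 : v ≠ 0 := by
    rintro rfl
    simp at hv
  have hre : (circ v θ).re = 0 := by rw [h]; rfl
  have hc : Real.cos θ = 0 := by
    simpa [circ, hv0] using hre
  have : Real.sin θ • v = 0 := by
    have := h
    unfold circ at this
    rw [hc] at this
    simpa using this
  rcases smul_eq_zero.mp this with h3 | h3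
  · have := Real.sin_sq_add_cos_sq θ
    rw [h3, hc] at this
    norm_num at this
  · exact h2 h3

/-- Circle lemma: a scale invariant set of quaternions that is forward invariant under squaring
meets each circle `cos θ + sin θ v` in a null or a conull set. -/
lemma circle_lemma (S : Set ℍ[ℝ]) (hS : MeasurableSet (q ⁻¹' S))
    (hsq : ∀ a, a ≠ 0 → a ∈ S → a * a ∈ S)
    (v : ℍ[ℝ]) (hv0 : v.re = 0) (hv : v * v = -1) :
    (∀ᵐ θ ∂(volume.restrict (Ioc (-Real.pi) Real.pi)), circ v θ ∉ S) ∨
    (∀ᵐ θ ∂(volume.restrict (Ioc (-Real.pi) Real.pi)), circ v θ ∈ S) := by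
  let f : AddCircle (2 * Real.pi) → ℍ[ℝ] := fun t =>
    ((Real.Angle.cos (t : Real.Angle) : ℝ) : ℍ[ℝ]) + (Real.Angle.sin (t : Real.Angle)) • v
  have hf : ∀ θ : ℝ, f (θ : AddCircle (2 * Real.pi)) = circ v θ := fun θ => rfl
  let C : Set (AddCircle (2 * Real.pi)) := f ⁻¹' S
  have hcos : Continuous (fun t : AddCircle (2 * Real.pi) => Real.Angle.cos (t : Real.Angle)) :=
    Real.Angle.continuous_cos
  have hsin : Continuous (fun t : AddCircle (2 * Real.pi) => Real.Angle.sin (t : Real.Angle)) :=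
    Real.Angle.continuous_sin
  have hCm : MeasurableSet C := by
    have h1 : C = (fun t : AddCircle (2 * Real.pi) =>
        ((Real.Angle.cos (t : Real.Angle), Real.Angle.sin (t : Real.Angle) * v.imI,
          Real.Angle.sin (t : Real.Angle) * v.imJ, Real.Angle.sin (t : Real.Angle) * v.imK) : V))
          ⁻¹' (q ⁻¹' S) := by
      ext t
      simp only [C, mem_preimage]
      have : f t = q ((Real.Angle.cos (t : Real.Angle), Real.Angle.sin (t : Real.Angle) * v.imI,
          Real.Angle.sin (t : Real.Angle) * v.imJ, Real.Angle.sin (t : Real.Angle) * v.imK) : V) := by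
        ext <;> simp [f, q, hv0]
      rw [this]
    rw [h1]
    refine measurableSet_preimage ?_ hS
    apply Continuous.measurable
    fun_prop
  have hdouble : ∀ t : AddCircle (2 * Real.pi), t ∈ C → (2 : ℕ) • t ∈ C := by
    intro t
    induction t using QuotientAddGroup.induction_on with
    | H θ =>
      intro h
      have h1 : circ v θ ∈ S := h
      have h2 := hsq _ (circ_ne_zero v hv0 hv θ) h1
      rw [circ_sq v hv] at h2
      have h3 : ((2 : ℕ) • ((θ : ℝ) : AddCircle (2 * Real.pi))) = ((2 * θ : ℝ) : AddCircle (2 * Real.pi)) := by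
        rw [← AddCircle.coe_nsmul]
        simp
      change f ((2 : ℕ) • ((θ : ℝ) : AddCircle (2 * Real.pi))) ∈ S
      rw [h3, hf]
      exact h2
  have hT : Fact (0 < 2 * Real.pi) := ⟨by positivity⟩
  have herg : Ergodic (fun y : AddCircle (2 * Real.pi) => (2 : ℕ) • y) volume :=
    AddCircle.ergodic_nsmul (by norm_num)
  have h01 := herg.ae_empty_or_univ_of_ae_le_preimage hCm.nullMeasurableSet
    (Filter.Eventually.of_forall hdouble)
  have hmp := AddCircle.measurePreserving_mk (2 * Real.pi) (-Real.pi)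
  have hI : Ioc (-Real.pi) (-Real.pi + 2 * Real.pi) = Ioc (-Real.pi) Real.pi := by
    congr 1; ring
  rw [hI] at hmp
  rcases h01 with h | h
  · left
    have h' : ∀ᵐ t : AddCircle (2 * Real.pi), t ∉ C :=
      measure_eq_zero_iff_ae_notMem.mp (ae_eq_empty.mp h)
    have := hmp.quasiMeasurePreserving.ae h'
    filter_upwards [this] with θ hθ
    exact hθ
  · right
    have h' : ∀ᵐ t : AddCircle (2 * Real.pi), t ∈ C :=
      eventuallyEq_univ.mp h
    have := hmp.quasiMeasurePreserving.ae h'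
    filter_upwards [this] with θ hθ
    exact hθ

end Pool.Agent.MP_2915c1_al
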