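import Pool.Agent.Lib.MP_2915c1_al.Defs
import Pool.Agent.Lib.MP_2915c1_al.ZeroOne2

set_option autoImplicit false

/-!
The double cover: nonzero quaternions act as rotations.
-/

namespace Pool.Agent.MP_2915c1_al

open MeasureTheory Quaternion Set Filter Matrix

/-- The matrix of `v ↦ a v (conj a)` on pure quaternions. -/
def rotM (a : ℍ[ℝ]) : Matrix (Fin 3) (Fin 3) ℝ :=
  !![a.re ^ 2 + a.imI ^ 2 - a.imJ ^ 2 - a.imK ^ 2, 2 * (a.imI * a.imJ - a.re * a.imK),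
      2 * (a.imI * a.imK + a.re * a.imJ);
    2 * (a.imI * a.imJ + a.re * a.imK), a.re ^ 2 - a.imI ^ 2 + a.imJ ^ 2 - a.imK ^ 2,
      2 * (a.imJ * a.imK - a.re * a.imI);
    2 * (a.imI * a.imK - a.re * a.imJ), 2 * (a.imJ * a.imK + a.re * a.imI),
      a.re ^ 2 - a.imI ^ 2 - a.imJ ^ 2 + a.imK ^ 2]

lemma normSq_eq (a : ℍ[ℝ]) :
    normSq a = a.re ^ 2 + a.imI ^ 2 + a.imJ ^ 2 + a.imK ^ 2 := Quaternion.normSq_def' a

lemma rotM_mul (a b : ℍ[ℝ]) : rotM (a * b) = rotM a * rotM b := by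
  ext i j
  fin_cases i <;> fin_cases j <;>
    simp [rotM, Matrix.mul_apply, Fin.sum_univ_three] <;> ring

lemma rotM_smul (r : ℝ) (a : ℍ[ℝ]) : rotM (r • a) = r ^ 2 • rotM a := by
  ext i j
  fin_cases i <;> fin_cases j <;> simp [rotM] <;> ring

lemma rotM_orth (a : ℍ[ℝ]) : rotM a * (rotM a)ᵀ = (normSq a) ^ 2 • (1 : Matrix (Fin 3) (Fin 3) ℝ) := by
  rw [normSq_eq]
  ext i j
  fin_cases i <;> fin_cases j <;>
    simp [rotM, Matrix.mul_apply, Fin.sum_univ_three] <;> ring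

lemma rotM_det (a : ℍ[ℝ]) : (rotM a).det = (normSq a) ^ 3 := by
  rw [normSq_eq, Matrix.det_fin_three]
  simp [rotM]
  ring

open Classical in
/-- The rotation given by a quaternion (the identity for the quaternion `0`). -/
noncomputable def rot (a : ℍ[ℝ]) : SO3 :=
  if h : a = 0 then 1 else ⟨(normSq a)⁻¹ • rotM a, by
    have hn : normSq a ≠ 0 := normSq_ne_zero.mpr h
    rw [SO3.mem_iff]
    constructor
    · rw [Matrix.transpose_smul, smul_mul_assoc, mul_smul_comm, rotM_orth, smul_smul, smul_smul]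
      field_simp
      simp
    · rw [Matrix.det_smul, rotM_det]
      simp
      field_simp⟩

lemma rot_val {a : ℍ[ℝ]} (h : a ≠ 0) : (rot a).1 = (normSq a)⁻¹ • rotM a := by
  unfold rot
  rw [dif_neg h]

lemma rot_zero : rot 0 = 1 := by
  unfold rot
  rw [dif_pos rfl]

lemma rot_mul {a b : ℍ[ℝ]} (ha : a ≠ 0) (hb : b ≠ 0) : rot (a * b) = rot a * rot b := by
  apply Subtype.ext
  rw [SO3.mul_val, rot_val ha, rot_val hb, rot_val (mul_ne_zero ha hb), rotM_mul,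
    smul_mul_assoc, mul_smul_comm, smul_smul, map_mul, mul_inv]

lemma rot_smul (r : ℝ) (hr : r ≠ 0) (a : ℍ[ℝ]) : rot (r • a) = rot a := by
  by_cases ha : a = 0
  · rw [ha, smul_zero]
  · apply Subtype.ext
    rw [rot_val ha, rot_val (smul_ne_zero hr ha), rotM_smul, smul_smul]
    congr 1
    rw [normSq_eq, normSq_eq]
    have h2 : a.re ^ 2 + a.imI ^ 2 + a.imJ ^ 2 + a.imK ^ 2 ≠ 0 := by
      rw [← normSq_eq]; exact normSq_ne_zero.mpr ha
    simp only [Quaternion.re_smul, Quaternion.imI_smul, Quaternion.imJ_smul, Quaternion.imK_smul,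
      smul_eq_mul]
    have h3 : (r * a.re) ^ 2 + (r * a.imI) ^ 2 + (r * a.imJ) ^ 2 + (r * a.imK) ^ 2 =
      r ^ 2 * (a.re ^ 2 + a.imI ^ 2 + a.imJ ^ 2 + a.imK ^ 2) := by ring
    rw [h3]
    field_simp

end Pool.Agent.MP_2915c1_al
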