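import Pool.Agent.Lib.MP_2915c1_al.ConjHaar
import Pool.Agent.Lib.MP_f406e2_lc_QD.Gap

set_option autoImplicit false

/-!
The action of `SO(3)` on the sphere.
-/

noncomputable section

namespace Pool.Agent.MP_2915c1_al

open MeasureTheory Quaternion Set Filter Matrix
open Pool.Agent.MP_f406e2_lc_QD (E3 S2 O3 nu)
open scoped InnerProductSpace

lemma inner3 (v w : E3) : ⟪v, w⟫_ℝ = v 0 * w 0 + v 1 * w 1 + v 2 * w 2 := by
  rw [PiLp.inner_apply, Fin.sum_univ_three]
  simp only [RCLike.inner_apply, conj_trivial]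
  ring

/-- the action on the space -/
def act (A : SO3) (x : E3) : E3 := WithLp.toLp 2 (A.1 *ᵥ x.ofLp)

lemma act_apply (A : SO3) (x : E3) (i : Fin 3) :
    act A x i = A.1 i 0 * x 0 + A.1 i 1 * x 1 + A.1 i 2 * x 2 := by
  simp [act, Matrix.mulVec, dotProduct, Fin.sum_univ_three]

lemma act_mul (A B : SO3) (x : E3) : act (A * B) x = act A (act B x) := by
  unfold act
  rw [SO3.mul_val, Matrix.mulVec_mulVec]

lemma act_one (x : E3) : act 1 x = x := by
  unfold act
  simp

lemma act_add (A : SO3) (x y : E3) : act A (x + y) = act A x + act A y := by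
  ext i
  simp only [act_apply, PiLp.add_apply]
  ring

lemma act_smul (A : SO3) (r : ℝ) (x : E3) : act A (r • x) = r • act A x := by
  ext i
  simp only [act_apply, PiLp.smul_apply, smul_eq_mul]
  ring

lemma inner_act (A : SO3) (x y : E3) : ⟪act A x, y⟫_ℝ = ⟪x, act A⁻¹ y⟫_ℝ := by
  rw [inner3, inner3]
  simp only [act_apply, SO3.inv_val, Matrix.transpose_apply]
  ring

lemma inner_act_act (A : SO3) (x y : E3) : ⟪act A x, act A y⟫_ℝ = ⟪x, y⟫_ℝ := by
  rw [inner_act, ← act_mul, inv_mul_cancel, act_one]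

lemma norm_act (A : SO3) (x : E3) : ‖act A x‖ = ‖x‖ := by
  have h : ‖act A x‖ ^ 2 = ‖x‖ ^ 2 := by
    rw [← real_inner_self_eq_norm_sq, ← real_inner_self_eq_norm_sq, inner_act_act]
  exact (sq_eq_sq₀ (norm_nonneg _) (norm_nonneg _)).1 h

/-- the isometry of a rotation matrix -/
def iso (A : SO3) : O3 where
  toFun := act A
  map_add' := act_add A
  map_smul' := act_smul A
  invFun := act A⁻¹
  left_inv x := by
    rw [← act_mul, inv_mul_cancel, act_one]
  right_inv x := by
    rw [← act_mul, mul_inv_cancel, act_one]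
  norm_map' := norm_act A

lemma iso_apply (A : SO3) (x : E3) : iso A x = act A x := rfl

lemma iso_mul (A B : SO3) : iso (A * B) = iso A * iso B := by
  apply LinearIsometryEquiv.ext
  intro x
  rw [LinearIsometryEquiv.coe_mul, Function.comp_apply, iso_apply, iso_apply, iso_apply, act_mul]

lemma iso_smul_coe (A : SO3) (p : S2) : (iso A • p).1 = act A p.1 := rfl

/-- the vector part -/
def vec (a : ℍ[ℝ]) : E3 := !₂[a.imI, a.imJ, a.imK]

lemma norm_vec (a : ℍ[ℝ]) : ‖vec a‖ ^ 2 = a.imI ^ 2 + a.imJ ^ 2 + a.imK ^ 2 := by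
  rw [← real_inner_self_eq_norm_sq, inner3]
  simp [vec]
  ring

lemma inner_rot {a : ℍ[ℝ]} (ha : normSq a = 1) (p : E3) (hp : ‖p‖ = 1) :
    1 - ⟪act (rot a) p, p⟫_ℝ = 2 * (‖vec a‖ ^ 2 - ⟪vec a, p⟫_ℝ ^ 2) := by
  have h1 : ⟪p, p⟫_ℝ = 1 := by rw [real_inner_self_eq_norm_sq, hp, one_pow]
  rw [inner3] at h1
  rw [normSq_eq] at ha
  rw [norm_vec, inner3, inner3]
  simp only [act_apply, rot_val_unit (show normSq a = 1 by rw [normSq_eq]; exact ha)]
  simp [rotM, vec]
  linear_combination (-2 * (a.imI ^ 2 + a.imJ ^ 2 + a.imK ^ 2) + 1) * (-h1) +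
    (p 0 ^ 2 + p 1 ^ 2 + p 2 ^ 2) * (-ha) + (1 - 1) * h1

lemma act_half (n : E3) (hn : ‖n‖ = 1) (x : E3) :
    act (rot (mkq 0 (n 0) (n 1) (n 2))) x = (2 * ⟪n, x⟫_ℝ) • n - x := by
  have h1 : ⟪n, n⟫_ℝ = 1 := by rw [real_inner_self_eq_norm_sq, hn, one_pow]
  rw [inner3] at h1
  have ha : normSq (mkq 0 (n 0) (n 1) (n 2)) = 1 := by
    rw [normSq_eq]
    simp
    linarith
  ext i
  rw [act_apply, rot_val_unit ha, inner3]
  fin_cases i
  · simp [rotM]
    linear_combination (x 0) * (-h1)
  · simp [rotM]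
    linear_combination (x 1) * (-h1)
  · simp [rotM]
    linear_combination (x 2) * (-h1)

lemma exists_act_of_add {x y : E3} (hx : ‖x‖ = 1) (hy : ‖y‖ = 1) (h : x + y ≠ 0) :
    ∃ A : SO3, act A x = y := by
  have h0 : ‖x + y‖ ≠ 0 := norm_ne_zero_iff.mpr h
  set n : E3 := (‖x + y‖)⁻¹ • (x + y) with hn
  have hn1 : ‖n‖ = 1 := by
    rw [hn, norm_smul, norm_inv, norm_norm, inv_mul_cancel₀ h0]
  refine ⟨rot (mkq 0 (n 0) (n 1) (n 2)), ?_⟩
  rw [act_half n hn1]
  have h2 : ‖x + y‖ ^ 2 = 2 * ⟪x + y, x⟫_ℝ := by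
    rw [@norm_add_sq_real, inner_add_left, real_inner_self_eq_norm_sq, hx, hy,
      real_inner_comm y x]
    ring
  have h3 : 2 * ⟪n, x⟫_ℝ * (‖x + y‖)⁻¹ = 1 := by
    rw [hn, inner_smul_left, conj_trivial]
    have : 2 * ((‖x + y‖)⁻¹ * ⟪x + y, x⟫_ℝ) * (‖x + y‖)⁻¹ =
        (2 * ⟪x + y, x⟫_ℝ) / ‖x + y‖ ^ 2 := by
      field_simp
    rw [this, h2, div_self]
    rw [← h2]
    positivity
  rw [hn, smul_smul, ← hn, h3, one_smul]
  abel

lemma exists_act {x y : E3} (hx : ‖x‖ = 1) (hy : ‖y‖ = 1) : ∃ A : SO3, act A x = y := by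
  by_cases h : x + y = 0
  · have hz : ∃ z : E3, ‖z‖ = 1 ∧ x + z ≠ 0 ∧ z + y ≠ 0 := by
      have he : ∀ i : Fin 3, ‖(EuclideanSpace.single i (1 : ℝ) : E3)‖ = 1 := by
        intro i
        simp
      by_contra hcon
      push Not at hcon
      have hy' : y = -x := by
        rw [eq_neg_iff_add_eq_zero, add_comm]
        exact h
      have h0 : ∀ i : Fin 3, (EuclideanSpace.single i (1 : ℝ) : E3) = x ∨
          (EuclideanSpace.single i (1 : ℝ) : E3) = -x := by
        intro i
        by_cases hi : x + EuclideanSpace.single i (1 : ℝ) = 0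
        · right
          rw [eq_neg_iff_add_eq_zero, add_comm]
          exact hi
        · left
          have := hcon _ (he i) hi
          rw [hy'] at this
          rwa [← sub_eq_zero, sub_eq_add_neg]
      have k0 : x 1 = 0 := by
        rcases h0 0 with h1 | h1
        · have := congrArg (fun v : E3 => v 1) h1
          simp at this
          linarith
        · have := congrArg (fun v : E3 => v 1) h1
          simp at this
          linarith
      rcases h0 1 with h1 | h1
      · have := congrArg (fun v : E3 => v 1) h1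
        simp at this
        linarith
      · have := congrArg (fun v : E3 => v 1) h1
        simp at this
        linarith
    obtain ⟨z, hz, h1, h2⟩ := hz
    obtain ⟨A, hA⟩ := exists_act_of_add hx hz h1
    obtain ⟨B, hB⟩ := exists_act_of_add hz hy h2
    exact ⟨B * A, by rw [act_mul, hA, hB]⟩
  · exact exists_act_of_add hx hy h

lemma exists_iso (p q : S2) : ∃ A : SO3, iso A • p = q := by
  have hp : ‖p.1‖ = 1 := by simpa using p.2
  have hq : ‖q.1‖ = 1 := by simpa using q.2
  obtain ⟨A, hA⟩ := exists_act hp hq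
  exact ⟨A, Subtype.ext hA⟩

/-- the action is jointly continuous -/
lemma continuous_act : Continuous (fun z : SO3 × E3 => act z.1 z.2) := by
  unfold act
  refine (PiLp.continuous_toLp 2 _).comp ?_
  exact (continuous_subtype_val.comp continuous_fst).matrix_mulVec
    ((PiLp.continuous_ofLp 2 _).comp continuous_snd)

lemma continuous_isoS : Continuous (fun z : SO3 × S2 => iso z.1 • z.2) := by
  refine Continuous.subtype_mk ?_ _
  exact continuous_act.comp (continuous_fst.prodMk (continuous_subtype_val.comp continuous_snd))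

instance instRightInv : haar.IsMulRightInvariant := by
  refine ⟨fun g => ?_⟩
  have hp : IsProbabilityMeasure (haar.map (· * g)) :=
    Measure.isProbabilityMeasure_map (continuous_mul_const g).measurable.aemeasurable
  have hl : (haar.map (· * g)).IsMulLeftInvariant := by
    infer_instance
  have hh : (haar.map (· * g)).IsHaarMeasure := by
    infer_instance
  exact Measure.isHaarMeasure_eq_of_isProbabilityMeasure _ _

/-- the orbit map -/
def orb (p : S2) (A : SO3) : S2 := iso A • p

lemma continuous_orb (p : S2) : Continuous (orb p) :=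
  continuous_isoS.comp (continuous_id.prodMk continuous_const)

lemma measurable_isoS : Measurable (fun z : SO3 × S2 => iso z.1 • z.2) :=
  continuous_isoS.measurable

lemma haar_orb (p q : S2) {E : Set S2} (hE : MeasurableSet E) :
    haar (orb p ⁻¹' E) = haar (orb q ⁻¹' E) := by
  obtain ⟨A, hA⟩ := exists_iso p q
  have e : orb q ⁻¹' E = (· * A) ⁻¹' (orb p ⁻¹' E) := by
    ext B
    simp only [mem_preimage, orb]
    rw [iso_mul, mul_smul, hA]
  rw [e, measure_preimage_mul_right]

theorem map_orb (p : S2) : haar.map (orb p) = nu := by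
  refine Measure.ext fun E hE => ?_
  rw [Measure.map_apply (continuous_orb p).measurable hE]
  have h1 : Measurable (fun z : SO3 × S2 => E.indicator (fun _ => (1 : ENNReal)) (iso z.1 • z.2)) :=
    (measurable_const.indicator hE).comp measurable_isoS
  have h2 := lintegral_lintegral_swap (μ := haar) (ν := nu)
    (f := fun A q => E.indicator (fun _ => (1 : ENNReal)) (iso A • q)) h1.aemeasurable
  have h3 : ∀ A : SO3, ∫⁻ q, E.indicator (fun _ => (1 : ENNReal)) (iso A • q) ∂nu = nu E := by
    intro A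
    have := (Pool.Agent.MP_f406e2_lc_QD.mp (iso A)).lintegral_comp
      (f := E.indicator (fun _ => (1 : ENNReal))) (measurable_const.indicator hE)
    rw [this, lintegral_indicator_const hE, one_mul]
  have h4 : ∀ q : S2, ∫⁻ A, E.indicator (fun _ => (1 : ENNReal)) (iso A • q) ∂haar =
      haar (orb p ⁻¹' E) := by
    intro q
    rw [haar_orb p q hE]
    have e : (fun A => E.indicator (fun _ => (1 : ENNReal)) (iso A • q)) =
        (orb q ⁻¹' E).indicator (fun _ => (1 : ENNReal)) := rfl
    rw [e, lintegral_indicator_const ((continuous_orb q).measurable hE), one_mul]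
  simp only [h3, h4, lintegral_const, measure_univ, mul_one] at h2
  exact h2.symm

lemma mp_orb (p : S2) : MeasurePreserving (orb p) haar nu :=
  ⟨(continuous_orb p).measurable, map_orb p⟩

end Pool.Agent.MP_2915c1_al
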