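import Pool.Agent.Lib.MP_2915c1_al.SphAct

set_option autoImplicit false

/-!
Functions on `SO(3)` which are orthogonal to all functions coming from the sphere are zero.
-/

noncomputable section

namespace Pool.Agent.MP_2915c1_al

open MeasureTheory Quaternion Set Filter Matrix
open Pool.Agent.MP_f406e2_lc_QD (E3 S2 O3 nu)
open scoped InnerProductSpace

/-- `1 - cos` of the angle of a rotation -/
def s3 (A : SO3) : ℝ := (3 - (A.1 0 0 + A.1 1 1 + A.1 2 2)) / 2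

lemma continuous_s3 : Continuous s3 := by
  unfold s3
  have h : ∀ i j : Fin 3, Continuous (fun A : SO3 => A.1 i j) := fun i j =>
    continuous_subtype_val.matrix_elem i j
  exact (continuous_const.sub (((h 0 0).add (h 1 1)).add (h 2 2))).div_const 2

lemma s3_rot {a : ℍ[ℝ]} (ha : normSq a = 1) : s3 (rot a) = 2 * ‖vec a‖ ^ 2 := by
  rw [s3, norm_vec, rot_val_unit ha]
  rw [normSq_eq] at ha
  simp [rotM]
  linear_combination (-3 / 2) * ha

/-- the third coordinate vector -/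
def e3 : E3 := EuclideanSpace.single 2 1

lemma norm_e3 : ‖e3‖ = 1 := by
  simp [e3]

/-- the mean value of the power of the squared sine -/
def Cj (j : ℕ) : ℝ := ∫ p : S2, (1 - ⟪e3, p.1⟫_ℝ ^ 2) ^ j ∂nu

lemma norm_S2 (p : S2) : ‖p.1‖ = 1 := by simp

lemma int_axis (n : E3) (hn : ‖n‖ = 1) (j : ℕ) :
    ∫ p : S2, (1 - ⟪n, p.1⟫_ℝ ^ 2) ^ j ∂nu = Cj j := by
  obtain ⟨K, hK⟩ := exists_act norm_e3 hn
  have h1 : Continuous (fun p : S2 => (1 - ⟪n, p.1⟫_ℝ ^ 2) ^ j) := by fun_prop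
  have h2 := (Pool.Agent.MP_f406e2_lc_QD.mp (iso K)).integral_comp'
    (f := (Pool.Agent.MP_f406e2_lc_SP.sp (iso K)).toMeasurableEquiv)
    (fun p : S2 => (1 - ⟪n, p.1⟫_ℝ ^ 2) ^ j)
  rw [← h2]
  unfold Cj
  refine integral_congr_ae (Eventually.of_forall fun p => ?_)
  change (1 - ⟪n, act K p.1⟫_ℝ ^ 2) ^ j = (1 - ⟪e3, p.1⟫_ℝ ^ 2) ^ j
  rw [← hK, inner_act_act]

lemma avg (A : SO3) (j : ℕ) :
    ∫ p : S2, (1 - ⟪act A p.1, p.1⟫_ℝ) ^ j ∂nu = Cj j * s3 A ^ j := by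
  obtain ⟨a, ha, rfl⟩ := exists_unit A
  obtain ⟨n, hn, hv⟩ : ∃ n : E3, ‖n‖ = 1 ∧ vec a = ‖vec a‖ • n := by
    by_cases h : vec a = 0
    · exact ⟨e3, norm_e3, by rw [h]; simp⟩
    · have h0 : ‖vec a‖ ≠ 0 := norm_ne_zero_iff.mpr h
      refine ⟨(‖vec a‖)⁻¹ • vec a, ?_, ?_⟩
      · rw [norm_smul, norm_inv, norm_norm, inv_mul_cancel₀ h0]
      · rw [smul_smul, mul_inv_cancel₀ h0, one_smul]
  have h1 : ∀ p : S2, (1 - ⟪act (rot a) p.1, p.1⟫_ℝ) ^ j =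
      s3 (rot a) ^ j * (1 - ⟪n, p.1⟫_ℝ ^ 2) ^ j := by
    intro p
    rw [inner_rot ha p.1 (norm_S2 p), ← mul_pow, s3_rot ha]
    congr 1
    have h2 : ⟪vec a, p.1⟫_ℝ = ‖vec a‖ * ⟪n, p.1⟫_ℝ := by
      conv_lhs => rw [hv]
      rw [inner_smul_left, conj_trivial]
    rw [h2]
    ring
  simp only [h1]
  rw [integral_const_mul, int_axis n hn j, mul_comm]

lemma Cj_pos (j : ℕ) : 0 < Cj j := by
  unfold Cj
  have hc : Continuous (fun p : S2 => (1 - ⟪e3, p.1⟫_ℝ ^ 2) ^ j) := by fun_prop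
  have hnn : ∀ p : S2, 0 ≤ (1 - ⟪e3, p.1⟫_ℝ ^ 2) ^ j := by
    intro p
    have h1 := abs_real_inner_le_norm e3 p.1
    rw [norm_e3, norm_S2, mul_one] at h1
    have h2 := sq_le_one_iff_abs_le_one _ |>.mpr h1
    exact pow_nonneg (by linarith) j
  have hp : ‖(EuclideanSpace.single 0 1 : E3)‖ = 1 := by simp
  refine hc.integral_pos_of_hasCompactSupport_nonneg_nonzero
    (HasCompactSupport.of_compactSpace _) hnn
    (x := ⟨EuclideanSpace.single 0 1, by simp⟩) ?_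
  have : ⟪e3, (EuclideanSpace.single 0 1 : E3)⟫_ℝ = 0 := by
    rw [inner3]
    simp [e3]
  simp [this]

end Pool.Agent.MP_2915c1_al
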