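import Pool.Agent.Lib.MP_2915c1_al.SphPeak

set_option autoImplicit false

/-!
The spectral gap of the standard pair of rotations by the angle `arccos (-1/3)` about orthogonal
axes.
-/

noncomputable section

namespace Pool.Agent.MP_2915c1_al

open MeasureTheory Quaternion Set Filter Matrix Topology
open Pool.Agent.MP_f406e2_lc_QD (E3 S2 O3 nu one)
open scoped InnerProductSpace

lemma int_orb (p : S2) (F : S2 → ℝ) (hF : AEStronglyMeasurable F nu) :
    ∫ x, F x ∂nu = ∫ A, F (orb p A) ∂haar := by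
  have h : AEStronglyMeasurable F (haar.map (orb p)) := by
    rw [map_orb p]
    exact hF
  rw [← integral_map (continuous_orb p).measurable.aemeasurable h, map_orb p]

lemma inner_pull (p : S2) (g g' : LS) : ⟪pull p g, pull p g'⟫_ℂ = ((⟪g, g'⟫_ℝ : ℝ) : ℂ) := by
  rw [MeasureTheory.L2.inner_def, MeasureTheory.L2.inner_def]
  have h1 : ∫ x, ⟪g x, g' x⟫_ℝ ∂nu = ∫ A, ⟪g (orb p A), g' (orb p A)⟫_ℝ ∂haar :=
    int_orb p _ ((Lp.aestronglyMeasurable g).inner (Lp.aestronglyMeasurable g'))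
  rw [h1, ← integral_complex_ofReal]
  refine integral_congr_ae ?_
  filter_upwards [pull_coe p g, pull_coe p g'] with A h2 h3
  rw [h2, h3, RCLike.inner_apply, Complex.conj_ofReal, RCLike.inner_apply, conj_trivial]
  push_cast
  rfl

lemma norm_pull (p : S2) (g : LS) : ‖pull p g‖ = ‖g‖ := by
  have h1 := inner_pull p g g
  rw [inner_self_eq_norm_sq_to_K, real_inner_self_eq_norm_sq] at h1
  have h2 : ‖pull p g‖ ^ 2 = ‖g‖ ^ 2 := by
    apply Complex.ofReal_injective
    rw [← h1]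
    simp
  exact (sq_eq_sq₀ (norm_nonneg _) (norm_nonneg _)).1 h2

lemma pull_add (p : S2) (g g' : LS) : pull p (g + g') = pull p g + pull p g' := by
  apply Lp.ext
  filter_upwards [pull_coe p g, pull_coe p g', pull_coe p (g + g'), Lp.coeFn_add (pull p g)
    (pull p g'), (mp_orb p).quasiMeasurePreserving.ae (Lp.coeFn_add g g')] with A h1 h2 h3 h4 h5
  rw [h3, h4, h5, Pi.add_apply, Pi.add_apply, h1, h2]
  push_cast
  rfl

lemma pull_smul (p : S2) (r : ℝ) (g : LS) : pull p (r • g) = (r : ℂ) • pull p g := by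
  apply Lp.ext
  filter_upwards [pull_coe p g, pull_coe p (r • g), Lp.coeFn_smul (r : ℂ) (pull p g),
    (mp_orb p).quasiMeasurePreserving.ae (Lp.coeFn_smul r g)] with A h1 h2 h3 h4
  rw [h2, h3, h4, Pi.smul_apply, Pi.smul_apply, h1]
  simp

/-- the pull back as a linear map -/
def pullA (p : S2) : LS →+ H where
  toFun := pull p
  map_zero' := by
    have h := pull_smul p 0 0
    simpa using h
  map_add' := pull_add p

/-- the constant function -/
lemma pull_one (p : S2) : pull p one =ᵐ[haar] fun _ => (1 : ℂ) := by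
  filter_upwards [pull_coe p one,
    (mp_orb p).quasiMeasurePreserving.ae Pool.Agent.MP_f406e2_lc_QD.one_coe] with A h1 h2
  rw [h1, h2]
  simp

/-- translation as a linear isometry -/
def trI (s : SO3) : H →ₗᵢ[ℂ] H where
  toFun := tr s
  map_add' := fun f g => DomMulAct.smul_Lp_add _ f g
  map_smul' := fun c f => smul_comm (DomMulAct.mk s) c f
  norm_map' := norm_tr s

lemma trI_apply (s : SO3) (f : H) : trI s f = tr s f := rfl

lemma inner_tr (s : SO3) (f g : H) : ⟪tr s f, g⟫_ℂ = ⟪f, tr s⁻¹ g⟫_ℂ := by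
  have h1 : tr s (tr s⁻¹ g) = g := by
    rw [← tr_mul, inv_mul_cancel, tr_one]
  conv_lhs => rw [← h1]
  exact (trI s).inner_map_map f (tr s⁻¹ g)

/-- the half-turns about the four diagonals -/
def Dh (j : Fin 4) : SO3 :=
  rot (mkq 0 (Pool.Agent.MP_f406e2_lc_QD.u j 0) (Pool.Agent.MP_f406e2_lc_QD.u j 1)
    (Pool.Agent.MP_f406e2_lc_QD.u j 2))

lemma norm_u (j : Fin 4) : ‖Pool.Agent.MP_f406e2_lc_QD.u j‖ ^ 2 = 3 := by
  rw [← real_inner_self_eq_norm_sq, Pool.Agent.MP_f406e2_lc_QD.inner_u, if_pos rfl]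

lemma iso_Dh (j : Fin 4) : iso (Dh j) = Pool.Agent.MP_f406e2_lc_QD.h j := by
  apply LinearIsometryEquiv.ext
  intro x
  rw [iso_apply, Pool.Agent.MP_f406e2_lc_QD.h_apply, Dh]
  set u := Pool.Agent.MP_f406e2_lc_QD.u j with hu
  have h3 : ‖u‖ ^ 2 = 3 := norm_u j
  have h0 : ‖u‖ ≠ 0 := by
    intro h
    rw [h] at h3
    norm_num at h3
  set n : E3 := (‖u‖)⁻¹ • u with hn
  have hn1 : ‖n‖ = 1 := by
    rw [hn, norm_smul, norm_inv, norm_norm, inv_mul_cancel₀ h0]
  have e : mkq 0 (n 0) (n 1) (n 2) = (‖u‖)⁻¹ • mkq 0 (u 0) (u 1) (u 2) := by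
    ext <;> simp [hn]
  have h4 := act_half n hn1 x
  rw [e, rot_smul _ (inv_ne_zero h0)] at h4
  rw [h4, hn, inner_smul_left, conj_trivial, smul_smul]
  congr 2
  rw [← h3]
  field_simp

lemma Dh_sq (j : Fin 4) : Dh j * Dh j = 1 := by
  unfold Dh
  have h3 := norm_u j
  rw [← real_inner_self_eq_norm_sq, inner3] at h3
  set u := Pool.Agent.MP_f406e2_lc_QD.u j with hu
  have hm : mkq 0 (u 0) (u 1) (u 2) * mkq 0 (u 0) (u 1) (u 2) = (-3 : ℝ) • (1 : ℍ[ℝ]) := by
    ext
    · simp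
      linarith
    · simp
      ring
    · simp
      ring
    · simp
      ring
  have h0 : mkq 0 (u 0) (u 1) (u 2) ≠ 0 := by
    intro h
    rw [h, zero_mul] at hm
    have := congrArg QuaternionAlgebra.re hm
    simp at this
  rw [← rot_mul h0 h0, hm, rot_smul _ (by norm_num), rot_one]

lemma Dh_inv (j : Fin 4) : (Dh j)⁻¹ = Dh j := inv_eq_of_mul_eq_one_left (Dh_sq j)

/-- the sum of the translations by the four half-turns -/
def TH : H →L[ℂ] H := ∑ j, (trI (Dh j)).toContinuousLinearMap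

lemma TH_apply (f : H) : TH f = ∑ j, tr (Dh j) f := by
  simp [TH, trI_apply]

lemma TH_symm (f g : H) : ⟪TH f, g⟫_ℂ = ⟪f, TH g⟫_ℂ := by
  rw [TH_apply, TH_apply, sum_inner, inner_sum]
  refine Finset.sum_congr rfl fun j _ => ?_
  rw [inner_tr, Dh_inv]

lemma tr_pull (j : Fin 4) (p : S2) (g : LS) :
    tr (Dh j) (pull p g) = pull p (Pool.Agent.MP_f406e2_lc_QD.UU
      (Pool.Agent.MP_f406e2_lc_QD.h j) g) := by
  apply Lp.ext
  filter_upwards [tr_toLp_ae (Dh j) _ (memLp_pull p g), pull_coe p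
    (Pool.Agent.MP_f406e2_lc_QD.UU (Pool.Agent.MP_f406e2_lc_QD.h j) g),
    (mp_orb p).quasiMeasurePreserving.ae (Pool.Agent.MP_f406e2_lc_QD.UU_coe
      (Pool.Agent.MP_f406e2_lc_QD.h j) g)] with A h1 h2 h3
  rw [h2, h3]
  refine h1.trans ?_
  have e : orb p (Dh j * A) = Pool.Agent.MP_f406e2_lc_QD.h j • orb p A := by
    unfold orb
    rw [iso_mul, mul_smul, iso_Dh]
  rw [e]

lemma TH_pull (p : S2) (g : LS) : TH (pull p g) = pull p (Pool.Agent.MP_f406e2_lc_QD.TT g) := by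
  rw [TH_apply, Pool.Agent.MP_f406e2_lc_QD.TT_apply]
  change _ = pullA p _
  rw [map_sum]
  exact Finset.sum_congr rfl fun j _ => tr_pull j p g

end Pool.Agent.MP_2915c1_al
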