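import Pool.Agent.Lib.MP_2915c1_al.SphZero

set_option autoImplicit false

/-!
Functions on `SO(3)` which are orthogonal to all functions coming from the sphere are zero.
-/

noncomputable section

namespace Pool.Agent.MP_2915c1_al

open MeasureTheory Quaternion Set Filter Matrix Topology
open Pool.Agent.MP_f406e2_lc_QD (E3 S2 O3 nu)
open scoped InnerProductSpace

lemma inner_conv (u : C(SO3, ℂ)) (A : SO3) (k : ℕ) :
    ∫ B, u B * ((ck (B⁻¹ * A) ^ k : ℝ) : ℂ) ∂haar = ∫ B, ck B ^ k • u (A * B) ∂haar := by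
  rw [← integral_mul_left_eq_self (μ := haar)
    (fun B => u B * ((ck (B⁻¹ * A) ^ k : ℝ) : ℂ)) A]
  refine integral_congr_ae (Eventually.of_forall fun B => ?_)
  have e : (A * B)⁻¹ * A = B⁻¹ := by group
  simp only [e, ck_inv]
  rw [Complex.real_smul, mul_comm]

lemma conv_zero (f : H) (hf : ∀ (p : S2) (g : LS), ⟪pull p g, f⟫_ℂ = 0) (u : C(SO3, ℂ)) (k : ℕ) :
    ∫ A, (∫ B, ck B ^ k • u (A * B) ∂haar) * f A ∂haar = 0 := by
  have hc : Continuous (fun z : SO3 × SO3 => u z.1 * ((ck (z.1⁻¹ * z.2) ^ k : ℝ) : ℂ)) := by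
    refine (u.continuous.comp continuous_fst).mul (Complex.continuous_ofReal.comp ?_)
    exact (continuous_ck.comp (continuous_fst.inv.mul continuous_snd)).pow k
  obtain ⟨C, hC⟩ := isCompact_univ.exists_bound_of_continuousOn hc.continuousOn
  have hI : Integrable (Function.uncurry fun (B : SO3) (A : SO3) =>
      (u B * ((ck (B⁻¹ * A) ^ k : ℝ) : ℂ)) * f A) (haar.prod haar) :=
    Integrable.bdd_mul (c := C) ((integrable_H f).comp_snd haar)
      hc.aestronglyMeasurable (Eventually.of_forall fun z => hC z (mem_univ z))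
  have h1 := integral_integral_swap hI
  have h2 : ∀ B : SO3, ∫ A, (u B * ((ck (B⁻¹ * A) ^ k : ℝ) : ℂ)) * f A ∂haar = 0 := by
    intro B
    simp only [mul_assoc]
    rw [integral_const_mul, orth_ck f hf, mul_zero]
  simp only [h2, integral_zero] at h1
  rw [h1]
  refine integral_congr_ae (Eventually.of_forall fun A => ?_)
  simp only
  rw [integral_mul_const, inner_conv]

lemma peak (u : C(SO3, ℂ)) (A : SO3) :
    Tendsto (fun n : ℕ => (∫ x, ck x ^ n ∂haar)⁻¹ • ∫ x, ck x ^ n • u (A * x) ∂haar) atTop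
      (𝓝 (u A)) := by
  have h := tendsto_setIntegral_pow_smul_of_unique_maximum_of_isCompact_of_continuousOn
    (μ := haar) (x₀ := (1 : SO3)) (g := fun x => u (A * x)) (c := ck) isCompact_univ
    continuous_ck.continuousOn (fun y _ hy => ck_lt hy) (fun x _ => ck_nonneg x)
    (by rw [ck_one]; exact one_pos) (by simp)
    (u.continuous.comp (continuous_const_mul A)).continuousOn
  simpa only [Measure.restrict_univ, mul_one] using h

lemma meas_conv (u : C(SO3, ℂ)) (n : ℕ) (r : ℝ) :
    AEStronglyMeasurable (fun A : SO3 => r • ∫ x, ck x ^ n • u (A * x) ∂haar) haar := by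
  have hc : Continuous (fun z : SO3 × SO3 => ck z.2 ^ n • u (z.1 * z.2)) :=
    ((continuous_ck.comp continuous_snd).pow n).smul (u.continuous.comp continuous_mul)
  have h1 : StronglyMeasurable (fun A : SO3 => ∫ x, ck x ^ n • u (A * x) ∂haar) :=
    hc.stronglyMeasurable.integral_prod_right
  exact (h1.const_smul r).aestronglyMeasurable

lemma orth_all (f : H) (hf : ∀ (p : S2) (g : LS), ⟪pull p g, f⟫_ℂ = 0) (u : C(SO3, ℂ)) :
    ∫ A, u A * f A ∂haar = 0 := by
  have hlim : Tendsto (fun n : ℕ => ∫ A,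
      ((∫ x, ck x ^ n ∂haar)⁻¹ • ∫ x, ck x ^ n • u (A * x) ∂haar) * f A ∂haar) atTop
        (𝓝 (∫ A, u A * f A ∂haar)) := by
    refine tendsto_integral_of_dominated_convergence (fun A => ‖u‖ * ‖f A‖) ?_ ?_ ?_ ?_
    · intro n
      exact (meas_conv u n (∫ x, ck x ^ n ∂haar)⁻¹).mul (Lp.memLp f).1
    · exact ((integrable_H f).norm).const_mul _
    · intro n
      refine Eventually.of_forall fun A => ?_
      rw [norm_mul]
      refine mul_le_mul_of_nonneg_right ?_ (norm_nonneg _)
      rw [norm_smul, norm_inv]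
      have h2 : ‖∫ x, ck x ^ n • u (A * x) ∂haar‖ ≤ ∫ x, ck x ^ n * ‖u‖ ∂haar := by
        refine norm_integral_le_of_norm_le ?_ (Eventually.of_forall fun x => ?_)
        · exact (((continuous_ck.pow n).integrable_of_hasCompactSupport
            (HasCompactSupport.of_compactSpace _))).mul_const _
        · rw [norm_smul, norm_pow, Real.norm_eq_abs, abs_of_nonneg (ck_nonneg x)]
          exact mul_le_mul_of_nonneg_left (u.norm_coe_le_norm _) (pow_nonneg (ck_nonneg x) n)
      rw [integral_mul_const] at h2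
      have h3 : 0 ≤ ∫ x, ck x ^ n ∂haar := integral_nonneg fun x => pow_nonneg (ck_nonneg x) n
      rw [Real.norm_eq_abs, abs_of_nonneg h3]
      rcases h3.eq_or_lt with h4 | h4
      · rw [← h4, _root_.inv_zero, zero_mul]
        exact norm_nonneg _
      · rw [inv_mul_le_iff₀ h4]
        exact h2
    · refine Eventually.of_forall fun A => ?_
      exact (peak u A).mul_const _
  have h0 : ∀ n : ℕ, ∫ A,
      ((∫ x, ck x ^ n ∂haar)⁻¹ • ∫ x, ck x ^ n • u (A * x) ∂haar) * f A ∂haar = 0 := by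
    intro n
    simp only [smul_mul_assoc]
    rw [integral_smul, conv_zero f hf, smul_zero]
  simp only [h0] at hlim
  exact (tendsto_nhds_unique hlim tendsto_const_nhds)

theorem zero_of_orth (f : H) (hf : ∀ (p : S2) (g : LS), ⟪pull p g, f⟫_ℂ = 0) : f = 0 := by
  have hd : DenseRange (ContinuousMap.toLp (E := ℂ) 2 haar ℂ) :=
    ContinuousMap.toLp_denseRange ℂ haar ℂ (by norm_num)
  have h1 : ∀ u : C(SO3, ℂ), ⟪ContinuousMap.toLp (E := ℂ) 2 haar ℂ u, f⟫_ℂ = 0 := by
    intro u
    have h2 := orth_all f hf (star u)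
    rw [MeasureTheory.L2.inner_def, ← h2]
    refine integral_congr_ae ?_
    filter_upwards [ContinuousMap.coeFn_toLp (E := ℂ) (p := 2) (𝕜 := ℂ) haar u] with A h3
    rw [h3, RCLike.inner_apply, mul_comm]
    rfl
  refine hd.eq_zero_of_inner_left ℂ fun u => ?_
  rw [inner_eq_zero_symm]
  exact h1 u

end Pool.Agent.MP_2915c1_al
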