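import Pool.Agent.Lib.MP_2915c1_al.SphDense

set_option autoImplicit false

/-!
Functions on `SO(3)` which are orthogonal to all functions coming from the sphere are zero.
-/

noncomputable section

namespace Pool.Agent.MP_2915c1_al

open MeasureTheory Quaternion Set Filter Matrix
open Pool.Agent.MP_f406e2_lc_QD (E3 S2 O3 nu)
open scoped InnerProductSpace

/-- the Hilbert space of the sphere -/
abbrev LS : Type := Pool.Agent.MP_f406e2_lc_QD.L2

lemma memLp_pull (p : S2) (g : LS) : MemLp (fun A => ((g (orb p A) : ℝ) : ℂ)) 2 haar :=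
  ((Lp.memLp g).comp_measurePreserving (mp_orb p)).ofReal

/-- the pull back along the orbit map -/
def pull (p : S2) (g : LS) : H := (memLp_pull p g).toLp _

lemma pull_coe (p : S2) (g : LS) : pull p g =ᵐ[haar] fun A => ((g (orb p A) : ℝ) : ℂ) :=
  MemLp.coeFn_toLp _

lemma orth_cont (f : H) (hf : ∀ (p : S2) (g : LS), ⟪pull p g, f⟫_ℂ = 0) (p : S2) (φ : C(S2, ℝ)) :
    ∫ A, ((φ (orb p A) : ℝ) : ℂ) * f A ∂haar = 0 := by
  have h1 := hf p (ContinuousMap.toLp (E := ℝ) 2 nu ℝ φ)
  rw [MeasureTheory.L2.inner_def] at h1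
  rw [← h1]
  refine integral_congr_ae ?_
  filter_upwards [pull_coe p (ContinuousMap.toLp (E := ℝ) 2 nu ℝ φ),
    (mp_orb p).quasiMeasurePreserving.ae (ContinuousMap.coeFn_toLp (E := ℝ) (p := 2) (𝕜 := ℝ)
      nu φ)] with A h2 h3
  rw [h2, h3, RCLike.inner_apply, Complex.conj_ofReal, mul_comm]

lemma integrable_H (f : H) : Integrable (fun A => f A) haar :=
  (Lp.memLp f).integrable one_le_two

lemma orth_ker (f : H) (hf : ∀ (p : S2) (g : LS), ⟪pull p g, f⟫_ℂ = 0) (B : SO3) (j : ℕ) :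
    ∫ A, ((s3 (B⁻¹ * A) ^ j : ℝ) : ℂ) * f A ∂haar = 0 := by
  have h1 : ∀ p : S2, ∫ A, (((1 - ⟪act A p.1, act B p.1⟫_ℝ) ^ j : ℝ) : ℂ) * f A ∂haar = 0 := by
    intro p
    have hc : Continuous (fun z : S2 => (1 - ⟪z.1, act B p.1⟫_ℝ) ^ j) := by fun_prop
    exact orth_cont f hf p ⟨_, hc⟩
  have hK : Continuous (fun z : S2 × SO3 =>
      (((1 - ⟪act z.2 z.1.1, act B z.1.1⟫_ℝ) ^ j : ℝ) : ℂ)) := by
    have c1 : Continuous (fun z : S2 × SO3 => act z.2 z.1.1) :=
      continuous_act.comp (continuous_snd.prodMk (continuous_subtype_val.comp continuous_fst))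
    have c2 : Continuous (fun z : S2 × SO3 => act B z.1.1) :=
      continuous_act.comp (continuous_const.prodMk (continuous_subtype_val.comp continuous_fst))
    exact Complex.continuous_ofReal.comp ((continuous_const.sub (c1.inner c2)).pow j)
  have hI : Integrable (Function.uncurry fun (p : S2) (A : SO3) =>
      (((1 - ⟪act A p.1, act B p.1⟫_ℝ) ^ j : ℝ) : ℂ) * f A) (nu.prod haar) := by
    refine Integrable.bdd_mul (c := 2 ^ j) ((integrable_H f).comp_snd nu)
      hK.aestronglyMeasurable (Eventually.of_forall fun z => ?_)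
    rw [Complex.norm_real, norm_pow]
    refine pow_le_pow_left₀ (norm_nonneg _) ?_ j
    have h2 := abs_real_inner_le_norm (act z.2 z.1.1) (act B z.1.1)
    rw [norm_act, norm_act, norm_S2, mul_one] at h2
    rw [Real.norm_eq_abs]
    rw [abs_le] at h2 ⊢
    constructor <;> linarith [h2.1, h2.2]
  have h3 := integral_integral_swap hI
  simp only [h1, integral_zero] at h3
  have h4 : ∀ A : SO3, ∫ p : S2, (((1 - ⟪act A p.1, act B p.1⟫_ℝ) ^ j : ℝ) : ℂ) * f A ∂nu =
      (Cj j : ℂ) * (((s3 (B⁻¹ * A) ^ j : ℝ) : ℂ) * f A) := by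
    intro A
    rw [integral_mul_const, integral_complex_ofReal]
    have h5 : ∀ p : S2, (1 - ⟪act A p.1, act B p.1⟫_ℝ) ^ j =
        (1 - ⟪act (B⁻¹ * A) p.1, p.1⟫_ℝ) ^ j := by
      intro p
      have e : act A p.1 = act B (act (B⁻¹ * A) p.1) := by
        rw [← act_mul, mul_inv_cancel_left]
      rw [e, inner_act_act]
    simp only [h5]
    rw [avg]
    push_cast
    ring
  simp only [h4] at h3
  rw [integral_const_mul] at h3
  have h6 : (Cj j : ℂ) ≠ 0 := by
    exact_mod_cast (Cj_pos j).ne'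
  exact (mul_eq_zero.mp h3.symm).resolve_left h6

lemma integrable_mul (f : H) {φ : SO3 → ℂ} (hφ : Continuous φ) :
    Integrable (fun A => φ A * f A) haar := by
  obtain ⟨C, hC⟩ := isCompact_univ.exists_bound_of_continuousOn (f := φ) hφ.continuousOn
  exact Integrable.bdd_mul (c := C) (integrable_H f) hφ.aestronglyMeasurable
    (Eventually.of_forall fun A => hC A (mem_univ A))

lemma continuous_s3' (B : SO3) : Continuous (fun A : SO3 => s3 (B⁻¹ * A)) :=
  continuous_s3.comp (continuous_const_mul _)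

lemma orth_poly (f : H) (hf : ∀ (p : S2) (g : LS), ⟪pull p g, f⟫_ℂ = 0) (B : SO3)
    (P : Polynomial ℝ) : ∫ A, ((P.eval (s3 (B⁻¹ * A)) : ℝ) : ℂ) * f A ∂haar = 0 := by
  induction P using Polynomial.induction_on' with
  | add P Q hP hQ =>
    have e : ∀ A : SO3, (((P + Q).eval (s3 (B⁻¹ * A)) : ℝ) : ℂ) * f A =
        ((P.eval (s3 (B⁻¹ * A)) : ℝ) : ℂ) * f A + ((Q.eval (s3 (B⁻¹ * A)) : ℝ) : ℂ) * f A := by
      intro A
      rw [Polynomial.eval_add]
      push_cast
      ring
    simp only [e]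
    rw [integral_add, hP, hQ, add_zero]
    · exact integrable_mul f (Complex.continuous_ofReal.comp
        (P.continuous.comp (continuous_s3' B)))
    · exact integrable_mul f (Complex.continuous_ofReal.comp
        (Q.continuous.comp (continuous_s3' B)))
  | monomial n a =>
    have e : ∀ A : SO3, (((Polynomial.monomial n a).eval (s3 (B⁻¹ * A)) : ℝ) : ℂ) * f A =
        (a : ℂ) * (((s3 (B⁻¹ * A) ^ n : ℝ) : ℂ) * f A) := by
      intro A
      rw [Polynomial.eval_monomial]
      push_cast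
      ring
    simp only [e]
    rw [integral_const_mul, orth_ker f hf, mul_zero]

/-- the kernel -/
def ck (A : SO3) : ℝ := 1 - s3 A / 2

lemma continuous_ck : Continuous ck := continuous_const.sub (continuous_s3.div_const 2)

lemma orth_ck (f : H) (hf : ∀ (p : S2) (g : LS), ⟪pull p g, f⟫_ℂ = 0) (B : SO3) (k : ℕ) :
    ∫ A, ((ck (B⁻¹ * A) ^ k : ℝ) : ℂ) * f A ∂haar = 0 := by
  have h1 := orth_poly f hf B ((1 - Polynomial.C (1 / 2) * Polynomial.X) ^ k)
  rw [← h1]
  refine integral_congr_ae (Eventually.of_forall fun A => ?_)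
  simp only [ck]
  congr 3
  simp
  ring

lemma ck_rot {a : ℍ[ℝ]} (ha : normSq a = 1) : ck (rot a) = a.re ^ 2 := by
  rw [ck, s3_rot ha, norm_vec]
  rw [normSq_eq] at ha
  linarith

lemma ck_nonneg (A : SO3) : 0 ≤ ck A := by
  obtain ⟨a, ha, rfl⟩ := exists_unit A
  rw [ck_rot ha]
  positivity

lemma ck_one : ck 1 = 1 := by
  rw [← rot_one, ck_rot (by simp)]
  simp

lemma ck_lt {A : SO3} (hA : A ≠ 1) : ck A < ck 1 := by
  obtain ⟨a, ha, rfl⟩ := exists_unit A
  rw [ck_one, ck_rot ha]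
  by_contra h
  exact hA (rot_eq_one ha h)

lemma ck_inv (A : SO3) : ck A⁻¹ = ck A := by
  unfold ck s3
  rfl

end Pool.Agent.MP_2915c1_al
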