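import Pool.Agent.Lib.MP_2915c1_al.Rot

set_option autoImplicit false

/-!
Every rotation comes from a nonzero quaternion.
-/

namespace Pool.Agent.MP_2915c1_al

open MeasureTheory Quaternion Set Filter Matrix

lemma SO3.transpose_mul (A : SO3) : A.1ᵀ * A.1 = 1 := by
  have : A⁻¹ * A = 1 := inv_mul_cancel A
  have h := congrArg Subtype.val this
  exact h

lemma SO3.adj (A : SO3) : A.1.adjugate = A.1ᵀ := by
  have h1 := SO3.transpose_mul A
  have h2 : A.1 * A.1.adjugate = 1 := by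
    rw [Matrix.mul_adjugate, ((SO3.mem_iff A.1).mp A.2).2, one_smul]
  calc A.1.adjugate = (A.1ᵀ * A.1) * A.1.adjugate := by rw [h1, one_mul]
    _ = A.1ᵀ := by rw [mul_assoc, h2, mul_one]

/-- The quaternion attached to a rotation of angle different from `π`. -/
def cand (A : Matrix (Fin 3) (Fin 3) ℝ) : ℍ[ℝ] :=
  ⟨1 + A 0 0 + A 1 1 + A 2 2, A 2 1 - A 1 2, A 0 2 - A 2 0, A 1 0 - A 0 1⟩

lemma cand_spec (A : SO3) :
    normSq (cand A.1) = 4 * (1 + A.1 0 0 + A.1 1 1 + A.1 2 2) ∧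
      rotM (cand A.1) = (4 * (1 + A.1 0 0 + A.1 1 1 + A.1 2 2)) • A.1 := by
  have hadj := SO3.adj A
  have hrow := ((SO3.mem_iff A.1).mp A.2).1
  have hcol := SO3.transpose_mul A
  obtain ⟨M, hM⟩ := A
  simp only at hadj hrow hcol ⊢
  have e (i j : Fin 3) : M.adjugate i j = M j i := by rw [hadj]; rfl
  have r (i j : Fin 3) : (M * Mᵀ) i j = (1 : Matrix (Fin 3) (Fin 3) ℝ) i j := by rw [hrow]
  have c (i j : Fin 3) : (Mᵀ * M) i j = (1 : Matrix (Fin 3) (Fin 3) ℝ) i j := by rw [hcol]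
  have e00 := e 0 0
  have e01 := e 0 1
  have e02 := e 0 2
  have e10 := e 1 0
  have e11 := e 1 1
  have e12 := e 1 2
  have e20 := e 2 0
  have e21 := e 2 1
  have e22 := e 2 2
  have r00 := r 0 0
  have r01 := r 0 1
  have r02 := r 0 2
  have r11 := r 1 1
  have r12 := r 1 2
  have r22 := r 2 2
  have c00 := c 0 0
  have c01 := c 0 1
  have c02 := c 0 2
  have c11 := c 1 1
  have c12 := c 1 2
  have c22 := c 2 2
  rw [Matrix.adjugate_fin_three] at e00 e01 e02 e10 e11 e12 e20 e21 e22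
  simp [Matrix.mul_apply, Fin.sum_univ_three] at e00 e01 e02 e10 e11 e12 e20 e21 e22 r00 r01 r02 r11 r12 r22 c00 c01 c02 c11 c12 c22
  constructor
  · rw [normSq_eq]
    simp only [cand]
    linarith
  · ext i j
    fin_cases i <;> fin_cases j <;> simp [rotM, cand] <;> linarith

lemma rot_surj_of_ne (A : SO3) (h : 1 + A.1 0 0 + A.1 1 1 + A.1 2 2 ≠ 0) :
    ∃ a : ℍ[ℝ], a ≠ 0 ∧ rot a = A := by
  obtain ⟨h1, h2⟩ := cand_spec A
  have h3 : cand A.1 ≠ 0 := by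
    intro h0
    rw [h0, map_zero] at h1
    apply h
    linarith
  refine ⟨cand A.1, h3, Subtype.ext ?_⟩
  rw [rot_val h3, h1, h2, smul_smul, inv_mul_cancel₀ (by simpa using h), one_smul]

lemma rotM_unit_i : rotM ⟨0, 1, 0, 0⟩ = !![1, 0, 0; 0, -1, 0; 0, 0, -1] := by
  ext i j
  fin_cases i <;> fin_cases j <;> simp [rotM]

lemma rotM_unit_j : rotM ⟨0, 0, 1, 0⟩ = !![-1, 0, 0; 0, 1, 0; 0, 0, -1] := by
  ext i j
  fin_cases i <;> fin_cases j <;> simp [rotM]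

lemma rotM_unit_k : rotM ⟨0, 0, 0, 1⟩ = !![-1, 0, 0; 0, -1, 0; 0, 0, 1] := by
  ext i j
  fin_cases i <;> fin_cases j <;> simp [rotM]

lemma rot_val_unit {a : ℍ[ℝ]} (h : normSq a = 1) : (rot a).1 = rotM a := by
  have ha : a ≠ 0 := by
    intro h0
    rw [h0, map_zero] at h
    exact zero_ne_one h
  rw [rot_val ha, h, inv_one, one_smul]

lemma rot_one : rot 1 = 1 := by
  apply Subtype.ext
  rw [rot_val_unit (by simp)]
  ext i j
  fin_cases i <;> fin_cases j <;> simp [rotM]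

lemma rot_inv {a : ℍ[ℝ]} (ha : a ≠ 0) : rot a⁻¹ = (rot a)⁻¹ := by
  apply eq_inv_of_mul_eq_one_left
  rw [← rot_mul (inv_ne_zero ha) ha, inv_mul_cancel₀ ha, rot_one]

lemma rot_surj (A : SO3) : ∃ a : ℍ[ℝ], a ≠ 0 ∧ rot a = A := by
  have key : ∀ u : ℍ[ℝ], normSq u = 1 →
      1 + (A * rot u).1 0 0 + (A * rot u).1 1 1 + (A * rot u).1 2 2 ≠ 0 →
      ∃ a : ℍ[ℝ], a ≠ 0 ∧ rot a = A := by
    intro u hu h
    have hu0 : u ≠ 0 := by
      intro h0
      rw [h0, map_zero] at hu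
      exact zero_ne_one hu
    obtain ⟨a, ha, haA⟩ := rot_surj_of_ne _ h
    refine ⟨a * u⁻¹, mul_ne_zero ha (inv_ne_zero hu0), ?_⟩
    rw [rot_mul ha (inv_ne_zero hu0), haA, mul_assoc, rot_inv hu0, mul_inv_cancel, mul_one]
  by_cases h0 : 1 + A.1 0 0 + A.1 1 1 + A.1 2 2 = 0
  · have n1 : normSq (⟨0, 1, 0, 0⟩ : ℍ[ℝ]) = 1 := by rw [normSq_eq]; norm_num
    have n2 : normSq (⟨0, 0, 1, 0⟩ : ℍ[ℝ]) = 1 := by rw [normSq_eq]; norm_num
    have n3 : normSq (⟨0, 0, 0, 1⟩ : ℍ[ℝ]) = 1 := by rw [normSq_eq]; norm_num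
    by_cases h1 : 1 + (A * rot ⟨0, 1, 0, 0⟩).1 0 0 + (A * rot ⟨0, 1, 0, 0⟩).1 1 1 +
        (A * rot ⟨0, 1, 0, 0⟩).1 2 2 = 0
    · by_cases h2 : 1 + (A * rot ⟨0, 0, 1, 0⟩).1 0 0 + (A * rot ⟨0, 0, 1, 0⟩).1 1 1 +
          (A * rot ⟨0, 0, 1, 0⟩).1 2 2 = 0
      · apply key _ n3
        intro h3
        rw [SO3.mul_val, rot_val_unit n1, rotM_unit_i] at h1
        rw [SO3.mul_val, rot_val_unit n2, rotM_unit_j] at h2
        rw [SO3.mul_val, rot_val_unit n3, rotM_unit_k] at h3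
        simp [Matrix.mul_apply, Fin.sum_univ_three] at h1 h2 h3
        linarith
      · exact key _ n2 h2
    · exact key _ n1 h1
  · exact rot_surj_of_ne A h0

end Pool.Agent.MP_2915c1_al
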