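import Pool.Agent.Lib.MP_2915c1_al.HaarQuat

set_option autoImplicit false

/-!
A zero-one law for sets of pairs of rotations that are closed under passing to pairs inside the
generated subgroup.
-/

namespace Pool.Agent.MP_2915c1_al

open MeasureTheory Quaternion Set Filter Matrix

/-- Zero-one law: a measurable set of pairs of rotations that contains, with a pair `(a, b)`, every
pair of elements of the subgroup generated by `a, b`, is null or conull. -/
theorem zero_one_pairs (M : Set (SO3 × SO3)) (hM : MeasurableSet M)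
    (h : ∀ a b a' b' : SO3, (a, b) ∈ M → a' ∈ Subgroup.closure {a, b} →
      b' ∈ Subgroup.closure {a, b} → (a', b') ∈ M) :
    (∀ᵐ p ∂(haar.prod haar), p ∉ M) ∨ (∀ᵐ p ∂(haar.prod haar), p ∈ M) := by
  have ha : ∀ a b : SO3, a ∈ Subgroup.closure {a, b} := fun a b =>
    Subgroup.subset_closure (by simp)
  have hb : ∀ a b : SO3, b ∈ Subgroup.closure {a, b} := fun a b =>
    Subgroup.subset_closure (by simp)
  have hN : Good {p : ℍ[ℝ] × ℍ[ℝ] | (rot p.1, rot p.2) ∈ M} := by
    refine ⟨?_, ?_, ?_, ?_, ?_, ?_⟩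
    · exact (measurable_rq.prodMap measurable_rq) hM
    · intro a b r hr
      simp only [Set.mem_ofPred_eq]
      rw [rot_smul r hr]
    · intro a b r hr
      simp only [Set.mem_ofPred_eq]
      rw [rot_smul r hr]
    · intro a b ha0 hb0
      simp only [Set.mem_ofPred_eq]
      rw [rot_mul hb0 ha0]
      constructor
      · intro h1
        refine h _ _ _ _ h1 (ha _ _) ?_
        have h2 := mul_mem (hb (rot a) (rot b * rot a)) (inv_mem (ha (rot a) (rot b * rot a)))
        rwa [mul_inv_cancel_right] at h2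
      · intro h1
        exact h _ _ _ _ h1 (ha _ _) (mul_mem (hb _ _) (ha _ _))
    · intro a b ha0 hb0 h1
      simp only [Set.mem_ofPred_eq] at h1 ⊢
      rw [rot_mul ha0 ha0]
      exact h _ _ _ _ h1 (mul_mem (ha _ _) (ha _ _)) (hb _ _)
    · intro a b ha0 hb0 h1
      simp only [Set.mem_ofPred_eq] at h1 ⊢
      rw [rot_mul hb0 hb0]
      exact h _ _ _ _ h1 (ha _ _) (mul_mem (hb _ _) (hb _ _))
  have hsymm : ∀ a b, (a, b) ∈ {p : ℍ[ℝ] × ℍ[ℝ] | (rot p.1, rot p.2) ∈ M} →
      (b, a) ∈ {p : ℍ[ℝ] × ℍ[ℝ] | (rot p.1, rot p.2) ∈ M} := by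
    intro a b h1
    simp only [Set.mem_ofPred_eq] at h1 ⊢
    exact h _ _ _ _ h1 (hb _ _) (ha _ _)
  rcases hN.zero_one hsymm with h1 | h1
  · left
    refine ae_pair_of_quat (P := fun p => p ∉ M) hM.compl ?_
    exact h1
  · right
    refine ae_pair_of_quat (P := fun p => p ∈ M) hM ?_
    exact h1

end Pool.Agent.MP_2915c1_al
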