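import Pool.Agent.Lib.MP_2915c1_al.Line

set_option autoImplicit false

/-!
A zero-one law for sets of pairs of quaternions.
-/

namespace Pool.Agent.MP_2915c1_al

open MeasureTheory Quaternion Set Filter

/-- The hypotheses of the zero-one law on pairs of quaternions. -/
structure Good (N : Set (ℍ[ℝ] × ℍ[ℝ])) : Prop where
  meas : MeasurableSet {p : V × V | (q p.1, q p.2) ∈ N}
  scale₁ : ∀ a b, ∀ r : ℝ, r ≠ 0 → ((r • a, b) ∈ N ↔ (a, b) ∈ N)
  scale₂ : ∀ a b, ∀ r : ℝ, r ≠ 0 → ((a, r • b) ∈ N ↔ (a, b) ∈ N)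
  mul : ∀ a b, a ≠ 0 → b ≠ 0 → ((a, b * a) ∈ N ↔ (a, b) ∈ N)
  sq₁ : ∀ a b, a ≠ 0 → b ≠ 0 → (a, b) ∈ N → (a * a, b) ∈ N
  sq₂ : ∀ a b, a ≠ 0 → b ≠ 0 → (a, b) ∈ N → (a, b * b) ∈ N

/-- The pure quaternion with given coordinates. -/
def im (w : ℝ × ℝ × ℝ) : ℍ[ℝ] := q ((0, w) : V)

lemma im_re (w : ℝ × ℝ × ℝ) : (im w).re = 0 := rfl

lemma im_ne_zero {w : ℝ × ℝ × ℝ} (hw : w ≠ 0) : im w ≠ 0 := by
  apply q_ne_zero
  intro h
  exact hw (Prod.mk.inj h).2

lemma q_mk (x : ℝ) (w : ℝ × ℝ × ℝ) : q ((x, w) : V) = (x : ℍ[ℝ]) + im w := by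
  ext <;> simp [q, im]

lemma q_mk_ne_zero (x : ℝ) {w : ℝ × ℝ × ℝ} (hw : w ≠ 0) : q ((x, w) : V) ≠ 0 := by
  apply q_ne_zero
  intro h
  exact hw (Prod.mk.inj h).2

/-- the element `k.2 + k.1 w` of the plane spanned by `1` and `w`. -/
def kap (w : ℝ × ℝ × ℝ) (k : ℝ × ℝ) : ℍ[ℝ] := q ((k.2, k.1 • w) : V)

lemma continuous_q : Continuous q := by
  have : Continuous (qe : V → ℍ[ℝ]) := LinearMap.continuous_of_finiteDimensional qe.toLinearMap
  exact this

lemma continuous_qi : Continuous qi := by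
  have : Continuous (qe.symm : ℍ[ℝ] → V) :=
    LinearMap.continuous_of_finiteDimensional qe.symm.toLinearMap
  exact this

lemma qmp_div : Measure.QuasiMeasurePreserving (fun k : ℝ × ℝ => k.2 / k.1) volume volume := by
  refine ⟨by fun_prop, ?_⟩
  refine Measure.AbsolutelyContinuous.mk ?_
  intro s hs hs0
  rw [Measure.map_apply (by fun_prop) hs, Measure.volume_eq_prod]
  refine Measure.measure_prod_null_of_ae_null ((by fun_prop : Measurable (fun k : ℝ × ℝ => k.2 / k.1)) hs) ?_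
  have h0 : ∀ᵐ x : ℝ, x ≠ 0 := by
    simp [ae_iff]
  filter_upwards [h0] with x hx
  have : Prod.mk x ⁻¹' ((fun k : ℝ × ℝ => k.2 / k.1) ⁻¹' s) = (fun y : ℝ => x⁻¹ * y) ⁻¹' s := by
    ext y
    simp [div_eq_inv_mul]
  rw [this]
  have h1 := Real.volume_preimage_mul_left (inv_ne_zero hx) s
  simp only [Pi.zero_apply]
  rw [h1, hs0, mul_zero]

lemma kap_eq (w : ℝ × ℝ × ℝ) (k : ℝ × ℝ) (hk : k.1 ≠ 0) :
    kap w k = k.1 • q ((k.2 / k.1, w) : V) := by
  rw [← q_smul]
  unfold kap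
  congr 1
  ext <;> simp
  field_simp

lemma kap_ne_zero (w : ℝ × ℝ × ℝ) (hw : w ≠ 0) (k : ℝ × ℝ) (hk : k.1 ≠ 0) : kap w k ≠ 0 := by
  rw [kap_eq w k hk]
  exact smul_ne_zero hk (q_mk_ne_zero _ hw)

lemma continuous_kap (w : ℝ × ℝ × ℝ) : Continuous (kap w) := by
  unfold kap
  exact continuous_q.comp (by fun_prop)

lemma ae_fst_ne_zero : ∀ᵐ k : ℝ × ℝ, k.1 ≠ 0 := by
  have h0 : ∀ᵐ x : ℝ, x ≠ 0 := by
    simp [ae_iff]
  exact Measure.quasiMeasurePreserving_fst.ae h0

instance noAtomsV : NullSingletonClass (volume : Measure V) :=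
  inferInstanceAs (NullSingletonClass
    ((volume : Measure ℝ).prod (volume : Measure (ℝ × ℝ × ℝ))))

instance noAtoms3 : NullSingletonClass (volume : Measure (ℝ × ℝ × ℝ)) :=
  inferInstanceAs (NullSingletonClass ((volume : Measure ℝ).prod (volume : Measure (ℝ × ℝ))))

instance neBotV : (ae (volume : Measure V)).NeBot := by
  refine ae_neBot.mpr (fun h => ?_)
  have h1 := isOpen_univ.measure_ne_zero (volume : Measure V) univ_nonempty
  rw [h] at h1
  simp at h1

lemma ae_V_ne_zero : ∀ᵐ b : V, q b ≠ 0 := by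
  have : ∀ᵐ b : V, b ≠ 0 := by
    simp [ae_iff]
  filter_upwards [this] with b hb
  exact q_ne_zero hb

lemma qmp_smul (r : ℝ) (hr : r ≠ 0) :
    Measure.QuasiMeasurePreserving (fun v : V => r • v) volume volume :=
  qmp_linearEquiv volume volume (LinearEquiv.smulOfNeZero ℝ V r hr)

lemma qmp_add (c : V) :
    Measure.QuasiMeasurePreserving (fun v : V => v + c) volume volume :=
  (measurePreserving_add_right volume c).quasiMeasurePreserving

/-- Key finishing lemma. -/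
lemma finish (S : Set ℍ[ℝ]) (hS : MeasurableSet (q ⁻¹' S))
    (hs : ∀ a, ∀ r : ℝ, r ≠ 0 → (r • a ∈ S ↔ a ∈ S))
    (w : ℝ × ℝ × ℝ) (hw : w ≠ 0)
    (hR : ∀ᵐ x : ℝ, ∀ᵐ b : V, (q b ∈ S ↔ q b * q ((x, w) : V) ∈ S))
    (hT : ∀ᵐ b : V, (q b ∈ S ↔ q b + 1 ∈ S)) :
    (∀ᵐ b : V, q b ∉ S) ∨ (∀ᵐ b : V, q b ∈ S) := by
  -- invariance under right multiplication by the plane
  have hR' : ∀ᵐ k : ℝ × ℝ, ∀ᵐ b : V, (q b ∈ S ↔ q b * kap w k ∈ S) := by
    have h1 := qmp_div.ae hR
    filter_upwards [h1, ae_fst_ne_zero] with k hk hk0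
    filter_upwards [hk] with b hb
    rw [hb, kap_eq w k hk0, mul_smul_comm, hs _ _ hk0]
  -- invariance under translation by the plane
  have hT' : ∀ᵐ k : ℝ × ℝ, ∀ᵐ b : V, (q b ∈ S ↔ q b + star (kap w k) ∈ S) := by
    filter_upwards [hR', ae_fst_ne_zero] with k hk hk0
    have hK : kap w k ≠ 0 := kap_ne_zero w hw k hk0
    set K := kap w k with hKdef
    set n : ℝ := normSq K with hn
    have hn0 : n ≠ 0 := by
      rw [hn]; exact (Quaternion.normSq_ne_zero).mpr hK
    have hstar : star K = n • K⁻¹ := by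
      rw [Quaternion.inv_def, smul_smul, ← hn, mul_inv_cancel₀ hn0, one_smul]
    have e1 := (qmp_smul n⁻¹ (inv_ne_zero hn0)).ae hk
    have e2 := (qmp_smul n⁻¹ (inv_ne_zero hn0)).ae ((qmp_mulR K hK).ae hT)
    have e3 := (qmp_smul n⁻¹ (inv_ne_zero hn0)).ae ((qmp_add (qi K⁻¹)).ae hk)
    filter_upwards [e1, e2, e3] with b h1 h2 h3
    simp only [q_smul, q_add, q_qi] at h1 h2 h3
    calc q b ∈ S ↔ n⁻¹ • q b ∈ S := (hs _ _ (inv_ne_zero hn0)).symm
      _ ↔ n⁻¹ • q b * K ∈ S := h1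
      _ ↔ n⁻¹ • q b * K + 1 ∈ S := h2
      _ ↔ (n⁻¹ • q b + K⁻¹) * K ∈ S := by rw [add_mul, inv_mul_cancel₀ hK]
      _ ↔ n⁻¹ • q b + K⁻¹ ∈ S := h3.symm
      _ ↔ n • (n⁻¹ • q b + K⁻¹) ∈ S := (hs _ _ hn0).symm
      _ ↔ q b + star K ∈ S := by
        rw [smul_add, smul_smul, mul_inv_cancel₀ hn0, one_smul, hstar]
  -- combination
  have hC : ∀ᵐ t : (ℝ × ℝ) × (ℝ × ℝ), ∀ᵐ b : V,
      (q b ∈ S ↔ q b * kap w t.1 + star (kap w t.2) ∈ S) := by
    have h1 := (Measure.quasiMeasurePreserving_fst (μ := (volume : Measure (ℝ × ℝ)))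
      (ν := (volume : Measure (ℝ × ℝ)))).ae hR'
    have h2 := (Measure.quasiMeasurePreserving_snd (μ := (volume : Measure (ℝ × ℝ)))
      (ν := (volume : Measure (ℝ × ℝ)))).ae hT'
    have h3 := (Measure.quasiMeasurePreserving_fst (μ := (volume : Measure (ℝ × ℝ)))
      (ν := (volume : Measure (ℝ × ℝ)))).ae ae_fst_ne_zero
    rw [← Measure.volume_eq_prod] at h1 h2 h3
    filter_upwards [h1, h2, h3] with t ht1 ht2 ht3
    have hK : kap w t.1 ≠ 0 := kap_ne_zero w hw t.1 ht3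
    have h4 := (qmp_mulR _ hK).ae ht2
    filter_upwards [ht1, h4] with b hb1 hb2
    rw [hb1]
    simpa using hb2
  have hmeas : MeasurableSet {x : ((ℝ × ℝ) × (ℝ × ℝ)) × V |
      (q x.2 ∈ S ↔ q x.2 * kap w x.1.1 + star (kap w x.1.2) ∈ S)} := by
    have m1 : MeasurableSet {x : ((ℝ × ℝ) × (ℝ × ℝ)) × V | q x.2 ∈ S} := measurable_snd hS
    have m2 : MeasurableSet {x : ((ℝ × ℝ) × (ℝ × ℝ)) × V |
        q x.2 * kap w x.1.1 + star (kap w x.1.2) ∈ S} := by
      have hc : Continuous (fun x : ((ℝ × ℝ) × (ℝ × ℝ)) × V =>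
          qi (q x.2 * kap w x.1.1 + star (kap w x.1.2))) := by
        have h1 := continuous_q
        have h2 := continuous_kap w
        have h3 := continuous_qi
        fun_prop
      exact hc.measurable hS
    exact m1.iff m2
  have hC' := (Measure.ae_ae_comm hmeas).mp hC
  -- choose a good base point outside the plane
  have hspan : ∀ᵐ b : V, b ∉ Submodule.span ℝ ({((1 : ℝ), (0 : ℝ × ℝ × ℝ)), ((0 : ℝ), w)} : Set V) := by
    have hne : Submodule.span ℝ ({((1 : ℝ), (0 : ℝ × ℝ × ℝ)), ((0 : ℝ), w)} : Set V) ≠ ⊤ := by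
      intro htop
      have h1 : Module.finrank ℝ V ≤ 2 := by
        have h2 := finrank_span_le_card (R := ℝ)
          ({((1 : ℝ), (0 : ℝ × ℝ × ℝ)), ((0 : ℝ), w)} : Set V)
        rw [htop, finrank_top] at h2
        refine h2.trans ?_
        rw [Set.toFinset_insert, Set.toFinset_singleton]
        exact Finset.card_le_two
      have h3 : Module.finrank ℝ V = 4 := by
        simp [V]
      omega
    have := Measure.addHaar_submodule (volume : Measure V) _ hne
    exact measure_eq_zero_iff_ae_notMem.mp this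
  obtain ⟨b, hb1, hb2⟩ := (hC'.and hspan).exists
  -- the affine parametrisation is a linear isomorphism
  let Φ : (ℝ × ℝ) × (ℝ × ℝ) →ₗ[ℝ] V :=
    { toFun := fun t => qi (q b * kap w t.1 + star (kap w t.2))
      map_add' := by
        intro s t
        have hk : ∀ k l : ℝ × ℝ, kap w (k + l) = kap w k + kap w l := by
          intro k l
          unfold kap
          rw [← q_add]
          congr 1
          ext <;> simp <;> ring
        have hq : ∀ x y : ℍ[ℝ], qi (x + y) = qi x + qi y := fun x y => by simp [qi]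
        rw [← hq]
        congr 1
        simp only [Prod.fst_add, Prod.snd_add, hk, mul_add, star_add]
        abel
      map_smul' := by
        intro r t
        have hk : ∀ k : ℝ × ℝ, kap w (r • k) = r • kap w k := by
          intro k
          unfold kap
          rw [← q_smul]
          congr 1
          ext <;> simp <;> ring
        have hq : ∀ x : ℍ[ℝ], qi (r • x) = r • qi x := fun x => by simp [qi]
        simp only [RingHom.id_apply]
        rw [← hq]
        congr 1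
        simp only [Prod.smul_fst, Prod.smul_snd, hk, mul_smul_comm, smul_add, Quaternion.star_smul] }
  have hΦ : ∀ t, q (Φ t) = q b * kap w t.1 + star (kap w t.2) := fun t => rfl
  -- the plane as a subalgebra
  have hkspan : ∀ k : ℝ × ℝ, qi (kap w k) ∈
      Submodule.span ℝ ({((1 : ℝ), (0 : ℝ × ℝ × ℝ)), ((0 : ℝ), w)} : Set V) := by
    intro k
    rw [Submodule.mem_span_pair]
    refine ⟨k.2, k.1, ?_⟩
    simp [kap]
  have hstark : ∀ k : ℝ × ℝ, star (kap w k) = kap w (-k.1, k.2) := by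
    intro k
    ext <;> simp [kap, q]
  have hmulk : ∀ k l : ℝ × ℝ, ∃ m : ℝ × ℝ, kap w k * kap w l = kap w m := by
    intro k l
    refine ⟨(k.1 * l.2 + k.2 * l.1,
      k.2 * l.2 - k.1 * l.1 * (w.1 ^ 2 + w.2.1 ^ 2 + w.2.2 ^ 2)), ?_⟩
    ext <;> simp [kap, q] <;> ring
  have hinj : Function.Injective Φ := by
    rw [← LinearMap.ker_eq_bot, LinearMap.ker_eq_bot']
    intro t ht
    have h0 : q b * kap w t.1 + star (kap w t.2) = 0 := by
      rw [← hΦ, ht]
      ext <;> rfl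
    by_cases hk : kap w t.1 = 0
    · rw [hk, mul_zero, zero_add] at h0
      have h1 : kap w t.2 = 0 := star_eq_zero.mp h0
      have hz : ∀ k : ℝ × ℝ, kap w k = 0 → k = 0 := by
        intro k hk
        have h2 : qi (kap w k) = qi 0 := by rw [hk]
        have h3 : ((k.2, k.1 • w) : V) = (0, 0) := h2
        have h4 := Prod.mk.inj h3
        have h5 : k.1 = 0 := by
          rcases smul_eq_zero.mp h4.2 with h | h
          · exact h
          · exact absurd h hw
        exact Prod.ext h5 h4.1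
      exact Prod.ext (hz _ hk) (hz _ h1)
    · exfalso
      apply hb2
      have h1 : q b = -(star (kap w t.2)) * (kap w t.1)⁻¹ := by
        rw [eq_mul_inv_iff_mul_eq₀ hk]
        exact eq_neg_of_add_eq_zero_left h0
      have h2 : (kap w t.1)⁻¹ = (normSq (kap w t.1))⁻¹ • star (kap w t.1) :=
        Quaternion.inv_def _
      obtain ⟨m, hm⟩ := hmulk (-t.2.1, t.2.2) (-t.1.1, t.1.2)
      have h3 : q b = -((normSq (kap w t.1))⁻¹ • kap w m) := by
        rw [h1, h2, mul_smul_comm, neg_mul, hstark t.2, hstark t.1, hm, smul_neg]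
      have h4 : b = -((normSq (kap w t.1))⁻¹ • qi (kap w m)) := by
        have := congrArg qi h3
        rw [qi_q] at this
        rw [this]
        simp [qi]
      rw [h4]
      exact Submodule.neg_mem _ (Submodule.smul_mem _ _ (hkspan m))
  have hdim : Module.finrank ℝ ((ℝ × ℝ) × (ℝ × ℝ)) = Module.finrank ℝ V := by
    simp [V]
  let e : ((ℝ × ℝ) × (ℝ × ℝ)) ≃ₗ[ℝ] V := LinearMap.linearEquivOfInjective Φ hinj hdim
  have he : ∀ t, e t = Φ t := fun t => rfl
  have hqmp := qmp_linearEquiv (volume : Measure V)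
    (volume : Measure ((ℝ × ℝ) × (ℝ × ℝ))) e.symm
  have hfin := hqmp.ae hb1
  by_cases hbS : q b ∈ S
  · right
    filter_upwards [hfin] with v hv
    rw [← hΦ, ← he, LinearEquiv.apply_symm_apply] at hv
    exact hv.mp hbS
  · left
    filter_upwards [hfin] with v hv
    rw [← hΦ, ← he, LinearEquiv.apply_symm_apply] at hv
    exact fun h => hbS (hv.mpr h)

end Pool.Agent.MP_2915c1_al
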